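import Mathlib

/-! Bounds for `∫_0^π sin^N θ p(cos θ) e^{s cos θ} dθ`, `s` complex. -/

set_option autoImplicit false

open MeasureTheory Set Filter Topology Complex
open scoped Real Interval

namespace Pool.Agent.N378.RD

/-- the exponential `e^{s cos θ}` -/
noncomputable def ec (s : ℂ) (θ : ℝ) : ℂ := Complex.exp (s * (Real.cos θ : ℂ))

lemma ec_cont (s : ℂ) : Continuous (ec s) := by unfold ec; fun_prop

lemma ec_norm (s : ℂ) (θ : ℝ) : ‖ec s θ‖ ≤ Real.exp |s.re| := by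
  unfold ec
  rw [Complex.norm_exp]
  apply Real.exp_le_exp.2
  rw [Complex.re_mul_ofReal]
  calc s.re * Real.cos θ ≤ |s.re * Real.cos θ| := le_abs_self _
    _ = |s.re| * |Real.cos θ| := abs_mul _ _
    _ ≤ |s.re| * 1 := by gcongr; exact Real.abs_cos_le_one θ
    _ = |s.re| := mul_one _

lemma ec_deriv (s : ℂ) (θ : ℝ) :
    HasDerivAt (ec s) (-(s * (Real.sin θ : ℂ) * ec s θ)) θ := by
  have h1 : HasDerivAt (fun θ : ℝ => ((Real.cos θ : ℝ) : ℂ)) ((-Real.sin θ : ℝ) : ℂ) θ :=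
    (Real.hasDerivAt_cos θ).ofReal_comp
  have h2 := (h1.const_mul s).cexp
  unfold ec
  convert h2 using 1
  push_cast
  ring

/-- integration by parts -/
lemma ibp (s : ℂ) (hs : s ≠ 0) (a b : ℝ) (u u' : ℝ → ℂ)
    (hu : ∀ x ∈ [[a, b]], HasDerivAt u (u' x) x) (hu' : ContinuousOn u' [[a, b]]) :
    ∫ θ in a..b, u θ * ((Real.sin θ : ℂ) * ec s θ) =
      -(1 / s) * (u b * ec s b - u a * ec s a) + (1 / s) * ∫ θ in a..b, u' θ * ec s θ := by
  have hv' : Continuous (fun θ : ℝ => (Real.sin θ : ℂ) * ec s θ) := by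
    have := ec_cont s
    fun_prop
  have h1 := intervalIntegral.integral_mul_deriv_eq_deriv_mul
    (u := u) (v := fun θ => -(1 / s) * ec s θ) (u' := u')
    (v' := fun θ => (Real.sin θ : ℂ) * ec s θ) (a := a) (b := b) hu
    (fun x _ => by
      have := (ec_deriv s x).const_mul (-(1 / s))
      convert this using 1
      field_simp)
    (hu'.intervalIntegrable) (hv'.intervalIntegrable _ _)
  rw [h1]
  have h2 : ∫ θ in a..b, u' θ * (-(1 / s) * ec s θ) = -(1 / s) * ∫ θ in a..b, u' θ * ec s θ := by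
    rw [← intervalIntegral.integral_const_mul]
    apply intervalIntegral.integral_congr
    intro θ _
    simp only
    ring
  rw [h2]
  ring

/-- bound from integration by parts -/
lemma ibp_bound (s : ℂ) (hs : s ≠ 0) (a b : ℝ) (hab : a ≤ b) (u u' : ℝ → ℂ)
    (hu : ∀ x ∈ [[a, b]], HasDerivAt u (u' x) x) (hu' : ContinuousOn u' [[a, b]])
    (g : ℝ → ℝ) (hg : IntervalIntegrable g volume a b) (hug : ∀ x ∈ Icc a b, ‖u' x‖ ≤ g x) :
    ‖∫ θ in a..b, u θ * ((Real.sin θ : ℂ) * ec s θ)‖ ≤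
      Real.exp |s.re| / ‖s‖ * (‖u a‖ + ‖u b‖ + ∫ x in a..b, g x) := by
  rw [ibp s hs a b u u' hu hu']
  have hs0 : 0 < ‖s‖ := norm_pos_iff.2 hs
  have h1 : ‖∫ θ in a..b, u' θ * ec s θ‖ ≤ Real.exp |s.re| * ∫ x in a..b, g x := by
    rw [← intervalIntegral.integral_const_mul]
    apply intervalIntegral.norm_integral_le_of_norm_le hab
    · refine Eventually.of_forall fun x hx => ?_
      rw [norm_mul, mul_comm]
      exact mul_le_mul (ec_norm s x) (hug x (Ioc_subset_Icc_self hx)) (norm_nonneg _)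
        (Real.exp_pos _).le
    · exact hg.const_mul _
  have h2 : ‖u b * ec s b‖ ≤ ‖u b‖ * Real.exp |s.re| := by
    rw [norm_mul]
    exact mul_le_mul_of_nonneg_left (ec_norm s b) (norm_nonneg _)
  have h3 : ‖u a * ec s a‖ ≤ ‖u a‖ * Real.exp |s.re| := by
    rw [norm_mul]
    exact mul_le_mul_of_nonneg_left (ec_norm s a) (norm_nonneg _)
  have h4 : ‖(1 / s : ℂ)‖ = 1 / ‖s‖ := by rw [norm_div, norm_one]
  calc ‖-(1 / s) * (u b * ec s b - u a * ec s a) + (1 / s) * ∫ θ in a..b, u' θ * ec s θ‖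
      ≤ ‖-(1 / s) * (u b * ec s b - u a * ec s a)‖ + ‖(1 / s) * ∫ θ in a..b, u' θ * ec s θ‖ :=
        norm_add_le _ _
    _ ≤ 1 / ‖s‖ * (‖u b‖ * Real.exp |s.re| + ‖u a‖ * Real.exp |s.re|) +
        1 / ‖s‖ * (Real.exp |s.re| * ∫ x in a..b, g x) := by
        rw [norm_mul, norm_mul, norm_neg, h4]
        gcongr
        exact (norm_sub_le _ _).trans (add_le_add h2 h3)
    _ = _ := by
        field_simp
        ring

/-- a polynomial in `cos θ` -/
noncomputable def pc (p : Polynomial ℂ) (θ : ℝ) : ℂ := p.eval ((Real.cos θ : ℝ) : ℂ)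

lemma pc_cont (p : Polynomial ℂ) : Continuous (pc p) := by
  unfold pc
  exact p.continuous.comp (by fun_prop)

lemma pc_deriv (p : Polynomial ℂ) (θ : ℝ) :
    HasDerivAt (pc p) (-((Real.sin θ : ℂ) * pc (Polynomial.derivative p) θ)) θ := by
  have h1 : HasDerivAt (fun θ : ℝ => ((Real.cos θ : ℝ) : ℂ)) ((-Real.sin θ : ℝ) : ℂ) θ :=
    (Real.hasDerivAt_cos θ).ofReal_comp
  have h2 := (p.hasDerivAt ((Real.cos θ : ℝ) : ℂ)).comp_of_eq (h₂ := fun z => p.eval z) θ h1 rfl
  have h3 : -((Real.sin θ : ℂ) * pc (Polynomial.derivative p) θ) =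
      (Polynomial.derivative p).eval ((Real.cos θ : ℝ) : ℂ) * ((-Real.sin θ : ℝ) : ℂ) := by
    unfold pc
    push_cast
    ring
  rw [h3]
  exact h2

lemma pc_bdd (p : Polynomial ℂ) : ∃ M : ℝ, 0 ≤ M ∧ ∀ θ, ‖pc p θ‖ ≤ M := by
  have hc : IsCompact (Metric.closedBall (0 : ℂ) 1) := isCompact_closedBall _ _
  obtain ⟨M, hM⟩ := hc.exists_bound_of_continuousOn (f := fun z => p.eval z) p.continuous.continuousOn
  refine ⟨max M 0, le_max_right _ _, fun θ => (hM _ ?_).trans (le_max_left _ _)⟩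
  rw [mem_closedBall_zero_iff, Complex.norm_real]
  exact Real.abs_cos_le_one θ

/-- The integral. -/
noncomputable def IN (N : ℕ) (p : Polynomial ℂ) (s : ℂ) : ℂ :=
  ∫ θ in (0 : ℝ)..π, (Real.sin θ : ℂ) ^ N * pc p θ * ec s θ

lemma IN_one (p : Polynomial ℂ) :
    ∃ C : ℝ, 0 ≤ C ∧ ∀ s : ℂ, 1 ≤ ‖s‖ → ‖IN 1 p s‖ ≤ C * Real.exp |s.re| * ‖s‖ ^ (-(1 : ℝ)) := by
  obtain ⟨M, hM0, hM⟩ := pc_bdd p
  obtain ⟨M', hM0', hM'⟩ := pc_bdd (Polynomial.derivative p)
  refine ⟨2 * M + π * M', by positivity, fun s hs => ?_⟩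
  have hs0 : s ≠ 0 := by
    rintro rfl
    simp at hs
    linarith
  have h1 := ibp_bound s hs0 0 π Real.pi_pos.le (pc p)
    (fun θ => -((Real.sin θ : ℂ) * pc (Polynomial.derivative p) θ)) (fun x _ => pc_deriv p x)
    (by
      apply Continuous.continuousOn
      have := pc_cont (Polynomial.derivative p)
      fun_prop) (fun _ => M') (by simp) (fun x _ => by
      rw [norm_neg, norm_mul, Complex.norm_real]
      calc |Real.sin x| * ‖pc (Polynomial.derivative p) x‖ ≤ 1 * M' :=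
            mul_le_mul (Real.abs_sin_le_one x) (hM' x) (norm_nonneg _) zero_le_one
        _ = M' := one_mul _)
  have h2 : IN 1 p s = ∫ θ in (0 : ℝ)..π, pc p θ * ((Real.sin θ : ℂ) * ec s θ) := by
    unfold IN
    apply intervalIntegral.integral_congr
    intro θ _
    simp only
    ring
  rw [h2]
  refine h1.trans ?_
  rw [intervalIntegral.integral_const, smul_eq_mul, sub_zero, Real.rpow_neg_one]
  have hp : 0 < ‖s‖ := norm_pos_iff.2 hs0
  calc Real.exp |s.re| / ‖s‖ * (‖pc p 0‖ + ‖pc p π‖ + π * M')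
      ≤ Real.exp |s.re| / ‖s‖ * (M + M + π * M') := by
        gcongr
        · exact hM 0
        · exact hM π
    _ = _ := by
        rw [div_eq_mul_inv]
        ring

lemma IN_succ (N : ℕ) (p : Polynomial ℂ) (s : ℂ) (hs : s ≠ 0) :
    IN (N + 2) p s = (1 / s) * IN N (Polynomial.C ((N : ℂ) + 1) * Polynomial.X * p -
      (1 - Polynomial.X ^ 2) * Polynomial.derivative p) s := by
  have h1 := ibp s hs 0 π (fun θ => (Real.sin θ : ℂ) ^ (N + 1) * pc p θ)
    (fun θ => (((N + 1 : ℕ) : ℂ) * (Real.sin θ : ℂ) ^ N * (Real.cos θ : ℂ)) * pc p θ +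
      (Real.sin θ : ℂ) ^ (N + 1) * (-((Real.sin θ : ℂ) * pc (Polynomial.derivative p) θ)))
    (fun x _ => by
      have e1 : HasDerivAt (fun θ : ℝ => ((Real.sin θ : ℝ) : ℂ)) ((Real.cos x : ℝ) : ℂ) x :=
        (Real.hasDerivAt_sin x).ofReal_comp
      have e2 := e1.pow (N + 1)
      simp only [Nat.add_sub_cancel] at e2
      exact e2.mul (pc_deriv p x))
    (by
      apply Continuous.continuousOn
      have := pc_cont (Polynomial.derivative p)
      have := pc_cont p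
      fun_prop)
  have h2 : IN (N + 2) p s =
      ∫ θ in (0 : ℝ)..π, ((Real.sin θ : ℂ) ^ (N + 1) * pc p θ) * ((Real.sin θ : ℂ) * ec s θ) := by
    unfold IN
    apply intervalIntegral.integral_congr
    intro θ _
    simp only
    ring
  rw [h2, h1]
  simp only [Real.sin_pi, Real.sin_zero, ofReal_zero, ne_eq, Nat.add_eq_zero_iff, one_ne_zero,
    and_false, not_false_eq_true, zero_pow, zero_mul, sub_zero, mul_zero, zero_add]
  congr 1
  unfold IN
  apply intervalIntegral.integral_congr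
  intro θ _
  have e3 : (1 : ℂ) - ((Real.cos θ : ℝ) : ℂ) ^ 2 = ((Real.sin θ : ℝ) : ℂ) ^ 2 := by
    have := Real.sin_sq_add_cos_sq θ
    have h : (((Real.sin θ) ^ 2 + (Real.cos θ) ^ 2 : ℝ) : ℂ) = 1 := by rw [this]; simp
    push_cast at h ⊢
    linear_combination -h
  simp only [pc, Polynomial.eval_sub, Polynomial.eval_mul, Polynomial.eval_C, Polynomial.eval_X,
    Polynomial.eval_one, Polynomial.eval_pow, e3]
  push_cast
  ring

lemma sin_pos_mid {δ θ : ℝ} (h0 : 0 < δ) (h : θ ∈ Icc δ (π - δ)) : 0 < Real.sin θ :=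
  Real.sin_pos_of_pos_of_lt_pi (by linarith [h.1]) (by linarith [h.2])

lemma int_inv_sin_sq {δ : ℝ} (h0 : 0 < δ) (h1 : δ ≤ 1) :
    IntervalIntegrable (fun θ => 1 / Real.sin θ ^ 2) volume δ (π - δ) ∧
    ∫ θ in δ..(π - δ), 1 / Real.sin θ ^ 2 = 2 * (Real.cos δ / Real.sin δ) := by
  have hpi := Real.pi_gt_three
  have hle : δ ≤ π - δ := by linarith
  have hs : ∀ x ∈ [[δ, π - δ]], Real.sin x ≠ 0 := by
    intro x hx
    rw [uIcc_of_le hle] at hx
    exact (sin_pos_mid h0 hx).ne'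
  have hI : IntervalIntegrable (fun θ => 1 / Real.sin θ ^ 2) volume δ (π - δ) := by
    apply ContinuousOn.intervalIntegrable
    apply ContinuousOn.div continuousOn_const (by fun_prop)
    intro x hx
    exact pow_ne_zero 2 (hs x hx)
  refine ⟨hI, ?_⟩
  rw [intervalIntegral.integral_eq_sub_of_hasDerivAt (f := fun θ => -(Real.cos θ / Real.sin θ)) _ hI]
  · rw [Real.sin_pi_sub, Real.cos_pi_sub]
    ring
  · intro x hx
    have h2 := ((Real.hasDerivAt_cos x).div (Real.hasDerivAt_sin x) (hs x hx)).neg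
    have := Real.sin_sq_add_cos_sq x
    rw [show -Real.sin x * Real.sin x - Real.cos x * Real.cos x = -1 by nlinarith] at h2
    have e : (1 : ℝ) / Real.sin x ^ 2 = -(-1 / Real.sin x ^ 2) := by ring
    rw [e]
    exact h2

lemma IN_zero (p : Polynomial ℂ) :
    ∃ C : ℝ, 0 ≤ C ∧ ∀ s : ℂ, 1 ≤ ‖s‖ →
      ‖IN 0 p s‖ ≤ C * Real.exp |s.re| * ‖s‖ ^ (-(1 / 2 : ℝ)) := by
  obtain ⟨M, hM0, hM⟩ := pc_bdd p
  obtain ⟨M', hM0', hM'⟩ := pc_bdd (Polynomial.derivative p)
  refine ⟨2 * M + 2 * π * M + π * M', by positivity, fun s hs => ?_⟩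
  have hs0 : s ≠ 0 := by
    rintro rfl
    simp at hs
    linarith
  have hsn : 0 < ‖s‖ := norm_pos_iff.2 hs0
  set δ : ℝ := ‖s‖ ^ (-(1 / 2 : ℝ)) with hδ
  have hδ0 : 0 < δ := Real.rpow_pos_of_pos hsn _
  have hδ1 : δ ≤ 1 := Real.rpow_le_one_of_one_le_of_nonpos hs (by norm_num)
  have hδ2 : 1 / ‖s‖ = δ ^ 2 := by
    rw [hδ, ← Real.rpow_natCast, ← Real.rpow_mul hsn.le]
    norm_num
    exact (Real.rpow_neg_one _).symm
  have hpi := Real.pi_gt_three
  have hle : δ ≤ π - δ := by linarith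
  set E := Real.exp |s.re| with hE
  have hE0 : 0 < E := Real.exp_pos _
  have hcont : Continuous (fun θ : ℝ => pc p θ * ec s θ) := (pc_cont p).mul (ec_cont s)
  have hii : ∀ a b : ℝ, IntervalIntegrable (fun θ : ℝ => pc p θ * ec s θ) volume a b :=
    fun a b => hcont.intervalIntegrable a b
  have hsplit : IN 0 p s = (∫ θ in (0 : ℝ)..δ, pc p θ * ec s θ) +
      (∫ θ in δ..(π - δ), pc p θ * ec s θ) + ∫ θ in (π - δ)..π, pc p θ * ec s θ := by
    rw [intervalIntegral.integral_add_adjacent_intervals (hii _ _) (hii _ _),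
      intervalIntegral.integral_add_adjacent_intervals (hii _ _) (hii _ _)]
    unfold IN
    apply intervalIntegral.integral_congr
    intro θ _
    simp
  have hpt : ∀ θ, ‖pc p θ * ec s θ‖ ≤ M * E := fun θ => by
    rw [norm_mul]
    exact mul_le_mul (hM θ) (ec_norm s θ) (norm_nonneg _) hM0
  have hA : ‖∫ θ in (0 : ℝ)..δ, pc p θ * ec s θ‖ ≤ M * E * δ := by
    have := intervalIntegral.norm_integral_le_of_norm_le_const (a := (0:ℝ)) (b := δ)
      (f := fun θ : ℝ => pc p θ * ec s θ) (C := M * E) (fun θ _ => hpt θ)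
    rwa [sub_zero, abs_of_pos hδ0] at this
  have hC : ‖∫ θ in (π - δ)..π, pc p θ * ec s θ‖ ≤ M * E * δ := by
    have := intervalIntegral.norm_integral_le_of_norm_le_const (a := π - δ) (b := π)
      (f := fun θ : ℝ => pc p θ * ec s θ) (C := M * E) (fun θ _ => hpt θ)
    rwa [sub_sub_cancel, abs_of_pos hδ0] at this
  -- the middle
  have hsin : ∀ θ ∈ Icc δ (π - δ), 0 < Real.sin θ := fun θ h => sin_pos_mid hδ0 h
  have hsinC : ∀ θ ∈ Icc δ (π - δ), ((Real.sin θ : ℝ) : ℂ) ≠ 0 := fun θ h => by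
    exact_mod_cast (hsin θ h).ne'
  obtain ⟨hI1, hI2⟩ := int_inv_sin_sq hδ0 hδ1
  have hmid : ∫ θ in δ..(π - δ), pc p θ * ec s θ =
      ∫ θ in δ..(π - δ), (pc p θ / (Real.sin θ : ℂ)) * ((Real.sin θ : ℂ) * ec s θ) := by
    apply intervalIntegral.integral_congr
    intro θ hθ
    rw [uIcc_of_le hle] at hθ
    have := hsinC θ hθ
    simp only
    field_simp
  have hlow : 2 / π * δ ≤ Real.sin δ := Real.mul_le_sin hδ0.le (by linarith)
  have hsδ : 0 < Real.sin δ := hsin δ ⟨le_rfl, hle⟩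
  have hinv : 1 / Real.sin δ ≤ π / 2 * δ⁻¹ := by
    rw [div_le_iff₀ hsδ]
    calc (1 : ℝ) = π / 2 * δ⁻¹ * (2 / π * δ) := by field_simp
      _ ≤ _ := by gcongr
  have hB0 := ibp_bound s hs0 δ (π - δ) hle (fun θ => pc p θ / (Real.sin θ : ℂ))
    (fun θ => (-((Real.sin θ : ℂ) * pc (Polynomial.derivative p) θ) * (Real.sin θ : ℂ) -
      pc p θ * (Real.cos θ : ℂ)) / (Real.sin θ : ℂ) ^ 2)
    (fun x hx => by
      rw [uIcc_of_le hle] at hx
      have e1 : HasDerivAt (fun θ : ℝ => ((Real.sin θ : ℝ) : ℂ)) ((Real.cos x : ℝ) : ℂ) x :=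
        (Real.hasDerivAt_sin x).ofReal_comp
      exact (pc_deriv p x).div e1 (hsinC x hx))
    (by
      rw [uIcc_of_le hle]
      have := pc_cont (Polynomial.derivative p)
      have := pc_cont p
      apply ContinuousOn.div
      · apply Continuous.continuousOn
        fun_prop
      · apply Continuous.continuousOn
        fun_prop
      · intro x hx
        exact pow_ne_zero 2 (hsinC x hx))
    (fun θ => M' + M * (1 / Real.sin θ ^ 2)) (by
      apply IntervalIntegrable.add (by simp)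
      exact hI1.const_mul M)
    (fun x hx => by
      have h1 := hsin x hx
      rw [norm_div, norm_pow, Complex.norm_real, Real.norm_eq_abs, sq_abs,
        div_le_iff₀ (by positivity)]
      have e1 : (M' + M * (1 / Real.sin x ^ 2)) * Real.sin x ^ 2 = M' * Real.sin x ^ 2 + M := by
        field_simp
      rw [e1]
      refine (norm_sub_le _ _).trans (add_le_add ?_ ?_)
      · rw [norm_mul, norm_neg, norm_mul, Complex.norm_real, Real.norm_eq_abs, abs_of_pos h1]
        have := hM' x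
        nlinarith [sq_nonneg (Real.sin x), norm_nonneg (pc (Polynomial.derivative p) x),
          mul_pos h1 h1]
      · rw [norm_mul, Complex.norm_real, Real.norm_eq_abs]
        calc ‖pc p x‖ * |Real.cos x| ≤ M * 1 :=
              mul_le_mul (hM x) (Real.abs_cos_le_one x) (abs_nonneg _) hM0
          _ = M := mul_one _)
  rw [← hmid] at hB0
  have hnb : ∀ θ ∈ Icc δ (π - δ), Real.sin θ = Real.sin δ →
      ‖pc p θ / (Real.sin θ : ℂ)‖ ≤ M * (π / 2 * δ⁻¹) := by
    intro θ hθ hθs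
    rw [norm_div, Complex.norm_real, Real.norm_eq_abs, abs_of_pos (hsin θ hθ), hθs, div_eq_mul_one_div]
    exact mul_le_mul (hM θ) hinv (by positivity) hM0
  have hb1 := hnb δ ⟨le_rfl, hle⟩ rfl
  have hb2 := hnb (π - δ) ⟨hle, le_rfl⟩ (Real.sin_pi_sub δ)
  have hint : ∫ x in δ..(π - δ), (M' + M * (1 / Real.sin x ^ 2)) ≤ π * M' + M * (π * δ⁻¹) := by
    rw [intervalIntegral.integral_add (by simp) (hI1.const_mul M),
      intervalIntegral.integral_const_mul, hI2, intervalIntegral.integral_const, smul_eq_mul]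
    have e1 : Real.cos δ / Real.sin δ ≤ 1 / Real.sin δ := by
      gcongr
      exact Real.cos_le_one δ
    have e2 : (π - δ - δ) * M' ≤ π * M' := by
      gcongr
      linarith
    have e3 : M * (2 * (Real.cos δ / Real.sin δ)) ≤ M * (π * δ⁻¹) :=
      mul_le_mul_of_nonneg_left (by linarith) hM0
    linarith
  have hB : ‖∫ θ in δ..(π - δ), pc p θ * ec s θ‖ ≤ (2 * π * M + π * M') * E * δ := by
    refine hB0.trans ?_
    have hdi : (1 : ℝ) ≤ δ⁻¹ := (one_le_inv₀ hδ0).2 hδ1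
    have e4 : Real.exp |s.re| / ‖s‖ = E * δ ^ 2 := by
      rw [div_eq_mul_one_div, hδ2]
    rw [e4]
    calc E * δ ^ 2 * (‖pc p δ / (Real.sin δ : ℂ)‖ + ‖pc p (π - δ) / (Real.sin (π - δ) : ℂ)‖ +
          ∫ x in δ..(π - δ), (M' + M * (1 / Real.sin x ^ 2)))
        ≤ E * δ ^ 2 * (M * (π / 2 * δ⁻¹) + M * (π / 2 * δ⁻¹) + (π * M' * δ⁻¹ + M * (π * δ⁻¹))) := by
          gcongr
          have e5 : π * M' ≤ π * M' * δ⁻¹ := le_mul_of_one_le_right (by positivity) hdi
          refine hint.trans (by linarith)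
      _ = (2 * π * M + π * M') * E * δ := by
          field_simp
          ring
  rw [hsplit]
  refine (norm_add_le _ _).trans ?_
  refine (add_le_add (norm_add_le _ _) le_rfl).trans ?_
  calc _ ≤ M * E * δ + (2 * π * M + π * M') * E * δ + M * E * δ := by
        gcongr
    _ = _ := by ring

/-- **The bound for all `N`.** -/
theorem IN_bound (N : ℕ) : ∀ p : Polynomial ℂ,
    ∃ C : ℝ, 0 ≤ C ∧ ∀ s : ℂ, 1 ≤ ‖s‖ →
      ‖IN N p s‖ ≤ C * Real.exp |s.re| * ‖s‖ ^ (-(((N : ℝ) + 1) / 2)) := by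
  induction N using Nat.twoStepInduction with
  | zero =>
    intro p
    obtain ⟨C, hC, h⟩ := IN_zero p
    refine ⟨C, hC, fun s hs => ?_⟩
    have := h s hs
    norm_num at this ⊢
    exact this
  | one =>
    intro p
    obtain ⟨C, hC, h⟩ := IN_one p
    refine ⟨C, hC, fun s hs => ?_⟩
    have := h s hs
    norm_num at this ⊢
    exact this
  | more N ih _ =>
    intro p
    obtain ⟨C, hC, h⟩ := ih (Polynomial.C ((N : ℂ) + 1) * Polynomial.X * p -
      (1 - Polynomial.X ^ 2) * Polynomial.derivative p)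
    refine ⟨C, hC, fun s hs => ?_⟩
    have hs0 : s ≠ 0 := by
      rintro rfl
      simp at hs
      linarith
    have hsn : 0 < ‖s‖ := norm_pos_iff.2 hs0
    rw [IN_succ N p s hs0, norm_mul, norm_div, norm_one]
    have e : ‖s‖ ^ (-((((N + 2 : ℕ) : ℝ) + 1) / 2)) = ‖s‖ ^ (-(((N : ℝ) + 1) / 2)) * ‖s‖⁻¹ := by
      rw [← Real.rpow_neg_one, ← Real.rpow_add hsn]
      congr 1
      push_cast
      ring
    rw [e]
    calc 1 / ‖s‖ * ‖IN N _ s‖ ≤ 1 / ‖s‖ * (C * Real.exp |s.re| * ‖s‖ ^ (-(((N : ℝ) + 1) / 2))) := by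
          gcongr
          exact h s hs
      _ = _ := by
          rw [one_div]
          ring

end Pool.Agent.N378.RD
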