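import Mathlib
import Pool.Agent.TH429.J231
import Pool.Agent.N378.RD.Osc

/-! The zonal law for complex functions and the complex rotation identity. -/

set_option autoImplicit false

open MeasureTheory Set Filter Topology Complex
open scoped Real Interval ENNReal NNReal

namespace Pool.Agent.N378.RD

abbrev E (d : ℕ) := EuclideanSpace ℝ (Fin (d + 2 + 1))
abbrev S (d : ℕ) := Metric.sphere (0 : E d) 1

/-- surface measure -/
noncomputable def sig (d : ℕ) : Measure (S d) := (volume : Measure (E d)).toSphere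

instance (d : ℕ) : IsFiniteMeasure (sig d) := by unfold sig; infer_instance

/-- surface area of the sphere of one dimension less -/
noncomputable def cd (d : ℕ) : ℝ≥0∞ := (volume : Measure (EuclideanSpace ℝ (Fin (d + 1 + 1)))).toSphere univ

lemma cd_ne_top (d : ℕ) : cd d ≠ ∞ := measure_ne_top _ _

/-- the zonal measure on the line -/
noncomputable def nu (d : ℕ) : Measure ℝ :=
  cd d • ((volume : Measure ℝ).restrict (Icc (-1) 1)).withDensity
    (fun z => ENNReal.ofReal (Real.sqrt (1 - z ^ 2) ^ d))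

lemma lintegral_nu (d : ℕ) (h : ℝ → ℝ≥0∞) (hh : Measurable h) :
    ∫⁻ z, h z ∂(nu d) = cd d * ∫⁻ z in Icc (-1 : ℝ) 1, ENNReal.ofReal (Real.sqrt (1 - z ^ 2) ^ d) * h z := by
  unfold nu
  rw [lintegral_smul_measure, smul_eq_mul]
  congr 1
  rw [lintegral_withDensity_eq_lintegral_mul _ (by fun_prop) hh]
  rfl

lemma zon (d : ℕ) (p : S d) (h : ℝ → ℝ≥0∞) (hh : Measurable h) :
    ∫⁻ x, h (inner ℝ (p : E d) (x : E d)) ∂(sig d) = ∫⁻ z, h z ∂(nu d) := by
  rw [lintegral_nu d h hh]
  exact Pool.Agent.TH331.RZ.zonal_main d p h hh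

lemma meas_inner {d : ℕ} (v : E d) : Measurable (fun x : S d => inner ℝ v (x : E d)) := by
  apply Continuous.measurable
  fun_prop

lemma map_inner (d : ℕ) (p : S d) :
    (sig d).map (fun x : S d => inner ℝ (p : E d) (x : E d)) = nu d := by
  ext s hs
  rw [Measure.map_apply (meas_inner _) hs]
  have h1 := zon d p (s.indicator 1) (measurable_one.indicator hs)
  rw [lintegral_indicator_one hs] at h1
  rw [← h1, ← lintegral_indicator_one (meas_inner _ hs)]
  rfl

instance (d : ℕ) : Nonempty (S d) := ⟨⟨EuclideanSpace.single 0 1, by simp⟩⟩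

instance (d : ℕ) : IsFiniteMeasure (nu d) := by
  obtain ⟨p⟩ : Nonempty (S d) := inferInstance
  rw [← map_inner d p]
  infer_instance

lemma integral_zon {F : Type*} [NormedAddCommGroup F] [NormedSpace ℝ F] (d : ℕ) (p : S d)
    (φ : ℝ → F) (hφ : Continuous φ) :
    ∫ x, φ (inner ℝ (p : E d) (x : E d)) ∂(sig d) = ∫ z, φ z ∂(nu d) := by
  rw [← map_inner d p, integral_map (meas_inner _).aemeasurable]
  exact hφ.aestronglyMeasurable

lemma integral_nu {F : Type*} [NormedAddCommGroup F] [NormedSpace ℝ F] (d : ℕ) (φ : ℝ → F) :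
    ∫ z, φ z ∂(nu d) = (cd d).toReal • ∫ z in (-1 : ℝ)..1, (Real.sqrt (1 - z ^ 2) ^ d) • φ z := by
  unfold nu
  rw [integral_smul_measure, integral_withDensity_eq_integral_toReal_smul (by fun_prop)
    (Eventually.of_forall fun z => ENNReal.ofReal_lt_top),
    intervalIntegral.integral_of_le (by norm_num), ← integral_Icc_eq_integral_Ioc]
  congr 1
  apply integral_congr_ae
  refine Eventually.of_forall fun z => ?_
  simp only
  rw [ENNReal.toReal_ofReal (by positivity)]

lemma nu_supp (d : ℕ) : ∀ᵐ z ∂(nu d), z ∈ Icc (-1 : ℝ) 1 := by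
  obtain ⟨p⟩ : Nonempty (S d) := inferInstance
  rw [← map_inner d p]
  refine (ae_map_iff (meas_inner _).aemeasurable (p := fun z : ℝ => z ∈ Icc (-1 : ℝ) 1)
    measurableSet_Icc).2 ?_
  refine Eventually.of_forall fun x => ?_
  have h1 : |inner ℝ (p : E d) (x : E d)| ≤ ‖(p : E d)‖ * ‖(x : E d)‖ := abs_real_inner_le_norm _ _
  have hp : ‖(p : E d)‖ = 1 := by simp
  have hx : ‖(x : E d)‖ = 1 := by simp
  rw [hp, hx, mul_one] at h1
  exact abs_le.1 h1

/-- real moments -/
lemma mom_real (d k : ℕ) (v : E d) :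
    ∫ x : S d, (inner ℝ v (x : E d)) ^ k ∂(sig d) = ‖v‖ ^ k * ∫ t, t ^ k ∂(nu d) := by
  rcases eq_or_ne v 0 with h | h
  · subst h
    rcases Nat.eq_zero_or_pos k with hk | hk
    · subst hk
      obtain ⟨p⟩ : Nonempty (S d) := inferInstance
      have := integral_zon d p (fun _ => (1 : ℝ)) continuous_const
      simpa using this
    · simp [hk.ne']
  · have hv : ‖v‖ ≠ 0 := norm_ne_zero_iff.2 h
    set p : S d := ⟨‖v‖⁻¹ • v, by simp [norm_smul, h]⟩ with hp
    have h1 := integral_zon d p (fun t => t ^ k) (continuous_pow k)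
    rw [← h1, ← integral_const_mul]
    apply integral_congr_ae
    refine Eventually.of_forall fun x => ?_
    simp only [hp]
    rw [inner_smul_left, ← mul_pow]
    congr 1
    simp only [conj_trivial]
    field_simp

lemma mom_odd (d k : ℕ) (hk : Odd k) : ∫ t, t ^ k ∂(nu d) = 0 := by
  obtain ⟨p⟩ : Nonempty (S d) := inferInstance
  have h1 := mom_real d k (p : E d)
  have h2 := mom_real d k (-(p : E d))
  have hp : ‖(p : E d)‖ = 1 := by simp
  rw [norm_neg, hp, one_pow, one_mul] at h2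
  rw [hp, one_pow, one_mul] at h1
  have h3 : ∫ x : S d, (inner ℝ (-(p : E d)) (x : E d)) ^ k ∂(sig d) =
      -∫ x : S d, (inner ℝ (p : E d) (x : E d)) ^ k ∂(sig d) := by
    rw [← integral_neg]
    apply integral_congr_ae
    refine Eventually.of_forall fun x => ?_
    simp only
    rw [inner_neg_left, hk.neg_pow]
  linarith

/-- the complex square of the length -/
noncomputable def QQ {d : ℕ} (a b : E d) (z : ℂ) : ℂ :=
  ((‖a‖ ^ 2 : ℝ) : ℂ) + 2 * z * ((inner ℝ a b : ℝ) : ℂ) + z ^ 2 * ((‖b‖ ^ 2 : ℝ) : ℂ)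

lemma real_identity {f g : ℂ → ℂ} (hf : Differentiable ℂ f) (hg : Differentiable ℂ g)
    (h : ∀ t : ℝ, f t = g t) : f = g := by
  have hf' : AnalyticOnNhd ℂ f univ := fun z _ => hf.analyticAt z
  have hg' : AnalyticOnNhd ℂ g univ := fun z _ => hg.analyticAt z
  apply hf'.eq_of_frequently_eq hg' (z₀ := 0)
  have h1 : Tendsto (fun t : ℝ => (t : ℂ)) (𝓝[≠] 0) (𝓝[≠] 0) := by
    apply tendsto_nhdsWithin_of_tendsto_nhds_of_eventually_within
    · have : Tendsto (fun t : ℝ => (t : ℂ)) (𝓝 0) (𝓝 ((0 : ℝ) : ℂ)) :=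
        Complex.continuous_ofReal.tendsto 0
      simpa using this.mono_left nhdsWithin_le_nhds
    · filter_upwards [self_mem_nhdsWithin] with t ht
      simpa using ht
  exact h1.frequently (Frequently.of_forall h)

lemma cont_lin {d : ℕ} (a b : E d) (z : ℂ) :
    Continuous (fun x : S d => ((inner ℝ a (x : E d) : ℝ) : ℂ) + z * ((inner ℝ b (x : E d) : ℝ) : ℂ)) := by
  fun_prop

lemma integrable_cont {d : ℕ} {f : S d → ℂ} (hf : Continuous f) : Integrable f (sig d) := by
  have hc : IsCompact (univ : Set (S d)) := isCompact_univ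
  have := hf.continuousOn.integrableOn_compact (μ := sig d) hc
  rwa [integrableOn_univ] at this

/-- complex moments -/
lemma mom (d k : ℕ) (a b : E d) (z s : ℂ) (hs : s ^ 2 = QQ a b z) :
    ∫ x : S d, (((inner ℝ a (x : E d) : ℝ) : ℂ) + z * ((inner ℝ b (x : E d) : ℝ) : ℂ)) ^ k ∂(sig d) =
      s ^ k * ∫ t, ((t : ℝ) : ℂ) ^ k ∂(nu d) := by
  have hmk : ∫ t, ((t : ℝ) : ℂ) ^ k ∂(nu d) = ((∫ t, t ^ k ∂(nu d) : ℝ) : ℂ) := by
    rw [← integral_complex_ofReal]
    simp only [ofReal_pow]
  set f : ℂ → ℂ := fun z => ∫ x : S d,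
    (((inner ℝ a (x : E d) : ℝ) : ℂ) + z * ((inner ℝ b (x : E d) : ℝ) : ℂ)) ^ k ∂(sig d) with hf
  have hfd : Differentiable ℂ f := by
    have h1 : f = fun z => ∑ m ∈ Finset.range (k + 1), z ^ (k - m) * ((k.choose m : ℂ) *
        ∫ x : S d, ((inner ℝ a (x : E d) : ℝ) : ℂ) ^ m * ((inner ℝ b (x : E d) : ℝ) : ℂ) ^ (k - m)
          ∂(sig d)) := by
      funext w
      rw [hf]
      simp only [add_pow]
      rw [integral_finsetSum]
      · apply Finset.sum_congr rfl
        intro m _
        rw [← integral_const_mul, ← integral_const_mul]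
        apply integral_congr_ae
        refine Eventually.of_forall fun x => ?_
        simp only [mul_pow]
        ring
      · intro m _
        apply integrable_cont
        fun_prop
    rw [h1]
    fun_prop
  -- real values
  have hreal : ∀ t : ℝ, f t = ((‖a + t • b‖ ^ k * ∫ t, t ^ k ∂(nu d) : ℝ) : ℂ) := by
    intro t
    rw [← mom_real d k (a + t • b), ← integral_complex_ofReal, hf]
    apply integral_congr_ae
    refine Eventually.of_forall fun x => ?_
    simp only
    rw [inner_add_left, inner_smul_left]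
    push_cast
    simp
  have hQ : ∀ t : ℝ, QQ a b t = ((‖a + t • b‖ ^ 2 : ℝ) : ℂ) := by
    intro t
    have e1 : ‖t • b‖ ^ 2 = t ^ 2 * ‖b‖ ^ 2 := by
      rw [norm_smul, mul_pow, Real.norm_eq_abs, sq_abs]
    rw [norm_add_sq_real, inner_smul_right, e1]
    unfold QQ
    push_cast
    ring
  rcases Nat.even_or_odd k with hk | hk
  · obtain ⟨m, hm⟩ := hk
    have hg : f = fun z => QQ a b z ^ m * ((∫ t, t ^ k ∂(nu d) : ℝ) : ℂ) := by
      apply real_identity hfd
      · unfold QQ
        fun_prop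
      · intro t
        rw [hreal t, hQ t, hm]
        push_cast
        ring
    have h2 : f z = s ^ k * ∫ t, ((t : ℝ) : ℂ) ^ k ∂(nu d) := by
      rw [congrFun hg z, hmk, ← hs, hm]
      ring
    exact h2
  · have h0 := mom_odd d k hk
    have hg : f = fun _ => 0 := by
      apply real_identity hfd (by fun_prop)
      intro t
      rw [hreal t, h0]
      simp
    have h2 : f z = s ^ k * ∫ t, ((t : ℝ) : ℂ) ^ k ∂(nu d) := by
      rw [hg, hmk, h0]
      simp
    exact h2

lemma hasSum_exp {α : Type*} [MeasurableSpace α] (μ : Measure α) [IsFiniteMeasure μ] (f : α → ℂ)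
    (hf : AEStronglyMeasurable f μ) (R : ℝ) (hR : ∀ᵐ x ∂μ, ‖f x‖ ≤ R) :
    HasSum (fun k : ℕ => (∫ x, f x ^ k ∂μ) / (k.factorial : ℂ)) (∫ x, Complex.exp (f x) ∂μ) := by
  have h := hasSum_integral_of_dominated_convergence (μ := μ)
    (F := fun (k : ℕ) x => f x ^ k / (k.factorial : ℂ)) (f := fun x => Complex.exp (f x))
    (fun (k : ℕ) _ => R ^ k / (k.factorial : ℝ))
    (fun k => (hf.pow k).mul_const _) ?_ ?_ ?_ ?_
  · simpa only [integral_div] using h
  · intro k
    filter_upwards [hR] with x hx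
    rw [norm_div, norm_pow, Complex.norm_natCast]
    gcongr
  · exact Eventually.of_forall fun _ => Real.summable_pow_div_factorial R
  · exact integrable_const _
  · refine Eventually.of_forall fun x => ?_
    have := NormedSpace.expSeries_div_hasSum_exp (f x)
    rwa [← Complex.exp_eq_exp_ℂ] at this

/-- **Complex rotation identity.** -/
theorem zon_exp (d : ℕ) (a b : E d) (z s : ℂ) (hs : s ^ 2 = QQ a b z) :
    ∫ x : S d, Complex.exp (((inner ℝ a (x : E d) : ℝ) : ℂ) +
      z * ((inner ℝ b (x : E d) : ℝ) : ℂ)) ∂(sig d) =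
      ∫ t, Complex.exp (s * ((t : ℝ) : ℂ)) ∂(nu d) := by
  have h1 := hasSum_exp (sig d) (fun x : S d => ((inner ℝ a (x : E d) : ℝ) : ℂ) +
      z * ((inner ℝ b (x : E d) : ℝ) : ℂ)) (cont_lin a b z).aestronglyMeasurable
      (‖a‖ + ‖z‖ * ‖b‖) (Eventually.of_forall fun x => by
        have hx : ‖(x : E d)‖ = 1 := by simp
        refine (norm_add_le _ _).trans ?_
        rw [norm_mul, Complex.norm_real, Complex.norm_real]
        have e1 := norm_inner_le_norm (𝕜 := ℝ) a (x : E d)
        have e2 := norm_inner_le_norm (𝕜 := ℝ) b (x : E d)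
        rw [hx, mul_one] at e1 e2
        gcongr)
  have h2 := hasSum_exp (nu d) (fun t : ℝ => s * ((t : ℝ) : ℂ))
    (by fun_prop : Continuous fun t : ℝ => s * ((t : ℝ) : ℂ)).aestronglyMeasurable ‖s‖ (by
      filter_upwards [nu_supp d] with t ht
      rw [norm_mul, Complex.norm_real, Real.norm_eq_abs]
      calc ‖s‖ * |t| ≤ ‖s‖ * 1 := by
            gcongr
            exact abs_le.2 ht
        _ = ‖s‖ := mul_one _)
  refine h1.unique ?_
  convert h2 using 2 with k
  rw [mom d k a b z s hs, ← integral_const_mul]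
  congr 1
  apply integral_congr_ae
  refine Eventually.of_forall fun t => ?_
  simp only [mul_pow]

lemma nu_exp_eq (d : ℕ) (s : ℂ) :
    ∫ t, Complex.exp (s * ((t : ℝ) : ℂ)) ∂(nu d) = (cd d).toReal • IN (d + 1) 1 s := by
  rw [integral_nu]
  congr 1
  have hg : Continuous (fun z : ℝ => (Real.sqrt (1 - z ^ 2) ^ d) • Complex.exp (s * ((z : ℝ) : ℂ))) := by
    fun_prop
  have h := intervalIntegral.integral_deriv_smul_comp (f := Real.cos) (f' := fun x => -Real.sin x)
    (g := fun z : ℝ => (Real.sqrt (1 - z ^ 2) ^ d) • Complex.exp (s * ((z : ℝ) : ℂ)))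
    (a := 0) (b := π) (fun x _ => Real.hasDerivAt_cos x) (by fun_prop) hg
  rw [Real.cos_zero, Real.cos_pi, intervalIntegral.integral_symm (-1) 1] at h
  rw [← neg_inj, ← h]
  unfold IN
  rw [← intervalIntegral.integral_neg]
  apply intervalIntegral.integral_congr
  intro θ hθ
  rw [uIcc_of_le Real.pi_pos.le] at hθ
  have h1 : 0 ≤ Real.sin θ := Real.sin_nonneg_of_nonneg_of_le_pi hθ.1 hθ.2
  have h2 : Real.sqrt (1 - Real.cos θ ^ 2) = Real.sin θ := by
    rw [← Real.sin_sq, Real.sqrt_sq h1]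
  simp only [Function.comp]
  rw [h2]
  unfold pc ec
  simp only [Polynomial.eval_one, Complex.real_smul]
  push_cast
  ring

/-- **Decay of the transform of the zonal measure.** -/
theorem nu_exp_bound (d : ℕ) : ∃ C : ℝ, 0 ≤ C ∧ ∀ s : ℂ,
    ‖∫ t, Complex.exp (s * ((t : ℝ) : ℂ)) ∂(nu d)‖ ≤
      C * Real.exp |s.re| * (1 + ‖s‖) ^ (-(((d : ℝ) + 2) / 2)) := by
  obtain ⟨C, hC, h⟩ := IN_bound (d + 1) 1
  set m : ℝ := ((d : ℝ) + 2) / 2 with hm
  have hm0 : 0 < m := by positivity
  set C1 : ℝ := (cd d).toReal * C + (nu d).real univ with hC1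
  have hC10 : 0 ≤ C1 := by positivity
  refine ⟨C1 * 2 ^ m, by positivity, fun s => ?_⟩
  have h1s : 0 < 1 + ‖s‖ := by positivity
  rcases le_or_gt 1 ‖s‖ with hs | hs
  · have hs0 : 0 < ‖s‖ := by linarith
    rw [nu_exp_eq, norm_smul, Real.norm_eq_abs, abs_of_nonneg ENNReal.toReal_nonneg]
    have h1 := h s hs
    have e1 : (-((((d + 1 : ℕ) : ℝ) + 1) / 2)) = -m := by
      rw [hm]
      push_cast
      ring
    rw [e1] at h1
    have h2 : ‖s‖ ^ (-m) ≤ 2 ^ m * (1 + ‖s‖) ^ (-m) := by
      have h3 : ((1 + ‖s‖) / 2) ^ (-m) = 2 ^ m * (1 + ‖s‖) ^ (-m) := by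
        rw [Real.div_rpow h1s.le (by norm_num), Real.rpow_neg (by norm_num : (0:ℝ) ≤ 2)]
        field_simp
      rw [← h3]
      exact Real.rpow_le_rpow_of_nonpos (by positivity) (by linarith) (by linarith)
    calc (cd d).toReal * ‖IN (d + 1) 1 s‖ ≤ (cd d).toReal * (C * Real.exp |s.re| * ‖s‖ ^ (-m)) := by
          gcongr
      _ ≤ (cd d).toReal * (C * Real.exp |s.re| * (2 ^ m * (1 + ‖s‖) ^ (-m))) := by
          gcongr
      _ = ((cd d).toReal * C) * 2 ^ m * Real.exp |s.re| * (1 + ‖s‖) ^ (-m) := by ring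
      _ ≤ C1 * 2 ^ m * Real.exp |s.re| * (1 + ‖s‖) ^ (-m) := by
          gcongr
          rw [hC1]
          have : 0 ≤ (nu d).real univ := measureReal_nonneg
          linarith
  · have h1 : ‖∫ t, Complex.exp (s * ((t : ℝ) : ℂ)) ∂(nu d)‖ ≤ Real.exp |s.re| * (nu d).real univ := by
      apply norm_integral_le_of_norm_le_const
      filter_upwards [nu_supp d] with t ht
      rw [Complex.norm_exp]
      apply Real.exp_le_exp.2
      rw [Complex.re_mul_ofReal]
      calc s.re * t ≤ |s.re * t| := le_abs_self _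
        _ = |s.re| * |t| := abs_mul _ _
        _ ≤ |s.re| * 1 := by gcongr; exact abs_le.2 ht
        _ = |s.re| := mul_one _
    have h2 : 1 ≤ 2 ^ m * (1 + ‖s‖) ^ (-m) := by
      rw [Real.rpow_neg h1s.le, ← div_eq_mul_inv, one_le_div (by positivity)]
      exact Real.rpow_le_rpow h1s.le (by linarith) hm0.le
    calc _ ≤ Real.exp |s.re| * (nu d).real univ := h1
      _ ≤ Real.exp |s.re| * C1 * (2 ^ m * (1 + ‖s‖) ^ (-m)) := by
          have h3 : (nu d).real univ ≤ C1 := by
            rw [hC1]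
            have : 0 ≤ (cd d).toReal * C := by positivity
            linarith
          calc Real.exp |s.re| * (nu d).real univ ≤ Real.exp |s.re| * C1 * 1 := by
                rw [mul_one]
                gcongr
            _ ≤ _ := by gcongr
      _ = _ := by ring

end Pool.Agent.N378.RD
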