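import Mathlib
import Pool.Agent.N378.RD.Zon

/-! The Fourier transform of a Gaussian cap. -/

set_option autoImplicit false

open MeasureTheory Set Filter Topology Complex
open scoped Real Interval ENNReal NNReal

namespace Pool.Agent.N378.RD

lemma alg_norm (l k c : ℝ) (s : ℂ)
    (hs : s ^ 2 = ((l ^ 2 - k ^ 2 : ℝ) : ℂ) - ((2 * l * c : ℝ) : ℂ) * I) :
    ‖s‖ ^ 4 = (l ^ 2 + k ^ 2) ^ 2 - 4 * l ^ 2 * (k ^ 2 - c ^ 2) := by
  have h1 : ‖s‖ ^ 4 = ‖s ^ 2‖ ^ 2 := by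
    rw [norm_pow]
    ring
  rw [h1, hs, ← Complex.normSq_eq_norm_sq, Complex.normSq_apply]
  simp only [sub_re, ofReal_re, mul_re, I_re, mul_zero, ofReal_im, I_im, sub_im, mul_im, mul_one,
    sub_zero, zero_sub, add_zero]
  ring

lemma alg_re0 (l k c : ℝ) (s : ℂ)
    (hs : s ^ 2 = ((l ^ 2 - k ^ 2 : ℝ) : ℂ) - ((2 * l * c : ℝ) : ℂ) * I) :
    (s ^ 2).re = l ^ 2 - k ^ 2 := by
  rw [hs, sub_re, ofReal_re, mul_re, ofReal_re, ofReal_im, I_re, I_im]
  ring

lemma alg_re_sq (l k c : ℝ) (s : ℂ)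
    (hs : s ^ 2 = ((l ^ 2 - k ^ 2 : ℝ) : ℂ) - ((2 * l * c : ℝ) : ℂ) * I) :
    2 * s.re ^ 2 = ‖s‖ ^ 2 + (l ^ 2 - k ^ 2) := by
  have h1 := alg_re0 l k c s hs
  rw [← Complex.normSq_eq_norm_sq, Complex.normSq_apply, ← h1, sq s, mul_re]
  ring

lemma alg_re (l k c : ℝ) (hl : 0 < l) (hc : c ^ 2 ≤ k ^ 2) (s : ℂ)
    (hs : s ^ 2 = ((l ^ 2 - k ^ 2 : ℝ) : ℂ) - ((2 * l * c : ℝ) : ℂ) * I) :
    |s.re| ≤ l - l * (k ^ 2 - c ^ 2) / (2 * (l ^ 2 + k ^ 2)) := by
  set X := l ^ 2 + k ^ 2 with hX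
  set P := k ^ 2 - c ^ 2 with hP
  have hX0 : 0 < X := by positivity
  have hP0 : 0 ≤ P := by linarith
  have hPX : P ≤ X := by
    have : 0 ≤ c ^ 2 := sq_nonneg c
    have : 0 ≤ l ^ 2 := sq_nonneg l
    linarith
  set u := P / X with hu
  have hu0 : 0 ≤ u := div_nonneg hP0 hX0.le
  have hu1 : u ≤ 1 := (div_le_one hX0).2 hPX
  have hPu : P = u * X := by rw [hu]; field_simp
  have h4 := alg_norm l k c s hs
  rw [← hX, ← hP, hPu] at h4
  have hr := alg_re_sq l k c s hs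
  -- the norm
  have hn : ‖s‖ ^ 2 ≤ X - 2 * l ^ 2 * u := by
    have h0 : 0 ≤ X - 2 * l ^ 2 * u := by
      have e1 : l ^ 2 * P ≤ l ^ 2 * k ^ 2 := by
        have : P ≤ k ^ 2 := by have := sq_nonneg c; linarith
        exact mul_le_mul_of_nonneg_left this (sq_nonneg l)
      have e2 : 2 * (l ^ 2 * k ^ 2) ≤ X ^ 2 := by
        rw [hX]
        nlinarith [sq_nonneg (l ^ 2), sq_nonneg (k ^ 2)]
      have e3 : (X - 2 * l ^ 2 * u) * X = X ^ 2 - 2 * (l ^ 2 * P) := by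
        rw [hPu]
        ring
      have e4 : 0 ≤ (X - 2 * l ^ 2 * u) * X := by
        rw [e3]
        linarith
      exact nonneg_of_mul_nonneg_left e4 hX0
    apply le_of_sq_le_sq _ h0
    have e5 : (‖s‖ ^ 2) ^ 2 = ‖s‖ ^ 4 := by ring
    rw [e5, h4]
    nlinarith [sq_nonneg (l ^ 2 * u)]
  have hre : s.re ^ 2 ≤ l ^ 2 * (1 - u) := by
    have : X = l ^ 2 + k ^ 2 := hX
    nlinarith
  have e6 : l - l * P / (2 * X) = l * (1 - u / 2) := by
    rw [hu]
    field_simp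
  rw [e6]
  apply abs_le_of_sq_le_sq _ (by
    apply mul_nonneg hl.le
    linarith)
  nlinarith [mul_nonneg (sq_nonneg l) (sq_nonneg u)]

lemma alg_low (l k c : ℝ) (hl : 0 < l) (hk : 0 ≤ k) (hc : c ^ 2 ≤ k ^ 2) (s : ℂ)
    (hs : s ^ 2 = ((l ^ 2 - k ^ 2 : ℝ) : ℂ) - ((2 * l * c : ℝ) : ℂ) * I) :
    (l + k) / 2 ≤ ‖s‖ ∨ (k ≤ 2 * l ∧ 1 / 8 < (k ^ 2 - c ^ 2) / (l ^ 2 + k ^ 2)) := by
  set X := l ^ 2 + k ^ 2 with hX
  set P := k ^ 2 - c ^ 2 with hP
  have hX0 : 0 < X := by positivity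
  have hP0 : 0 ≤ P := by linarith
  rcases le_or_gt (P / X) (1 / 8) with h | h
  · left
    have h4 := alg_norm l k c s hs
    rw [← hX, ← hP] at h4
    rw [div_le_iff₀ hX0] at h
    have e1 : X ^ 2 / 2 ≤ ‖s‖ ^ 4 := by
      rw [h4]
      have : l ^ 2 * P ≤ X * (1 / 8 * X) := by
        apply mul_le_mul _ h hP0 hX0.le
        rw [hX]
        linarith [sq_nonneg k]
      nlinarith
    have e2 : ((l + k) / 2) ^ 4 ≤ ‖s‖ ^ 4 := by
      refine le_trans ?_ e1
      have : (l + k) ^ 2 ≤ 2 * X := by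
        rw [hX]
        nlinarith [sq_nonneg (l - k)]
      have h3 : ((l + k) ^ 2) ^ 2 ≤ (2 * X) ^ 2 := pow_le_pow_left₀ (sq_nonneg _) this 2
      have h5 : ((l + k) / 2) ^ 4 = ((l + k) ^ 2) ^ 2 / 16 := by ring
      rw [h5]
      nlinarith [sq_nonneg X]
    exact le_of_pow_le_pow_left₀ (by norm_num) (norm_nonneg _) e2
  · rcases le_or_gt k (2 * l) with hkl | hkl
    · right
      exact ⟨hkl, h⟩
    · left
      have h1 : k ^ 2 - l ^ 2 ≤ ‖s‖ ^ 2 := by
        have h2 := alg_re0 l k c s hs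
        have h3 : |(s ^ 2).re| ≤ ‖s ^ 2‖ := Complex.abs_re_le_norm _
        rw [h2, norm_pow] at h3
        have := neg_abs_le (l ^ 2 - k ^ 2)
        linarith
      have h2 : ((l + k) / 2) ^ 2 ≤ ‖s‖ ^ 2 := by
        refine le_trans ?_ h1
        nlinarith
      exact le_of_pow_le_pow_left₀ (by norm_num) (norm_nonneg _) h2

/-- the Fourier transform of the cap `exp(-l (1 - x·y))` at the frequency `κ` -/
noncomputable def Z {d : ℕ} (l : ℝ) (y : S d) (κ : E d) : ℂ :=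
  ∫ x : S d, ((Real.exp (-(l * (1 - inner ℝ (y : E d) (x : E d)))) : ℝ) : ℂ) *
    Complex.exp (-(((inner ℝ κ (x : E d) : ℝ) : ℂ) * I)) ∂(sig d)

lemma Z_eq {d : ℕ} (l : ℝ) (y : S d) (κ : E d) (s : ℂ) (hs : s ^ 2 = QQ (l • (y : E d)) κ (-I)) :
    Z l y κ = ((Real.exp (-l) : ℝ) : ℂ) * ∫ t, Complex.exp (s * ((t : ℝ) : ℂ)) ∂(nu d) := by
  rw [← zon_exp d (l • (y : E d)) κ (-I) s hs, ← integral_const_mul]
  unfold Z
  apply integral_congr_ae
  refine Eventually.of_forall fun x => ?_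
  simp only
  rw [Complex.ofReal_exp, Complex.ofReal_exp, ← Complex.exp_add, ← Complex.exp_add]
  congr 1
  rw [inner_smul_left]
  push_cast
  simp only [conj_trivial]
  ring

lemma QQ_eq {d : ℕ} (l : ℝ) (y : S d) (κ : E d) :
    QQ (l • (y : E d)) κ (-I) = ((l ^ 2 - ‖κ‖ ^ 2 : ℝ) : ℂ) -
      ((2 * l * inner ℝ (y : E d) κ : ℝ) : ℂ) * I := by
  unfold QQ
  have hy : ‖(y : E d)‖ = 1 := by simp
  have e1 : ‖l • (y : E d)‖ ^ 2 = l ^ 2 := by
    rw [norm_smul, hy, mul_one, Real.norm_eq_abs, sq_abs]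
  rw [e1, inner_smul_left]
  simp only [conj_trivial]
  push_cast
  have : I ^ 2 = -1 := I_sq
  linear_combination (‖κ‖ : ℂ) ^ 2 * this

/-- **The bound for the Fourier transform of a Gaussian cap.** -/
theorem Z_bound (d : ℕ) : ∃ C : ℝ, 0 < C ∧ ∀ (l : ℝ), 0 < l → ∀ (y : S d) (κ : E d),
    ‖Z l y κ‖ ^ 2 ≤ C / (l + ‖κ‖) ^ (d + 2) *
      Real.exp (-(l * (‖κ‖ ^ 2 - (inner ℝ (y : E d) κ) ^ 2) / (2 * (l ^ 2 + ‖κ‖ ^ 2)))) := by
  obtain ⟨C, hC, h⟩ := nu_exp_bound d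
  set N := d + 2 with hN
  refine ⟨C ^ 2 * (2 ^ N + 48 ^ N * N.factorial) + 1, by positivity, fun l hl y κ => ?_⟩
  set k := ‖κ‖ with hk
  have hk0 : 0 ≤ k := norm_nonneg κ
  set c := inner ℝ (y : E d) κ with hc
  have hcs : c ^ 2 ≤ k ^ 2 := by
    have h1 := abs_real_inner_le_norm (y : E d) κ
    have hy : ‖(y : E d)‖ = 1 := by simp
    rw [hy, one_mul, ← hc, ← hk] at h1
    exact sq_le_sq' (abs_le.1 h1).1 (abs_le.1 h1).2
  obtain ⟨s, hs⟩ : ∃ s : ℂ, s ^ 2 = QQ (l • (y : E d)) κ (-I) :=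
    IsAlgClosed.exists_pow_nat_eq _ (by norm_num)
  have hs' := hs
  rw [QQ_eq, ← hk, ← hc] at hs'
  set X := l ^ 2 + k ^ 2 with hX
  set P := k ^ 2 - c ^ 2 with hP
  have hX0 : 0 < X := by positivity
  have hP0 : 0 ≤ P := by linarith
  have hlk : 0 < l + k := by linarith
  have hre := alg_re l k c hl hcs s hs'
  rw [← hX, ← hP] at hre
  have hlow := alg_low l k c hl hk0 hcs s hs'
  rw [← hX, ← hP] at hlow
  have hn : ‖Z l y κ‖ ≤ C * (Real.exp (-(l * P / (2 * X))) * (1 + ‖s‖) ^ (-(((d : ℝ) + 2) / 2))) := by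
    rw [Z_eq l y κ s hs, norm_mul, Complex.norm_real, Real.norm_eq_abs, abs_of_pos (Real.exp_pos _)]
    calc Real.exp (-l) * ‖∫ t, Complex.exp (s * ((t : ℝ) : ℂ)) ∂(nu d)‖
        ≤ Real.exp (-l) * (C * Real.exp |s.re| * (1 + ‖s‖) ^ (-(((d : ℝ) + 2) / 2))) := by
          gcongr
          exact h s
      _ = C * (Real.exp (-l + |s.re|) * (1 + ‖s‖) ^ (-(((d : ℝ) + 2) / 2))) := by
          rw [Real.exp_add]
          ring
      _ ≤ _ := by
          gcongr
          linarith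
  have h1s : 0 < 1 + ‖s‖ := by positivity
  have hsq : ‖Z l y κ‖ ^ 2 ≤ C ^ 2 * (Real.exp (-(l * P / X)) * (1 / (1 + ‖s‖) ^ N)) := by
    calc ‖Z l y κ‖ ^ 2 ≤ (C * (Real.exp (-(l * P / (2 * X))) * (1 + ‖s‖) ^ (-(((d : ℝ) + 2) / 2)))) ^ 2 :=
          pow_le_pow_left₀ (norm_nonneg _) hn 2
      _ = C ^ 2 * (Real.exp (-(l * P / (2 * X))) ^ 2 * ((1 + ‖s‖) ^ (-(((d : ℝ) + 2) / 2))) ^ 2) := by
          ring
      _ = _ := by
          congr 2
          · rw [← Real.exp_nat_mul]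
            congr 1
            field_simp
            push_cast
            ring
          · rw [← Real.rpow_natCast, ← Real.rpow_mul h1s.le, one_div, ← Real.rpow_natCast,
              ← Real.rpow_neg h1s.le]
            congr 1
            rw [hN]
            push_cast
            ring
  have hexp : Real.exp (-(l * P / X)) = Real.exp (-(l * P / (2 * X))) * Real.exp (-(l * P / (2 * X))) := by
    rw [← Real.exp_add]
    congr 1
    field_simp
    ring
  set e := Real.exp (-(l * P / (2 * X))) with he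
  have he0 : 0 < e := Real.exp_pos _
  have he1 : e ≤ 1 := by
    rw [he, Real.exp_le_one_iff]
    have : 0 ≤ l * P / (2 * X) := by positivity
    linarith
  have key : Real.exp (-(l * P / X)) * (1 / (1 + ‖s‖) ^ N) ≤
      (2 ^ N + 48 ^ N * N.factorial) / (l + k) ^ N * e := by
    rw [hexp]
    rcases hlow with hA | ⟨hB1, hB2⟩
    · have h1 : 1 / (1 + ‖s‖) ^ N ≤ 2 ^ N / (l + k) ^ N := by
        have h2 : ((l + k) / 2) ^ N ≤ (1 + ‖s‖) ^ N :=
          pow_le_pow_left₀ (by positivity) (by linarith) N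
        calc 1 / (1 + ‖s‖) ^ N ≤ 1 / ((l + k) / 2) ^ N :=
              one_div_le_one_div_of_le (by positivity) h2
          _ = 2 ^ N / (l + k) ^ N := by
              rw [div_pow]
              field_simp
      calc e * e * (1 / (1 + ‖s‖) ^ N) ≤ e * 1 * (2 ^ N / (l + k) ^ N) := by gcongr
        _ = 2 ^ N / (l + k) ^ N * e := by ring
        _ ≤ _ := by
            gcongr
            have : (0 : ℝ) ≤ 48 ^ N * N.factorial := by positivity
            linarith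
    · have h1 : e ≤ Real.exp (-(l / 16)) := by
        rw [he]
        apply Real.exp_le_exp.2
        have h3 : l * P / (2 * X) = l / 2 * (P / X) := by field_simp
        rw [h3]
        nlinarith
      have h2 : (l / 16) ^ N / N.factorial ≤ Real.exp (l / 16) :=
        Real.pow_div_factorial_le_exp _ (by positivity) N
      have h3 : Real.exp (-(l / 16)) ≤ 48 ^ N * N.factorial / (l + k) ^ N := by
        rw [Real.exp_neg, inv_le_comm₀ (Real.exp_pos _) (by positivity)]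
        refine le_trans ?_ h2
        have h4 : (l + k) ^ N ≤ (3 * l) ^ N := pow_le_pow_left₀ hlk.le (by linarith) N
        have h5 : (0 : ℝ) < N.factorial := by positivity
        rw [inv_div, div_pow, div_div, div_le_div_iff₀ (by positivity) (by positivity)]
        calc (l + k) ^ N * (16 ^ N * N.factorial) ≤ (3 * l) ^ N * (16 ^ N * N.factorial) := by
              gcongr
          _ = l ^ N * (48 ^ N * N.factorial) := by
              rw [show (48 : ℝ) = 3 * 16 by norm_num, mul_pow, mul_pow]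
              ring
      have h6 : 1 / (1 + ‖s‖) ^ N ≤ 1 := by
        rw [div_le_one (by positivity)]
        exact one_le_pow₀ (by linarith [norm_nonneg s])
      calc e * e * (1 / (1 + ‖s‖) ^ N) ≤ e * (48 ^ N * N.factorial / (l + k) ^ N) * 1 := by
            gcongr
            exact h1.trans h3
        _ = 48 ^ N * N.factorial / (l + k) ^ N * e := by ring
        _ ≤ _ := by
            gcongr
            have : (0 : ℝ) ≤ 2 ^ N := by positivity
            linarith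
  calc ‖Z l y κ‖ ^ 2 ≤ C ^ 2 * ((2 ^ N + 48 ^ N * N.factorial) / (l + k) ^ N * e) := by
        refine hsq.trans ?_
        gcongr
    _ = C ^ 2 * (2 ^ N + 48 ^ N * N.factorial) / (l + k) ^ N * e := by ring
    _ ≤ _ := by
        gcongr
        linarith

end Pool.Agent.N378.RD
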