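import Mathlib
import Pool.Agent.N378.RD.Zb

/-! Integrals of the weights. -/

set_option autoImplicit false

open MeasureTheory Set Filter Topology
open scoped Real Interval ENNReal NNReal

namespace Pool.Agent.N378.RD

/-- `x^θ ≤ C e^x` -/
lemma rpow_le_exp (θ : ℝ) (hθ : 0 ≤ θ) : ∃ C : ℝ, 0 < C ∧ ∀ x : ℝ, 0 < x →
    Real.exp (-x) ≤ C * x ^ (-θ) := by
  obtain ⟨n, hn⟩ := exists_nat_ge θ
  refine ⟨1 + n.factorial, by positivity, fun x hx => ?_⟩
  rw [Real.rpow_neg hx.le, Real.exp_neg, inv_le_comm₀ (Real.exp_pos _) (by positivity), mul_inv, inv_inv,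
    inv_mul_le_iff₀ (by positivity)]
  have h1 : x ^ n / n.factorial ≤ Real.exp x := Real.pow_div_factorial_le_exp x hx.le n
  have h2 : 1 ≤ Real.exp x := Real.one_le_exp hx.le
  have h3 : (0 : ℝ) < n.factorial := by positivity
  rw [div_le_iff₀ h3] at h1
  have h4 : x ^ θ ≤ 1 + x ^ n := by
    rcases le_or_gt x 1 with h | h
    · have : x ^ θ ≤ 1 := Real.rpow_le_one hx.le h hθ
      have : 0 ≤ x ^ n := by positivity
      linarith
    · have : x ^ θ ≤ x ^ (n : ℝ) := Real.rpow_le_rpow_of_exponent_le h.le hn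
      rw [Real.rpow_natCast] at this
      linarith
  nlinarith

/-- **Zonal integral of a Gaussian of the distance to a line.** -/
lemma zgauss (d : ℕ) (θ : ℝ) (hθ : 0 ≤ θ) (hθd : θ < ((d : ℝ) + 2) / 2) :
    ∃ C : ℝ, 0 < C ∧ ∀ B : ℝ, 0 < B →
      ∫⁻ t, ENNReal.ofReal (Real.exp (-(B * (1 - t ^ 2)))) ∂(nu d) ≤ ENNReal.ofReal (C * B ^ (-θ)) := by
  obtain ⟨C, hC, h⟩ := rpow_le_exp θ hθ
  have hα : 0 < (d : ℝ) / 2 - θ + 1 := by linarith
  have hb := Pool.Agent.TH331.RZ.J231.beta_lintegral hα hα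
  set D : ℝ := 2 ^ ((d : ℝ) / 2 - θ + 1 + ((d : ℝ) / 2 - θ + 1) - 1) *
    ProbabilityTheory.beta ((d : ℝ) / 2 - θ + 1) ((d : ℝ) / 2 - θ + 1) with hD
  have hD0 : 0 < D := mul_pos (by positivity) (ProbabilityTheory.beta_pos hα hα)
  refine ⟨((cd d).toReal + 1) * (C * D), by positivity, fun B hB => ?_⟩
  rw [lintegral_nu d _ (by fun_prop)]
  have h1 : ∫⁻ z in Icc (-1 : ℝ) 1, ENNReal.ofReal (Real.sqrt (1 - z ^ 2) ^ d) *
      ENNReal.ofReal (Real.exp (-(B * (1 - z ^ 2)))) ≤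
      ∫⁻ z in Icc (-1 : ℝ) 1, ENNReal.ofReal (C * B ^ (-θ)) *
        ENNReal.ofReal ((1 - z) ^ ((d : ℝ) / 2 - θ + 1 - 1) * (1 + z) ^ ((d : ℝ) / 2 - θ + 1 - 1)) := by
    rw [← setLIntegral_congr (Ioo_ae_eq_Icc (a := (-1:ℝ)) (b := 1)),
      ← setLIntegral_congr (Ioo_ae_eq_Icc (a := (-1:ℝ)) (b := 1))]
    apply setLIntegral_mono' measurableSet_Ioo
    intro z hz
    have hz1 : 0 < 1 - z := by linarith [hz.2]
    have hz2 : 0 < 1 + z := by linarith [hz.1]
    have hz3 : 1 - z ^ 2 = (1 - z) * (1 + z) := by ring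
    have hz4 : 0 < 1 - z ^ 2 := by rw [hz3]; positivity
    rw [← ENNReal.ofReal_mul (by positivity), ← ENNReal.ofReal_mul (by positivity)]
    apply ENNReal.ofReal_le_ofReal
    calc Real.sqrt (1 - z ^ 2) ^ d * Real.exp (-(B * (1 - z ^ 2)))
        ≤ Real.sqrt (1 - z ^ 2) ^ d * (C * (B * (1 - z ^ 2)) ^ (-θ)) := by
          gcongr
          exact h _ (by positivity)
      _ = _ := by
          rw [Pool.Agent.TH331.RZ.J231.sqrt_pow_eq hz, Real.mul_rpow hB.le hz4.le, hz3,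
            Real.mul_rpow hz1.le hz2.le]
          have e1 : (d : ℝ) / 2 - θ + 1 - 1 = (d : ℝ) / 2 + (-θ) := by ring
          rw [e1, Real.rpow_add hz1, Real.rpow_add hz2]
          ring
  calc cd d * ∫⁻ z in Icc (-1 : ℝ) 1, ENNReal.ofReal (Real.sqrt (1 - z ^ 2) ^ d) *
      ENNReal.ofReal (Real.exp (-(B * (1 - z ^ 2))))
      ≤ cd d * (ENNReal.ofReal (C * B ^ (-θ)) * ENNReal.ofReal D) := by
        gcongr
        refine h1.trans ?_
        rw [lintegral_const_mul _ (by fun_prop), hb]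
    _ ≤ ENNReal.ofReal ((cd d).toReal + 1) * (ENNReal.ofReal (C * B ^ (-θ)) * ENNReal.ofReal D) := by
        gcongr
        rw [ENNReal.le_ofReal_iff_toReal_le (cd_ne_top d) (by positivity)]
        linarith
    _ = _ := by
        rw [← ENNReal.ofReal_mul (by positivity), ← ENNReal.ofReal_mul (by positivity)]
        congr 1
        ring

/-- the scale `l_j = 2·4^j` -/
noncomputable def lj (j : ℕ) : ℝ := 2 * 4 ^ j

lemma lj_pos (j : ℕ) : 0 < lj j := by unfold lj; positivity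

/-- the exponent -/
noncomputable def ee {d : ℕ} (l : ℝ) (y : S d) (κ : E d) : ℝ :=
  Real.exp (-(l * (‖κ‖ ^ 2 - (inner ℝ (y : E d) κ) ^ 2) / (2 * (l ^ 2 + ‖κ‖ ^ 2))))

/-- the weight at scale `j` -/
noncomputable def wj {d : ℕ} (j : ℕ) (y : S d) (κ : E d) : ℝ≥0∞ :=
  ENNReal.ofReal (2 ^ (j * (d + 2)) / (lj j + ‖κ‖) ^ (d + 2) * ee (lj j) y κ)

/-- the sum of the weights -/
noncomputable def WW {d : ℕ} (y : S d) (κ : E d) : ℝ≥0∞ := ∑' j, wj j y κ

lemma ee_le_one {d : ℕ} (l : ℝ) (hl : 0 < l) (y : S d) (κ : E d) : ee l y κ ≤ 1 := by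
  unfold ee
  rw [Real.exp_le_one_iff]
  have hcs : (inner ℝ (y : E d) κ) ^ 2 ≤ ‖κ‖ ^ 2 := by
    have h1 := abs_real_inner_le_norm (y : E d) κ
    have hy : ‖(y : E d)‖ = 1 := by simp
    rw [hy, one_mul] at h1
    exact sq_le_sq' (abs_le.1 h1).1 (abs_le.1 h1).2
  have : 0 ≤ l * (‖κ‖ ^ 2 - (inner ℝ (y : E d) κ) ^ 2) / (2 * (l ^ 2 + ‖κ‖ ^ 2)) := by
    apply div_nonneg
    · apply mul_nonneg hl.le
      linarith
    · positivity
  linarith

lemma wj_meas {d : ℕ} (j : ℕ) : Measurable (fun q : S d × E d => wj j q.1 q.2) := by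
  unfold wj ee
  apply ENNReal.measurable_ofReal.comp
  have h1 : Measurable (fun q : S d × E d => inner ℝ (q.1 : E d) q.2) := by
    apply Continuous.measurable
    fun_prop
  fun_prop

lemma WW_meas {d : ℕ} : Measurable (fun q : S d × E d => WW q.1 q.2) := by
  unfold WW
  exact Measurable.tsum fun j => wj_meas j

lemma wj_meas_left {d : ℕ} (j : ℕ) (κ : E d) : Measurable (fun y : S d => wj j y κ) := by
  have h : Measurable (fun y : S d => ((y, κ) : S d × E d)) := measurable_prodMk_right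
  have h2 := (wj_meas j).comp h
  exact h2

lemma WW_meas_left {d : ℕ} (κ : E d) : Measurable (fun y : S d => WW y κ) := by
  have h : Measurable (fun y : S d => ((y, κ) : S d × E d)) := measurable_prodMk_right
  have h2 := WW_meas.comp h
  exact h2

lemma int_ee (d : ℕ) (θ : ℝ) (hθ : 0 ≤ θ) (hθd : θ < ((d : ℝ) + 2) / 2) :
    ∃ C : ℝ, 0 < C ∧ ∀ (l : ℝ), 0 < l → ∀ κ : E d, κ ≠ 0 →
      ∫⁻ y, ENNReal.ofReal (ee l y κ) ∂(sig d) ≤
        ENNReal.ofReal (C * (l * ‖κ‖ ^ 2 / (2 * (l ^ 2 + ‖κ‖ ^ 2))) ^ (-θ)) := by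
  obtain ⟨C, hC, h⟩ := zgauss d θ hθ hθd
  refine ⟨C, hC, fun l hl κ hκ => ?_⟩
  have hk : 0 < ‖κ‖ := norm_pos_iff.2 hκ
  set p : S d := ⟨‖κ‖⁻¹ • κ, by simp [norm_smul, hκ]⟩ with hp
  have hB : 0 < l * ‖κ‖ ^ 2 / (2 * (l ^ 2 + ‖κ‖ ^ 2)) := by positivity
  refine le_trans (le_of_eq ?_) (h _ hB)
  rw [← zon d p _ (by fun_prop)]
  apply lintegral_congr
  intro y
  unfold ee
  congr 3
  have e1 : inner ℝ (p : E d) (y : E d) = ‖κ‖⁻¹ * inner ℝ (y : E d) κ := by
    simp only [hp]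
    rw [inner_smul_left, real_inner_comm]
    simp
  rw [e1]
  field_simp

lemma wj_int (d : ℕ) (θ : ℝ) (hθ : 0 ≤ θ) (hθd : θ < ((d : ℝ) + 2) / 2) :
    ∃ C : ℝ, 0 < C ∧ ∀ (j : ℕ) (κ : E d),
      ∫⁻ y, wj j y κ ∂(sig d) ≤
        ENNReal.ofReal (C * ((2 : ℝ) ^ (-((d : ℝ) + 2 - 2 * θ))) ^ j * (1 + ‖κ‖) ^ (-(2 * θ))) := by
  obtain ⟨C, hC, h⟩ := int_ee d θ hθ hθd
  set A : ℝ := (sig d).real univ with hA
  have hA0 : 0 ≤ A := measureReal_nonneg
  refine ⟨2 ^ (2 * θ) * (2 ^ θ * C + A), by positivity, fun j κ => ?_⟩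
  set N : ℕ := d + 2 with hN
  have hNr : ((d : ℝ) + 2) = (N : ℝ) := by rw [hN]; push_cast; ring
  set l := lj j with hl
  have hl0 : 0 < l := lj_pos j
  set k := ‖κ‖ with hk
  have hk0 : 0 ≤ k := norm_nonneg κ
  have hlk : 0 < l + k := by linarith
  have h4j : (4 : ℝ) ^ j ≤ l := by
    rw [hl]
    unfold lj
    have : (0 : ℝ) < 4 ^ j := by positivity
    linarith
  have h4 : (0 : ℝ) < 4 ^ j := by positivity
  -- the integral
  have e0 : ∫⁻ y, wj j y κ ∂(sig d) = ENNReal.ofReal (2 ^ (j * N) / (l + k) ^ N) *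
      ∫⁻ y, ENNReal.ofReal (ee l y κ) ∂(sig d) := by
    rw [← lintegral_const_mul]
    · apply lintegral_congr
      intro y
      unfold wj
      rw [ENNReal.ofReal_mul (by positivity)]
    · unfold ee
      apply ENNReal.measurable_ofReal.comp
      have h1 : Measurable (fun y : S d => inner ℝ (y : E d) κ) := by
        apply Continuous.measurable
        fun_prop
      fun_prop
  rw [e0]
  have hpow : (2 : ℝ) ^ (j * N) / (4 ^ j) ^ N = ((2 : ℝ) ^ (-(N : ℝ))) ^ j := by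
    rw [Real.rpow_neg (by norm_num), Real.rpow_natCast, inv_pow, ← pow_mul, ← pow_mul]
    rw [show (4 : ℝ) = 2 ^ 2 by norm_num, ← pow_mul, div_eq_iff (by positivity)]
    have e : (2 : ℝ) ^ (2 * (j * N)) = 2 ^ (N * j) * 2 ^ (j * N) := by
      rw [← pow_add]
      congr 1
      ring
    rw [e]
    field_simp
  rcases le_or_gt k 1 with hk1 | hk1
  · -- small frequencies
    have h1 : ∫⁻ y, ENNReal.ofReal (ee l y κ) ∂(sig d) ≤ ENNReal.ofReal A := by
      calc ∫⁻ y, ENNReal.ofReal (ee l y κ) ∂(sig d) ≤ ∫⁻ y, 1 ∂(sig d) := by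
            apply lintegral_mono
            intro y
            simp only
            rw [← ENNReal.ofReal_one]
            exact ENNReal.ofReal_le_ofReal (ee_le_one l hl0 y κ)
        _ = ENNReal.ofReal A := by
            rw [lintegral_one, hA, ofReal_measureReal]
    refine (mul_le_mul_right h1 _).trans ?_
    rw [← ENNReal.ofReal_mul (by positivity)]
    apply ENNReal.ofReal_le_ofReal
    have h2 : (2 : ℝ) ^ (j * N) / (l + k) ^ N ≤ ((2 : ℝ) ^ (-((d : ℝ) + 2 - 2 * θ))) ^ j := by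
      calc (2 : ℝ) ^ (j * N) / (l + k) ^ N ≤ 2 ^ (j * N) / (4 ^ j) ^ N := by
            gcongr
            linarith
        _ = ((2 : ℝ) ^ (-(N : ℝ))) ^ j := hpow
        _ ≤ _ := by
            apply pow_le_pow_left₀ (by positivity)
            apply Real.rpow_le_rpow_of_exponent_le (by norm_num)
            rw [hNr]
            linarith
    have h3 : 1 ≤ 2 ^ (2 * θ) * (1 + k) ^ (-(2 * θ)) := by
      rw [Real.rpow_neg (by positivity), ← div_eq_mul_inv, one_le_div (by positivity)]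
      exact Real.rpow_le_rpow (by positivity) (by linarith) (by positivity)
    calc (2 : ℝ) ^ (j * N) / (l + k) ^ N * A ≤ ((2 : ℝ) ^ (-((d : ℝ) + 2 - 2 * θ))) ^ j *
          (2 ^ θ * C + A) * 1 := by
          rw [mul_one]
          gcongr
          have : 0 < 2 ^ θ * C := by positivity
          linarith
      _ ≤ ((2 : ℝ) ^ (-((d : ℝ) + 2 - 2 * θ))) ^ j *
          (2 ^ θ * C + A) * (2 ^ (2 * θ) * (1 + k) ^ (-(2 * θ))) := by
          gcongr
      _ = _ := by ring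
  · -- large frequencies
    have hκ : κ ≠ 0 := by
      rintro rfl
      simp [hk] at hk1
      linarith
    have h1 := h l hl0 κ hκ
    rw [← hk] at h1
    refine (mul_le_mul_right h1 _).trans ?_
    rw [← ENNReal.ofReal_mul (by positivity)]
    apply ENNReal.ofReal_le_ofReal
    have hk00 : 0 < k := by linarith
    have h2 : (l * k ^ 2 / (2 * (l ^ 2 + k ^ 2))) ^ (-θ) ≤
        2 ^ θ * ((l + k) ^ (2 * θ) * (l ^ (-θ) * k ^ (-(2 * θ)))) := by
      have h3 : l * k ^ 2 / (2 * (l + k) ^ 2) ≤ l * k ^ 2 / (2 * (l ^ 2 + k ^ 2)) := by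
        gcongr
        nlinarith
      calc (l * k ^ 2 / (2 * (l ^ 2 + k ^ 2))) ^ (-θ) ≤ (l * k ^ 2 / (2 * (l + k) ^ 2)) ^ (-θ) :=
            Real.rpow_le_rpow_of_nonpos (by positivity) h3 (by linarith)
        _ = _ := by
            rw [Real.div_rpow (by positivity) (by positivity), Real.mul_rpow (by positivity) (by positivity),
              Real.mul_rpow (by positivity) (by positivity)]
            rw [← Real.rpow_natCast, ← Real.rpow_natCast, ← Real.rpow_mul (by positivity),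
              ← Real.rpow_mul (by positivity), Real.rpow_neg (by norm_num : (0:ℝ) ≤ 2)]
            rw [show ((2 : ℕ) : ℝ) * -θ = -(2 * θ) by push_cast; ring, Real.rpow_neg hlk.le]
            field_simp
    have h5 : (l + k) ^ (2 * θ) / (l + k) ^ N ≤ l ^ (2 * θ) / l ^ N := by
      rw [← Real.rpow_natCast (l + k) N, ← Real.rpow_natCast l N, ← Real.rpow_sub hlk, ← Real.rpow_sub hl0]
      apply Real.rpow_le_rpow_of_nonpos hl0 (by linarith)
      rw [← hNr]
      linarith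
    have h6 : (2 : ℝ) ^ (j * N) * (l ^ (2 * θ) / l ^ N * l ^ (-θ)) ≤
        ((2 : ℝ) ^ (-((d : ℝ) + 2 - 2 * θ))) ^ j := by
      have h7 : l ^ (2 * θ) / l ^ N * l ^ (-θ) = l ^ (θ - N) := by
        rw [← Real.rpow_natCast l N, ← Real.rpow_sub hl0, ← Real.rpow_add hl0]
        congr 1
        ring
      have h8 : l ^ (θ - N) ≤ (4 ^ j : ℝ) ^ (θ - N) := by
        apply Real.rpow_le_rpow_of_nonpos h4 h4j
        rw [← hNr]
        linarith
      rw [h7]
      calc (2 : ℝ) ^ (j * N) * l ^ (θ - N) ≤ 2 ^ (j * N) * (4 ^ j : ℝ) ^ (θ - N) := by gcongr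
        _ = _ := by
            rw [hNr, ← Real.rpow_natCast 2 (j * N), ← Real.rpow_natCast 4 j,
              ← Real.rpow_natCast _ j, show (4 : ℝ) = 2 ^ (2 : ℝ) by norm_num,
              ← Real.rpow_mul (by norm_num), ← Real.rpow_mul (by norm_num),
              ← Real.rpow_mul (by norm_num), ← Real.rpow_add (by norm_num)]
            congr 1
            push_cast
            ring
    have h9 : k ^ (-(2 * θ)) ≤ 2 ^ (2 * θ) * (1 + k) ^ (-(2 * θ)) := by
      have h10 : ((1 + k) / 2) ^ (-(2 * θ)) = 2 ^ (2 * θ) * (1 + k) ^ (-(2 * θ)) := by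
        rw [Real.div_rpow (by positivity) (by norm_num), Real.rpow_neg (by norm_num : (0:ℝ) ≤ 2)]
        field_simp
      rw [← h10]
      exact Real.rpow_le_rpow_of_nonpos (by positivity) (by linarith) (by linarith)
    calc (2 : ℝ) ^ (j * N) / (l + k) ^ N * (C * (l * k ^ 2 / (2 * (l ^ 2 + k ^ 2))) ^ (-θ))
        ≤ (2 : ℝ) ^ (j * N) / (l + k) ^ N *
          (C * (2 ^ θ * ((l + k) ^ (2 * θ) * (l ^ (-θ) * k ^ (-(2 * θ)))))) := by gcongr
      _ = 2 ^ θ * C * ((2 : ℝ) ^ (j * N) * ((l + k) ^ (2 * θ) / (l + k) ^ N * l ^ (-θ))) *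
          k ^ (-(2 * θ)) := by
          ring
      _ ≤ 2 ^ θ * C * ((2 : ℝ) ^ (j * N) * (l ^ (2 * θ) / l ^ N * l ^ (-θ))) *
          (2 ^ (2 * θ) * (1 + k) ^ (-(2 * θ))) := by
          gcongr
      _ ≤ (2 ^ θ * C + A) * ((2 : ℝ) ^ (-((d : ℝ) + 2 - 2 * θ))) ^ j *
          (2 ^ (2 * θ) * (1 + k) ^ (-(2 * θ))) := by
          gcongr
          linarith
      _ = _ := by ring

lemma WW_int (d : ℕ) (θ : ℝ) (hθ : 0 ≤ θ) (hθd : θ < ((d : ℝ) + 2) / 2) :
    ∃ C : ℝ, 0 < C ∧ ∀ (κ : E d),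
      ∫⁻ y, WW y κ ∂(sig d) ≤ ENNReal.ofReal (C * (1 + ‖κ‖) ^ (-(2 * θ))) := by
  obtain ⟨C, hC, h⟩ := wj_int d θ hθ hθd
  set r : ℝ := (2 : ℝ) ^ (-((d : ℝ) + 2 - 2 * θ)) with hr
  have hr0 : 0 < r := by positivity
  have hr1 : r < 1 := by
    apply Real.rpow_lt_one_of_one_lt_of_neg (by norm_num)
    linarith
  refine ⟨C * (1 - r)⁻¹, mul_pos hC (inv_pos.2 (by linarith)), fun κ => ?_⟩
  unfold WW
  rw [lintegral_tsum fun j => (wj_meas_left j κ).aemeasurable]
  calc ∑' j, ∫⁻ y, wj j y κ ∂(sig d) ≤ ∑' j : ℕ, ENNReal.ofReal (C * r ^ j * (1 + ‖κ‖) ^ (-(2 * θ))) :=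
        ENNReal.tsum_le_tsum fun j => h j κ
    _ = ENNReal.ofReal (∑' j : ℕ, C * r ^ j * (1 + ‖κ‖) ^ (-(2 * θ))) := by
        rw [ENNReal.ofReal_tsum_of_nonneg]
        · intro j
          positivity
        · exact ((summable_geometric_of_lt_one hr0.le hr1).mul_left C).mul_right _
    _ = _ := by
        rw [tsum_mul_right, tsum_mul_left, tsum_geometric_of_lt_one hr0.le hr1]

end Pool.Agent.N378.RD
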