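import Mathlib
import Pool.Agent.N378.RD.W

/-! The weighted estimate. -/

set_option autoImplicit false

open MeasureTheory Set Filter Topology
open scoped Real Interval ENNReal NNReal

namespace Pool.Agent.N378.RD

/-- action of a linear isometry on the sphere -/
noncomputable def rt {d : ℕ} (U : E d ≃ₗᵢ[ℝ] E d) (y : S d) : S d := ⟨U y, by simp⟩

lemma wj_rot {d : ℕ} (U : E d ≃ₗᵢ[ℝ] E d) (j : ℕ) (y : S d) (κ : E d) :
    wj j (rt U y) (U κ) = wj j y κ := by
  unfold wj ee rt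
  simp only [LinearIsometryEquiv.norm_map, LinearIsometryEquiv.inner_map_map]

lemma WW_rot {d : ℕ} (U : E d ≃ₗᵢ[ℝ] E d) (y : S d) (κ : E d) :
    WW (rt U y) (U κ) = WW y κ := by
  unfold WW
  simp only [wj_rot]

lemma WW_meas_right {d : ℕ} (y : S d) : Measurable (fun κ : E d => WW y κ) := by
  have h : Measurable (fun κ : E d => ((y, κ) : S d × E d)) := measurable_prodMk_left
  have h2 := WW_meas.comp h
  exact h2

/-- the average over the frequencies does not depend on the point -/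
lemma T_const {d : ℕ} (φ : ℝ → ℝ≥0∞) (hφ : Measurable φ) (y y' : S d) :
    ∫⁻ κ : E d, φ ‖κ‖ * WW y κ = ∫⁻ κ : E d, φ ‖κ‖ * WW y' κ := by
  obtain ⟨U, hU⟩ : ∃ U : E d ≃ₗᵢ[ℝ] E d, U (y : E d) = y' :=
    ⟨(ℝ ∙ ((y : E d) - y'))ᗮ.reflection, Submodule.reflection_sub (by simp)⟩
  have hy : rt U y = y' := Subtype.ext hU
  have h1 := U.measurePreserving.lintegral_comp (f := fun κ : E d => φ ‖κ‖ * WW y' κ)
    ((hφ.comp measurable_norm).mul (WW_meas_right y'))
  rw [← h1]
  apply lintegral_congr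
  intro κ
  rw [LinearIsometryEquiv.norm_map, ← hy, WW_rot]

lemma sig_univ_ne (d : ℕ) : sig d univ ≠ 0 := by
  unfold sig
  exact isOpen_univ.measure_ne_zero _ univ_nonempty

lemma holder {α : Type*} [MeasurableSpace α] (μ : Measure α) (p : ℝ) (hp : 1 < p)
    (f W : α → ℝ≥0∞) (hf : Measurable f) (hW : Measurable W) :
    (∫⁻ x, f x * W x ∂μ) ^ p ≤ (∫⁻ x, W x ∂μ) ^ (p - 1) * ∫⁻ x, f x ^ p * W x ∂μ := by
  have hp0 : 0 < p := by linarith
  have hpq : p.HolderConjugate (p / (p - 1)) := Real.HolderConjugate.conjExponent hp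
  have hq0 : 0 < p / (p - 1) := div_pos hp0 (by linarith)
  have h1 := ENNReal.lintegral_mul_le_Lp_mul_Lq μ hpq
    (f := fun x => f x * W x ^ (1 / p)) (g := fun x => W x ^ (1 / (p / (p - 1))))
    (hf.mul (hW.pow_const _)).aemeasurable (hW.pow_const _).aemeasurable
  have e1 : ∀ x, ((fun x => f x * W x ^ (1 / p)) * fun x => W x ^ (1 / (p / (p - 1)))) x = f x * W x := by
    intro x
    simp only [Pi.mul_apply]
    rw [mul_assoc, ← ENNReal.rpow_add_of_nonneg _ _ (by positivity) (by positivity)]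
    have : 1 / p + 1 / (p / (p - 1)) = 1 := by
      field_simp
      ring
    rw [this, ENNReal.rpow_one]
  have e2 : ∀ x, (f x * W x ^ (1 / p)) ^ p = f x ^ p * W x := by
    intro x
    rw [ENNReal.mul_rpow_of_nonneg _ _ hp0.le, ← ENNReal.rpow_mul]
    rw [one_div, inv_mul_cancel₀ hp0.ne', ENNReal.rpow_one]
  have e3 : ∀ x, (W x ^ (1 / (p / (p - 1)))) ^ (p / (p - 1)) = W x := by
    intro x
    rw [← ENNReal.rpow_mul, one_div, inv_mul_cancel₀ hq0.ne', ENNReal.rpow_one]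
  simp only [e1, e2, e3] at h1
  calc (∫⁻ x, f x * W x ∂μ) ^ p ≤ ((∫⁻ x, f x ^ p * W x ∂μ) ^ (1 / p) *
        (∫⁻ x, W x ∂μ) ^ (1 / (p / (p - 1)))) ^ p := ENNReal.rpow_le_rpow h1 hp0.le
    _ = _ := by
        rw [ENNReal.mul_rpow_of_nonneg _ _ hp0.le, ← ENNReal.rpow_mul, ← ENNReal.rpow_mul, mul_comm]
        congr 2
        · field_simp
        · rw [one_div, inv_mul_cancel₀ hp0.ne', ENNReal.rpow_one]

/-- **The weighted estimate.** -/
theorem main_W (d : ℕ) (p : ℝ) (hp : ((d : ℝ) + 3) / (d + 2) < p) :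
    ∃ C : ℝ≥0, ∀ H : S d → ℝ≥0∞, Measurable H →
      ∫⁻ κ : E d, (∫⁻ y, H y ^ (2 : ℝ) * WW y κ ∂(sig d)) ^ p ≤ C * ∫⁻ y, H y ^ (2 * p) ∂(sig d) := by
  have hd2 : (0 : ℝ) < (d : ℝ) + 2 := by positivity
  have hp1 : 1 < p := by
    refine lt_of_le_of_lt ?_ hp
    rw [le_div_iff₀ hd2]
    linarith
  have hp0 : 0 < p := by linarith
  have hpd : (d : ℝ) + 3 < p * (d + 2) := (div_lt_iff₀ hd2).1 hp
  set θ : ℝ := (((d : ℝ) + 3) / p + (d + 2)) / 4 with hθ
  have h3 : ((d : ℝ) + 3) / p < d + 2 := by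
    rw [div_lt_iff₀ hp0]
    linarith
  have h30 : 0 < ((d : ℝ) + 3) / p := by positivity
  have hθ0 : 0 ≤ θ := by positivity
  have hθd : θ < ((d : ℝ) + 2) / 2 := by
    rw [hθ]
    linarith
  have hθp : (d : ℝ) + 3 < 2 * θ * p := by
    have : ((d : ℝ) + 3) / p < 2 * θ := by
      rw [hθ]
      linarith
    rwa [div_lt_iff₀ hp0] at this
  obtain ⟨C, hC, hW⟩ := WW_int d θ hθ0 hθd
  set φ : ℝ → ℝ≥0∞ := fun k => ENNReal.ofReal (C * (1 + |k|) ^ (-(2 * θ))) ^ (p - 1) with hφ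
  have hφm : Measurable φ := by
    rw [hφ]
    fun_prop
  obtain ⟨y0⟩ : Nonempty (S d) := inferInstance
  set T0 : ℝ≥0∞ := ∫⁻ κ : E d, φ ‖κ‖ * WW y0 κ with hT0
  -- finiteness of `T0`
  have hTfin : T0 ≠ ∞ := by
    have hfin : ∫⁻ κ : E d, ENNReal.ofReal ((1 + ‖κ‖) ^ (-(2 * θ * p))) < ∞ := by
      apply finite_integral_one_add_norm
      have : (Module.finrank ℝ (E d) : ℝ) = (d : ℝ) + 3 := by
        rw [finrank_euclideanSpace, Fintype.card_fin]
        push_cast
        ring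
      rw [this]
      exact hθp
    have h1 : T0 * sig d univ = ∫⁻ y, ∫⁻ κ : E d, φ ‖κ‖ * WW y κ ∂(volume : Measure (E d)) ∂(sig d) := by
      have : ∀ y : S d, ∫⁻ κ : E d, φ ‖κ‖ * WW y κ = T0 := fun y => T_const φ hφm y y0
      simp only [this]
      rw [lintegral_const]
    have hjm : Measurable (fun q : S d × E d => φ ‖q.2‖ * WW q.1 q.2) :=
      ((hφm.comp measurable_norm).comp measurable_snd).mul WW_meas
    have h2 : ∫⁻ y, ∫⁻ κ : E d, φ ‖κ‖ * WW y κ ∂(volume : Measure (E d)) ∂(sig d) =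
        ∫⁻ κ : E d, ∫⁻ y, φ ‖κ‖ * WW y κ ∂(sig d) := by
      exact lintegral_lintegral_swap (f := fun y κ => φ ‖κ‖ * WW y κ) hjm.aemeasurable
    have h3 : ∫⁻ κ : E d, ∫⁻ y, φ ‖κ‖ * WW y κ ∂(sig d) ≤
        ∫⁻ κ : E d, ENNReal.ofReal (C ^ p) * ENNReal.ofReal ((1 + ‖κ‖) ^ (-(2 * θ * p))) := by
      apply lintegral_mono
      intro κ
      simp only
      rw [lintegral_const_mul _ (WW_meas_left κ)]
      have hb : 0 < C * (1 + ‖κ‖) ^ (-(2 * θ)) := by positivity
      have e0 : φ ‖κ‖ = ENNReal.ofReal (C * (1 + ‖κ‖) ^ (-(2 * θ))) ^ (p - 1) := by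
        simp only [hφ]
        rw [abs_of_nonneg (norm_nonneg κ)]
      rw [e0]
      calc ENNReal.ofReal (C * (1 + ‖κ‖) ^ (-(2 * θ))) ^ (p - 1) * ∫⁻ y, WW y κ ∂(sig d)
          ≤ ENNReal.ofReal (C * (1 + ‖κ‖) ^ (-(2 * θ))) ^ (p - 1) *
            ENNReal.ofReal (C * (1 + ‖κ‖) ^ (-(2 * θ))) := by
            gcongr
            exact hW κ
        _ = ENNReal.ofReal (C * (1 + ‖κ‖) ^ (-(2 * θ))) ^ p := by
            nth_rewrite 2 [← ENNReal.rpow_one (ENNReal.ofReal (C * (1 + ‖κ‖) ^ (-(2 * θ))))]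
            rw [← ENNReal.rpow_add_of_nonneg _ _ (by linarith) zero_le_one]
            congr 1
            ring
        _ = _ := by
            rw [ENNReal.ofReal_rpow_of_pos hb, ← ENNReal.ofReal_mul (by positivity),
              Real.mul_rpow hC.le (by positivity), ← Real.rpow_mul (by positivity)]
            congr 3
            ring
    have h4 : T0 * sig d univ < ∞ := by
      rw [h1, h2]
      refine lt_of_le_of_lt h3 ?_
      rw [lintegral_const_mul _ (by fun_prop)]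
      exact ENNReal.mul_lt_top ENNReal.ofReal_lt_top hfin
    intro h5
    rw [h5, ENNReal.top_mul (sig_univ_ne d)] at h4
    exact absurd h4 (lt_irrefl _)
  refine ⟨T0.toNNReal, fun H hH => ?_⟩
  rw [ENNReal.coe_toNNReal hTfin]
  have hH2 : ∀ q : ℝ, Measurable (fun y => H y ^ q) := fun q => hH.pow_const q
  calc ∫⁻ κ : E d, (∫⁻ y, H y ^ (2 : ℝ) * WW y κ ∂(sig d)) ^ p
      ≤ ∫⁻ κ : E d, φ ‖κ‖ * ∫⁻ y, (H y ^ (2 : ℝ)) ^ p * WW y κ ∂(sig d) := by
        apply lintegral_mono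
        intro κ
        refine (holder (sig d) p hp1 _ _ (hH2 2) (WW_meas_left κ)).trans ?_
        refine mul_le_mul' ?_ le_rfl
        have e0 : φ ‖κ‖ = ENNReal.ofReal (C * (1 + ‖κ‖) ^ (-(2 * θ))) ^ (p - 1) := by
          simp only [hφ]
          rw [abs_of_nonneg (norm_nonneg κ)]
        rw [e0]
        exact ENNReal.rpow_le_rpow (hW κ) (by linarith)
    _ = ∫⁻ κ : E d, ∫⁻ y, H y ^ (2 * p) * (φ ‖κ‖ * WW y κ) ∂(sig d) := by
        apply lintegral_congr
        intro κ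
        rw [← lintegral_const_mul]
        · apply lintegral_congr
          intro y
          rw [← ENNReal.rpow_mul]
          ring
        · exact ((hH2 2).pow_const _).mul (WW_meas_left κ)
    _ = ∫⁻ y, ∫⁻ κ : E d, H y ^ (2 * p) * (φ ‖κ‖ * WW y κ) ∂(volume : Measure (E d)) ∂(sig d) := by
        symm
        apply lintegral_lintegral_swap (f := fun y κ => H y ^ (2 * p) * (φ ‖κ‖ * WW y κ))
        apply Measurable.aemeasurable
        exact ((hH2 (2 * p)).comp measurable_fst).mul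
          (((hφm.comp measurable_norm).comp measurable_snd).mul WW_meas)
    _ = ∫⁻ y, H y ^ (2 * p) * T0 ∂(sig d) := by
        apply lintegral_congr
        intro y
        rw [lintegral_const_mul (f := fun κ : E d => φ ‖κ‖ * WW y κ) _
          ((hφm.comp measurable_norm).mul (WW_meas_right y)), T_const φ hφm y y0]
    _ = T0 * ∫⁻ y, H y ^ (2 * p) ∂(sig d) := by
        rw [lintegral_mul_const _ (hH2 (2 * p)), mul_comm]

/-- the mass of the cap -/
noncomputable def mm (d : ℕ) (l : ℝ) : ℝ := ∫ t, Real.exp (-(l * (1 - t))) ∂(nu d)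

lemma mm_eq (d : ℕ) (l : ℝ) (y : S d) :
    ∫ x : S d, Real.exp (-(l * (1 - inner ℝ (y : E d) (x : E d)))) ∂(sig d) = mm d l :=
  integral_zon d y (fun t => Real.exp (-(l * (1 - t)))) (by fun_prop)

lemma cd_pos (d : ℕ) : 0 < (cd d).toReal := by
  apply ENNReal.toReal_pos _ (cd_ne_top d)
  unfold cd
  have : Nonempty (Metric.sphere (0 : EuclideanSpace ℝ (Fin (d + 1 + 1))) 1) :=
    ⟨⟨EuclideanSpace.single 0 1, by simp⟩⟩
  exact isOpen_univ.measure_ne_zero _ univ_nonempty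

/-- lower bound for the mass -/
lemma mm_low (d : ℕ) : ∃ c : ℝ, 0 < c ∧ ∀ l : ℝ, 1 ≤ l → 0 < mm d l ∧ c / l ^ (d + 2) ≤ mm d l ^ 2 := by
  have hc := cd_pos d
  refine ⟨((cd d).toReal * Real.exp (-1)) ^ 2 / 2 ^ (d + 2), by positivity, fun l hl => ?_⟩
  have hl0 : 0 < l := by linarith
  set s := Real.sqrt (1 / (2 * l)) with hs
  have hs0 : 0 < s := Real.sqrt_pos.2 (by positivity)
  have hs2 : s ^ 2 = 1 / (2 * l) := Real.sq_sqrt (by positivity)
  have h1 : (cd d).toReal * (s ^ (d + 2) * Real.exp (-1)) ≤ mm d l := by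
    unfold mm
    rw [integral_nu, smul_eq_mul]
    gcongr
    simp only [smul_eq_mul]
    have hcont : Continuous (fun z : ℝ => Real.sqrt (1 - z ^ 2) ^ d * Real.exp (-(l * (1 - z)))) := by
      fun_prop
    have e1 : 1 / l ≤ 1 := by rw [div_le_one hl0]; exact hl
    have e2 : 1 / (2 * l) = 1 / l / 2 := by field_simp
    have e3 : 0 < 1 / l := by positivity
    have h2 : ∫ z in (1 - 1 / l)..(1 - 1 / (2 * l)), Real.sqrt (1 - z ^ 2) ^ d * Real.exp (-(l * (1 - z))) ≤
        ∫ z in (-1 : ℝ)..1, Real.sqrt (1 - z ^ 2) ^ d * Real.exp (-(l * (1 - z))) := by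
      apply intervalIntegral.integral_mono_interval
      · linarith
      · rw [e2]; linarith
      · rw [e2]; linarith
      · exact Eventually.of_forall fun z => by
          simp only [Pi.zero_apply]
          positivity
      · exact hcont.intervalIntegrable _ _
    refine le_trans ?_ h2
    have h3 : ∫ z in (1 - 1 / l)..(1 - 1 / (2 * l)), s ^ d * Real.exp (-1) ≤
        ∫ z in (1 - 1 / l)..(1 - 1 / (2 * l)), Real.sqrt (1 - z ^ 2) ^ d * Real.exp (-(l * (1 - z))) := by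
      apply intervalIntegral.integral_mono_on
      · rw [e2]; linarith
      · simp
      · exact hcont.intervalIntegrable _ _
      · intro z hz
        have hz0 : 0 ≤ z := by linarith [hz.1]
        have hz1 : 1 / (2 * l) ≤ 1 - z := by linarith [hz.2]
        have hz2 : 1 - z ≤ 1 / l := by linarith [hz.1]
        gcongr ?_ ^ d * ?_
        · apply Real.sqrt_le_sqrt
          nlinarith [sq_nonneg z, (by positivity : 0 < 1 / (2 * l))]
        · apply Real.exp_le_exp.2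
          have : l * (1 - z) ≤ l * (1 / l) := by gcongr
          rw [mul_one_div_cancel hl0.ne'] at this
          linarith
    refine le_trans (le_of_eq ?_) h3
    rw [intervalIntegral.integral_const, smul_eq_mul, pow_add, hs2, e2]
    ring
  have h0 : 0 < (cd d).toReal * (s ^ (d + 2) * Real.exp (-1)) := by positivity
  refine ⟨lt_of_lt_of_le h0 h1, ?_⟩
  calc _ = ((cd d).toReal * (s ^ (d + 2) * Real.exp (-1))) ^ 2 := by
        have : (s ^ (d + 2)) ^ 2 = (1 / (2 * l)) ^ (d + 2) := by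
          rw [← pow_mul, mul_comm, pow_mul, hs2]
        have e5 : ((cd d).toReal * (s ^ (d + 2) * Real.exp (-1))) ^ 2 =
            (cd d).toReal ^ 2 * ((s ^ (d + 2)) ^ 2 * Real.exp (-1) ^ 2) := by ring
        rw [e5, this, mul_pow, div_pow, mul_pow, one_pow]
        field_simp
    _ ≤ _ := pow_le_pow_left₀ h0.le h1 2

end Pool.Agent.N378.RD
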