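import Mathlib
import Pool.Agent.N378.RD.T

/-! The Fourier transforms of the pieces. -/

set_option autoImplicit false

open MeasureTheory Set Filter Topology Complex
open scoped Real Interval ENNReal NNReal

namespace Pool.Agent.N378.RD

/-- Gaussian kernel -/
noncomputable def kk {d : ℕ} (l : ℝ) (x y : S d) : ℝ :=
  Real.exp (-(l * (1 - inner ℝ (x : E d) (y : E d))))

/-- Gaussian average -/
noncomputable def Gi {d : ℕ} (l : ℝ) (h : S d → ℂ) (x : S d) : ℂ :=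
  (∫ y, ((kk l x y : ℝ) : ℂ) * h y ∂(sig d)) / ((mm d l : ℝ) : ℂ)

/-- character -/
noncomputable def ch {d : ℕ} (ξ : E d) (x : S d) : ℂ :=
  Complex.exp (-((2 * π * inner ℝ (x : E d) ξ : ℝ) : ℂ) * I)

/-- Fourier transform of a density -/
noncomputable def fti {d : ℕ} (f : S d → ℂ) (ξ : E d) : ℂ := ∫ x, ch ξ x * f x ∂(sig d)

lemma ch_norm {d : ℕ} (ξ : E d) (x : S d) : ‖ch ξ x‖ = 1 := by
  unfold ch
  rw [← ofReal_neg, Complex.norm_exp_ofReal_mul_I]

lemma ch_cont {d : ℕ} (ξ : E d) : Continuous (ch ξ) := by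
  unfold ch
  fun_prop

lemma kk_cont {d : ℕ} (l : ℝ) : Continuous (fun q : S d × S d => kk l q.1 q.2) := by
  unfold kk
  fun_prop

lemma kk_bound {d : ℕ} (l : ℝ) (hl : 0 < l) (x y : S d) : ‖((kk l x y : ℝ) : ℂ)‖ ≤ 1 := by
  rw [Complex.norm_real, Real.norm_eq_abs]
  unfold kk
  rw [Real.abs_exp, Real.exp_le_one_iff]
  have h1 : inner ℝ (x : E d) (y : E d) ≤ 1 := by
    have := real_inner_le_norm (x : E d) (y : E d)
    simpa using this
  have : 0 ≤ l * (1 - inner ℝ (x : E d) (y : E d)) := mul_nonneg hl.le (by linarith)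
  linarith

lemma Gi_int {d : ℕ} (l : ℝ) (hl : 0 < l) (h : S d → ℂ) (hh : Integrable h (sig d)) :
    Integrable (fun q : S d × S d => ((kk l q.1 q.2 : ℝ) : ℂ) * h q.2) ((sig d).prod (sig d)) := by
  apply Integrable.bdd_mul (c := 1)
  · exact hh.comp_snd (sig d)
  · exact (Complex.continuous_ofReal.comp (kk_cont l)).aestronglyMeasurable
  · exact Eventually.of_forall fun q => kk_bound l hl q.1 q.2

lemma Gi_sect {d : ℕ} (l : ℝ) (hl : 0 < l) (h : S d → ℂ) (hh : Integrable h (sig d)) (x : S d) :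
    Integrable (fun y : S d => ((kk l x y : ℝ) : ℂ) * h y) (sig d) := by
  apply Integrable.bdd_mul (c := 1) hh
  · have h1 : Continuous (fun y : S d => kk l x y) := by
      unfold kk
      fun_prop
    exact (Complex.continuous_ofReal.comp h1).aestronglyMeasurable
  · exact Eventually.of_forall fun q => kk_bound l hl x q

lemma Gi_integrable {d : ℕ} (l : ℝ) (hl : 0 < l) (h : S d → ℂ) (hh : Integrable h (sig d)) :
    Integrable (Gi l h) (sig d) := by
  have := (Gi_int l hl h hh).integral_prod_left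
  exact this.div_const _

/-- the transform of a Gaussian average -/
lemma fti_Gi {d : ℕ} (l : ℝ) (hl : 0 < l) (h : S d → ℂ) (hh : Integrable h (sig d)) (ξ : E d) :
    fti (Gi l h) ξ = (∫ y, h y * Z l y ((2 * π) • ξ) ∂(sig d)) / ((mm d l : ℝ) : ℂ) := by
  have h1 : fti (Gi l h) ξ =
      (∫ x, ∫ y, ch ξ x * (((kk l x y : ℝ) : ℂ) * h y) ∂(sig d) ∂(sig d)) / ((mm d l : ℝ) : ℂ) := by
    unfold fti Gi
    rw [← integral_div]
    apply integral_congr_ae
    refine Eventually.of_forall fun x => ?_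
    simp only
    rw [integral_const_mul, mul_div_assoc]
  have h2 : Integrable (Function.uncurry fun x y : S d => ch ξ x * (((kk l x y : ℝ) : ℂ) * h y))
      ((sig d).prod (sig d)) := by
    apply Integrable.bdd_mul (c := 1) (Gi_int l hl h hh)
    · exact ((ch_cont ξ).comp continuous_fst).aestronglyMeasurable
    · exact Eventually.of_forall fun q => (ch_norm ξ q.1).le
  rw [h1, integral_integral_swap h2]
  congr 1
  apply integral_congr_ae
  refine Eventually.of_forall fun y => ?_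
  simp only
  unfold Z
  rw [← integral_const_mul]
  apply integral_congr_ae
  refine Eventually.of_forall fun x => ?_
  simp only
  have e1 : ch ξ x = Complex.exp (-(((inner ℝ ((2 * π) • ξ) (x : E d) : ℝ) : ℂ) * I)) := by
    unfold ch
    rw [inner_smul_left, real_inner_comm (x : E d) ξ]
    simp only [conj_trivial]
    congr 1
    push_cast
    ring
  have e2 : kk l x y = Real.exp (-(l * (1 - inner ℝ (y : E d) (x : E d)))) := by
    unfold kk
    rw [real_inner_comm (y : E d) (x : E d)]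
  rw [e1, e2]
  ring

/-- Cauchy–Schwarz for one piece -/
lemma piece_sq {d : ℕ} (l : ℝ) (hl : 0 < l) (hm : 0 < mm d l) (h : S d → ℂ) (hhm : Measurable h)
    (hh : Integrable h (sig d)) (A : Set (S d)) (hA : MeasurableSet A) (ξ : E d) :
    ‖fti (Gi l (A.indicator h)) ξ‖ₑ ^ 2 ≤ ENNReal.ofReal (1 / mm d l ^ 2) *
      (sig d A * ∫⁻ y in A, ‖h y‖ₑ ^ 2 * ‖Z l y ((2 * π) • ξ)‖ₑ ^ 2 ∂(sig d)) := by
  set κ := (2 * π) • ξ with hκ
  have hZm : Measurable (fun y : S d => Z l y κ) := by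
    unfold Z
    apply StronglyMeasurable.measurable
    apply StronglyMeasurable.integral_prod_right' (f := fun q : S d × S d =>
      ((Real.exp (-(l * (1 - inner ℝ (q.1 : E d) (q.2 : E d)))) : ℝ) : ℂ) *
        Complex.exp (-(((inner ℝ κ (q.2 : E d) : ℝ) : ℂ) * I)))
    apply Continuous.stronglyMeasurable
    fun_prop
  have h1 : fti (Gi l (A.indicator h)) ξ =
      (∫ y in A, h y * Z l y κ ∂(sig d)) / ((mm d l : ℝ) : ℂ) := by
    rw [fti_Gi l hl _ (hh.indicator hA), ← integral_indicator hA]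
    congr 1
    apply integral_congr_ae
    refine Eventually.of_forall fun y => ?_
    simp only [indicator]
    split_ifs
    · rw [hκ]
    · simp
  have h2 : ‖∫ y in A, h y * Z l y κ ∂(sig d)‖ₑ ≤ ∫⁻ y in A, ‖h y‖ₑ * ‖Z l y κ‖ₑ ∂(sig d) := by
    refine (enorm_integral_le_lintegral_enorm _).trans ?_
    apply lintegral_mono
    intro y
    simp only
    rw [enorm_mul]
  have h3 : (∫⁻ y in A, ‖h y‖ₑ * ‖Z l y κ‖ₑ ∂(sig d)) ^ 2 ≤
      sig d A * ∫⁻ y in A, ‖h y‖ₑ ^ 2 * ‖Z l y κ‖ₑ ^ 2 ∂(sig d) := by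
    have := holder ((sig d).restrict A) 2 (by norm_num) (fun y => ‖h y‖ₑ * ‖Z l y κ‖ₑ) (fun _ => 1)
      (hhm.enorm.mul hZm.enorm) measurable_const
    simp only [mul_one, lintegral_one, Measure.restrict_apply_univ] at this
    rw [show (2 : ℝ) - 1 = 1 by norm_num, ENNReal.rpow_one] at this
    calc (∫⁻ y in A, ‖h y‖ₑ * ‖Z l y κ‖ₑ ∂(sig d)) ^ 2
        = (∫⁻ y in A, ‖h y‖ₑ * ‖Z l y κ‖ₑ ∂(sig d)) ^ (2 : ℝ) := by
          rw [← ENNReal.rpow_natCast]
          norm_num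
      _ ≤ _ := this
      _ = _ := by
          congr 1
          apply lintegral_congr
          intro y
          rw [show (2 : ℝ) = ((2 : ℕ) : ℝ) by norm_num, ENNReal.rpow_natCast, mul_pow]
  have h4 : ‖fti (Gi l (A.indicator h)) ξ‖ₑ ^ 2 =
      ENNReal.ofReal (1 / mm d l ^ 2) * ‖∫ y in A, h y * Z l y κ ∂(sig d)‖ₑ ^ 2 := by
    rw [h1, div_eq_inv_mul, enorm_mul, mul_pow]
    congr 1
    rw [← Complex.ofReal_inv, ← ofReal_norm, Complex.norm_real, Real.norm_eq_abs,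
      abs_of_pos (by positivity), ← ENNReal.ofReal_pow (by positivity)]
    congr 1
    field_simp
  rw [h4]
  refine mul_le_mul' le_rfl ?_
  exact (pow_le_pow_left' h2 2).trans h3

/-- one scale, pointwise in `y` -/
lemma scale_bound (d : ℕ) : ∃ C : ℝ, 0 < C ∧ ∀ (j : ℕ) (y : S d) (κ : E d),
    0 < mm d (lj j) ∧
    ENNReal.ofReal (1 / mm d (lj j) ^ 2) * ENNReal.ofReal (1 / 2 ^ (j * (d + 2))) *
      ‖Z (lj j) y κ‖ₑ ^ 2 ≤ ENNReal.ofReal C * wj j y κ := by
  obtain ⟨c, hc, hmm⟩ := mm_low d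
  obtain ⟨C, hC, hZ⟩ := Z_bound d
  refine ⟨2 ^ (d + 2) / c * C, by positivity, fun j y κ => ?_⟩
  have hl1 : 1 ≤ lj j := by
    unfold lj
    have : (1 : ℝ) ≤ 4 ^ j := one_le_pow₀ (by norm_num)
    linarith
  have hl0 : 0 < lj j := by linarith
  obtain ⟨hm0, hm1⟩ := hmm (lj j) hl1
  refine ⟨hm0, ?_⟩
  have h1 := hZ (lj j) hl0 y κ
  have e1 : ‖Z (lj j) y κ‖ₑ ^ 2 = ENNReal.ofReal (‖Z (lj j) y κ‖ ^ 2) := by
    rw [← ofReal_norm, ENNReal.ofReal_pow (norm_nonneg _)]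
  rw [e1, ← ENNReal.ofReal_mul (by positivity), ← ENNReal.ofReal_mul (by positivity)]
  unfold wj
  rw [← ENNReal.ofReal_mul (by positivity)]
  apply ENNReal.ofReal_le_ofReal
  have hlp : 0 < lj j ^ (d + 2) := by positivity
  have h2 : 1 / mm d (lj j) ^ 2 ≤ lj j ^ (d + 2) / c := by
    rw [div_le_div_iff₀ (by positivity) hc, one_mul]
    rw [div_le_iff₀ hlp] at hm1
    linarith
  have h3 : lj j ^ (d + 2) * (1 / 2 ^ (j * (d + 2))) = 2 ^ (d + 2) * 2 ^ (j * (d + 2)) := by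
    unfold lj
    rw [mul_pow, show (4 : ℝ) = 2 * 2 by norm_num, mul_pow (2 : ℝ) 2 j, mul_pow, ← pow_mul]
    field_simp
  have hee : 0 < ee (lj j) y κ := Real.exp_pos _
  calc 1 / mm d (lj j) ^ 2 * (1 / 2 ^ (j * (d + 2))) * ‖Z (lj j) y κ‖ ^ 2
      ≤ lj j ^ (d + 2) / c * (1 / 2 ^ (j * (d + 2))) * (C / (lj j + ‖κ‖) ^ (d + 2) * ee (lj j) y κ) := by
        gcongr
        exact h1
    _ = (lj j ^ (d + 2) * (1 / 2 ^ (j * (d + 2)))) / c * (C / (lj j + ‖κ‖) ^ (d + 2) * ee (lj j) y κ) := by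
        ring
    _ = _ := by
        rw [h3]
        ring

/-- **The square function bound.** -/
theorem V_bound (d : ℕ) : ∃ C : ℝ, 0 < C ∧ ∀ (K : ℝ), 0 < K → ∀ (J N : ℕ) (a : ℕ → ℕ),
    Function.Injective a → ∀ (Q : ℕ → S d → ℕ), (∀ j, Measurable (Q j)) →
    (∀ j i, sig d (Q j ⁻¹' {i}) ≤ ENNReal.ofReal (K / 2 ^ (a j * (d + 2)))) →
    ∀ (h : ℕ → S d → ℂ), (∀ j, Measurable (h j)) → (∀ j, Integrable (h j) (sig d)) →
    ∀ (H : S d → ℝ≥0∞), (∀ j y, ‖h j y‖ₑ ≤ H y) → ∀ ξ : E d,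
      ∑ j ∈ Finset.range J, ∑ i ∈ Finset.range N,
        ‖fti (Gi (lj (a j)) ((Q j ⁻¹' {i}).indicator (h j))) ξ‖ₑ ^ 2 ≤
      ENNReal.ofReal (C * K) * ∫⁻ y, H y ^ (2 : ℝ) * WW y ((2 * π) • ξ) ∂(sig d) := by
  obtain ⟨C, hC, hsc⟩ := scale_bound d
  refine ⟨C, hC, fun K hK J N a ha Q hQm hQ h hhm hhi H hH ξ => ?_⟩
  set κ := (2 * π) • ξ with hκ
  obtain ⟨y0⟩ : Nonempty (S d) := inferInstance
  -- one scale
  have h1 : ∀ j, ∑ i ∈ Finset.range N,
        ‖fti (Gi (lj (a j)) ((Q j ⁻¹' {i}).indicator (h j))) ξ‖ₑ ^ 2 ≤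
      ENNReal.ofReal (C * K) * ∫⁻ y, ‖h j y‖ₑ ^ 2 * wj (a j) y κ ∂(sig d) := by
    intro j
    have hA : ∀ i, MeasurableSet (Q j ⁻¹' {i}) := fun i => hQm j (measurableSet_singleton i)
    have hm0 : 0 < mm d (lj (a j)) := (hsc (a j) y0 κ).1
    set u : S d → ℝ≥0∞ := fun y => ‖h j y‖ₑ ^ 2 * wj (a j) y κ with hu
    have hum : Measurable u := ((hhm j).enorm.pow_const 2).mul (wj_meas_left (a j) κ)
    have h2 : ∀ i, ‖fti (Gi (lj (a j)) ((Q j ⁻¹' {i}).indicator (h j))) ξ‖ₑ ^ 2 ≤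
        ENNReal.ofReal (C * K) * ∫⁻ y in Q j ⁻¹' {i}, u y ∂(sig d) := by
      intro i
      refine (piece_sq (lj (a j)) (lj_pos (a j)) hm0 (h j) (hhm j) (hhi j) _ (hA i) ξ).trans ?_
      rw [← hκ]
      calc ENNReal.ofReal (1 / mm d (lj (a j)) ^ 2) * (sig d (Q j ⁻¹' {i}) *
            ∫⁻ y in Q j ⁻¹' {i}, ‖h j y‖ₑ ^ 2 * ‖Z (lj (a j)) y κ‖ₑ ^ 2 ∂(sig d))
          ≤ ENNReal.ofReal (1 / mm d (lj (a j)) ^ 2) * (ENNReal.ofReal (K / 2 ^ (a j * (d + 2))) *
            ∫⁻ y in Q j ⁻¹' {i}, ‖h j y‖ₑ ^ 2 * ‖Z (lj (a j)) y κ‖ₑ ^ 2 ∂(sig d)) := by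
            gcongr
            exact hQ j i
        _ = ENNReal.ofReal K * ∫⁻ y in Q j ⁻¹' {i}, ‖h j y‖ₑ ^ 2 *
              (ENNReal.ofReal (1 / mm d (lj (a j)) ^ 2) * ENNReal.ofReal (1 / 2 ^ (a j * (d + 2))) *
                ‖Z (lj (a j)) y κ‖ₑ ^ 2) ∂(sig d) := by
            have e1 : ENNReal.ofReal (K / 2 ^ (a j * (d + 2))) =
                ENNReal.ofReal K * ENNReal.ofReal (1 / 2 ^ (a j * (d + 2))) := by
              rw [← ENNReal.ofReal_mul hK.le, mul_one_div]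
            have e2 : ∫⁻ y in Q j ⁻¹' {i}, ‖h j y‖ₑ ^ 2 *
              (ENNReal.ofReal (1 / mm d (lj (a j)) ^ 2) * ENNReal.ofReal (1 / 2 ^ (a j * (d + 2))) *
                ‖Z (lj (a j)) y κ‖ₑ ^ 2) ∂(sig d) =
                (ENNReal.ofReal (1 / mm d (lj (a j)) ^ 2) * ENNReal.ofReal (1 / 2 ^ (a j * (d + 2)))) *
                  ∫⁻ y in Q j ⁻¹' {i}, ‖h j y‖ₑ ^ 2 * ‖Z (lj (a j)) y κ‖ₑ ^ 2 ∂(sig d) := by
              rw [← lintegral_const_mul' _ _ (ENNReal.mul_ne_top ENNReal.ofReal_ne_top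
                ENNReal.ofReal_ne_top)]
              apply lintegral_congr
              intro y
              ring
            rw [e1, e2]
            ring
        _ ≤ ENNReal.ofReal K * ∫⁻ y in Q j ⁻¹' {i}, ENNReal.ofReal C * u y ∂(sig d) := by
            refine mul_le_mul' le_rfl (lintegral_mono fun y => ?_)
            calc _ ≤ ‖h j y‖ₑ ^ 2 * (ENNReal.ofReal C * wj (a j) y κ) :=
                  mul_le_mul' le_rfl (hsc (a j) y κ).2
              _ = _ := by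
                  simp only [hu]
                  ring
        _ = _ := by
            rw [lintegral_const_mul _ hum, ← mul_assoc, ← ENNReal.ofReal_mul hK.le, mul_comm K C]
    calc ∑ i ∈ Finset.range N, ‖fti (Gi (lj (a j)) ((Q j ⁻¹' {i}).indicator (h j))) ξ‖ₑ ^ 2
        ≤ ∑ i ∈ Finset.range N, ENNReal.ofReal (C * K) * ∫⁻ y in Q j ⁻¹' {i}, u y ∂(sig d) :=
          Finset.sum_le_sum fun i _ => h2 i
      _ = ENNReal.ofReal (C * K) * ∑ i ∈ Finset.range N, ∫⁻ y in Q j ⁻¹' {i}, u y ∂(sig d) := by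
          rw [Finset.mul_sum]
      _ = ENNReal.ofReal (C * K) * ∫⁻ y in ⋃ i ∈ Finset.range N, Q j ⁻¹' {i}, u y ∂(sig d) := by
          rw [lintegral_biUnion_finset]
          · intro a' _ b _ hab
            exact Disjoint.preimage _ (disjoint_singleton.2 hab)
          · intro i _
            exact hA i
      _ ≤ _ := by
          gcongr
          exact Measure.restrict_le_self
  calc _ ≤ ∑ j ∈ Finset.range J, ENNReal.ofReal (C * K) * ∫⁻ y, ‖h j y‖ₑ ^ 2 * wj (a j) y κ ∂(sig d) :=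
        Finset.sum_le_sum fun j _ => h1 j
    _ = ENNReal.ofReal (C * K) * ∑ j ∈ Finset.range J, ∫⁻ y, ‖h j y‖ₑ ^ 2 * wj (a j) y κ ∂(sig d) := by
        rw [Finset.mul_sum]
    _ = ENNReal.ofReal (C * K) * ∫⁻ y, ∑ j ∈ Finset.range J, ‖h j y‖ₑ ^ 2 * wj (a j) y κ ∂(sig d) := by
        rw [lintegral_finsetSum]
        intro j _
        exact ((hhm j).enorm.pow_const 2).mul (wj_meas_left (a j) κ)
    _ ≤ _ := by
        gcongr with y
        calc ∑ j ∈ Finset.range J, ‖h j y‖ₑ ^ 2 * wj (a j) y κ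
            ≤ ∑ j ∈ Finset.range J, H y ^ (2 : ℝ) * wj (a j) y κ := by
              apply Finset.sum_le_sum
              intro j _
              gcongr
              rw [show (2 : ℝ) = ((2 : ℕ) : ℝ) by norm_num, ENNReal.rpow_natCast]
              gcongr
              exact hH j y
          _ = H y ^ (2 : ℝ) * ∑ j ∈ Finset.range J, wj (a j) y κ := by rw [Finset.mul_sum]
          _ ≤ _ := by
              gcongr
              unfold WW
              exact (ENNReal.sum_le_tsum (f := fun j => wj (a j) y κ) _).trans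
                (ENNReal.tsum_comp_le_tsum_of_injective ha (fun j => wj j y κ))

end Pool.Agent.N378.RD
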