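import Mathlib
import Pool.Agent.N378.RD.G

/-! Random phases with fourth-order orthogonality. -/

set_option autoImplicit false

open MeasureTheory Set Filter Topology Complex ProbabilityTheory
open scoped Real Interval ENNReal NNReal ComplexConjugate

namespace Pool.Agent.N378.RD

universe u

/-- The four indices pair up. -/
def Paired {ι : Type*} (a b c e : ι) : Prop := (a = b ∧ c = e) ∨ (a = c ∧ b = e) ∨ (a = e ∧ b = c)

/-- random phases: complex random variables of modulus at most one, with fourth-order orthogonality -/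
structure Phs {Ω : Type*} [MeasurableSpace Ω] (P : Measure Ω) (r : ℕ → ℕ → Ω → ℂ) : Prop where
  meas : ∀ j i, Measurable (r j i)
  bdd : ∀ j i ω, ‖r j i ω‖ ≤ 1
  orth : ∀ a b c e : ℕ × ℕ, ¬ Paired a b c e →
    ∫ ω, r a.1 a.2 ω * conj (r b.1 b.2 ω) * (r c.1 c.2 ω * conj (r e.1 e.2 ω)) ∂P = 0

/-- the fourth moment -/
lemma four_moment {Ω : Type*} [MeasurableSpace Ω] (P : Measure Ω) [IsProbabilityMeasure P]
    {ι : Type*} [Fintype ι] [DecidableEq ι] (r : ι → Ω → ℂ) (hm : ∀ i, Measurable (r i))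
    (hb : ∀ i ω, ‖r i ω‖ ≤ 1)
    (ho : ∀ a b c e, ¬ Paired a b c e → ∫ ω, r a ω * conj (r b ω) * (r c ω * conj (r e ω)) ∂P = 0)
    (z : ι → ℂ) :
    ∫ ω, ‖∑ k, r k ω * z k‖ ^ 4 ∂P ≤ 3 * (∑ k, ‖z k‖ ^ 2) ^ 2 := by
  classical
  set T : ι → ι → ι → ι → Ω → ℂ := fun a b c e ω => r a ω * conj (r b ω) * (r c ω * conj (r e ω)) with hT
  have hTm : ∀ a b c e, Measurable (T a b c e) := by
    intro a b c e
    have h1 : ∀ i, Measurable (fun ω => conj (r i ω)) := fun i =>
      Complex.continuous_conj.measurable.comp (hm i)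
    exact ((hm a).mul (h1 b)).mul ((hm c).mul (h1 e))
  have hTb : ∀ a b c e ω, ‖T a b c e ω‖ ≤ 1 := by
    intro a b c e ω
    simp only [hT, norm_mul, RCLike.norm_conj]
    have h1 := hb a ω
    have h2 := hb b ω
    have h3 := hb c ω
    have h4 := hb e ω
    have n1 := norm_nonneg (r a ω)
    have n2 := norm_nonneg (r b ω)
    have n3 := norm_nonneg (r c ω)
    have n4 := norm_nonneg (r e ω)
    calc ‖r a ω‖ * ‖r b ω‖ * (‖r c ω‖ * ‖r e ω‖) ≤ 1 * 1 * (1 * 1) := by gcongr
      _ = 1 := by norm_num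
  have hTi : ∀ a b c e, Integrable (T a b c e) P := fun a b c e =>
    Integrable.of_bound (hTm a b c e).aestronglyMeasurable 1 (Eventually.of_forall (hTb a b c e))
  have hTI : ∀ a b c e, ‖∫ ω, T a b c e ω ∂P‖ ≤
      (if a = b ∧ c = e then 1 else 0) + (if a = c ∧ b = e then 1 else 0) +
        (if a = e ∧ b = c then (1 : ℝ) else 0) := by
    intro a b c e
    by_cases h : Paired a b c e
    · have h1 : ‖∫ ω, T a b c e ω ∂P‖ ≤ 1 := by
        have := norm_integral_le_of_norm_le_const (μ := P) (Eventually.of_forall (hTb a b c e))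
        simpa using this
      refine h1.trans ?_
      rcases h with h | h | h
      · rw [if_pos h]
        split_ifs <;> norm_num
      · rw [if_pos h]
        split_ifs <;> norm_num
      · rw [if_pos h]
        split_ifs <;> norm_num
    · rw [ho a b c e h, norm_zero]
      split_ifs <;> norm_num
  -- expansion
  have hexp : ∀ ω, ((‖∑ k, r k ω * z k‖ ^ 4 : ℝ) : ℂ) =
      ∑ a, ∑ b, ∑ c, ∑ e, (z a * conj (z b) * (z c * conj (z e))) * T a b c e ω := by
    intro ω
    have h1 : ((‖∑ k, r k ω * z k‖ ^ 2 : ℝ) : ℂ) =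
        ∑ a, ∑ b, (z a * conj (z b)) * (r a ω * conj (r b ω)) := by
      rw [← Complex.normSq_eq_norm_sq, Complex.normSq_eq_conj_mul_self, mul_comm, map_sum,
        Finset.sum_mul_sum]
      apply Finset.sum_congr rfl
      intro a _
      apply Finset.sum_congr rfl
      intro b _
      rw [map_mul]
      ring
    have h2 : ((‖∑ k, r k ω * z k‖ ^ 4 : ℝ) : ℂ) =
        ((‖∑ k, r k ω * z k‖ ^ 2 : ℝ) : ℂ) * ((‖∑ k, r k ω * z k‖ ^ 2 : ℝ) : ℂ) := by
      push_cast
      ring
    rw [h2, h1, Finset.sum_mul]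
    apply Finset.sum_congr rfl
    intro a _
    rw [Finset.sum_mul]
    apply Finset.sum_congr rfl
    intro b _
    rw [Finset.mul_sum]
    apply Finset.sum_congr rfl
    intro c _
    rw [Finset.mul_sum]
    apply Finset.sum_congr rfl
    intro e _
    simp only [hT]
    ring
  have hint : ((∫ ω, ‖∑ k, r k ω * z k‖ ^ 4 ∂P : ℝ) : ℂ) =
      ∑ a, ∑ b, ∑ c, ∑ e, (z a * conj (z b) * (z c * conj (z e))) * ∫ ω, T a b c e ω ∂P := by
    rw [← integral_complex_ofReal]
    simp only [hexp]
    rw [integral_finsetSum _ (fun a _ => integrable_finsetSum _ fun b _ => integrable_finsetSum _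
      fun c _ => integrable_finsetSum _ fun e _ => (hTi a b c e).const_mul _)]
    apply Finset.sum_congr rfl
    intro a _
    rw [integral_finsetSum _ (fun b _ => integrable_finsetSum _
      fun c _ => integrable_finsetSum _ fun e _ => (hTi a b c e).const_mul _)]
    apply Finset.sum_congr rfl
    intro b _
    rw [integral_finsetSum _ (fun c _ => integrable_finsetSum _ fun e _ => (hTi a b c e).const_mul _)]
    apply Finset.sum_congr rfl
    intro c _
    rw [integral_finsetSum _ (fun e _ => (hTi a b c e).const_mul _)]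
    apply Finset.sum_congr rfl
    intro e _
    rw [integral_const_mul]
  have hnn : 0 ≤ ∫ ω, ‖∑ k, r k ω * z k‖ ^ 4 ∂P := integral_nonneg fun ω => by positivity
  have h1 : ∫ ω, ‖∑ k, r k ω * z k‖ ^ 4 ∂P = ‖((∫ ω, ‖∑ k, r k ω * z k‖ ^ 4 ∂P : ℝ) : ℂ)‖ := by
    rw [Complex.norm_real, Real.norm_eq_abs, abs_of_nonneg hnn]
  rw [h1, hint]
  calc ‖∑ a, ∑ b, ∑ c, ∑ e, (z a * conj (z b) * (z c * conj (z e))) * ∫ ω, T a b c e ω ∂P‖
      ≤ ∑ a, ∑ b, ∑ c, ∑ e, (‖z a‖ * ‖z b‖ * (‖z c‖ * ‖z e‖)) *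
        ((if a = b ∧ c = e then 1 else 0) + (if a = c ∧ b = e then 1 else 0) +
        (if a = e ∧ b = c then (1 : ℝ) else 0)) := by
        refine (norm_sum_le _ _).trans (Finset.sum_le_sum fun a _ => ?_)
        refine (norm_sum_le _ _).trans (Finset.sum_le_sum fun b _ => ?_)
        refine (norm_sum_le _ _).trans (Finset.sum_le_sum fun c _ => ?_)
        refine (norm_sum_le _ _).trans (Finset.sum_le_sum fun e _ => ?_)
        rw [norm_mul]
        refine mul_le_mul (le_of_eq ?_) (hTI a b c e) (norm_nonneg _) (by positivity)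
        simp only [norm_mul, RCLike.norm_conj]
    _ = (∑ a, ∑ c, ‖z a‖ ^ 2 * ‖z c‖ ^ 2) + (∑ a, ∑ b, ‖z a‖ ^ 2 * ‖z b‖ ^ 2) +
          ∑ a, ∑ b, ‖z a‖ ^ 2 * ‖z b‖ ^ 2 := by
        simp only [mul_add, Finset.sum_add_distrib, mul_ite, mul_one, mul_zero, ite_and]
        congr 1
        · congr 1
          · apply Finset.sum_congr rfl
            intro a _
            rw [Finset.sum_eq_single a]
            · simp only [if_true, Finset.sum_ite_eq, Finset.mem_univ]
              apply Finset.sum_congr rfl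
              intro c _
              ring
            · intro b _ hb
              simp [Ne.symm hb]
            · simp
          · apply Finset.sum_congr rfl
            intro a _
            apply Finset.sum_congr rfl
            intro b _
            rw [Finset.sum_eq_single a]
            · simp only [if_true, Finset.sum_ite_eq, Finset.mem_univ]
              ring
            · intro c _ hc
              simp [Ne.symm hc]
            · simp
        · apply Finset.sum_congr rfl
          intro a _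
          apply Finset.sum_congr rfl
          intro b _
          rw [Finset.sum_eq_single b]
          · simp only [if_true, Finset.sum_ite_eq, Finset.mem_univ]
            ring
          · intro c _ hc
            simp [Ne.symm hc]
          · simp
    _ = _ := by
        rw [← Finset.sum_mul_sum]
        ring

/-- Khinchine's inequality for phases, `0 < q < 4` -/
lemma khin {Ω : Type*} [MeasurableSpace Ω] (P : Measure Ω) [IsProbabilityMeasure P]
    {ι : Type*} [Fintype ι] [DecidableEq ι] (r : ι → Ω → ℂ) (hm : ∀ i, Measurable (r i))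
    (hb : ∀ i ω, ‖r i ω‖ ≤ 1)
    (ho : ∀ a b c e, ¬ Paired a b c e → ∫ ω, r a ω * conj (r b ω) * (r c ω * conj (r e ω)) ∂P = 0)
    (q : ℝ) (hq : 0 < q) (hq4 : q < 4) (z : ι → ℂ) :
    ∫⁻ ω, ‖∑ k, r k ω * z k‖ₑ ^ q ∂P ≤
      ENNReal.ofReal 3 * (∑ k, ‖z k‖ₑ ^ 2) ^ (q / 2) := by
  have h4 := four_moment P r hm hb ho z
  set X : Ω → ℂ := fun ω => ∑ k, r k ω * z k with hX
  have hXm : Measurable X := Finset.measurable_fun_sum _ fun k _ => (hm k).mul_const _
  set A : ℝ := ∑ k, ‖z k‖ ^ 2 with hA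
  have hA0 : 0 ≤ A := Finset.sum_nonneg fun k _ => sq_nonneg _
  have hXb : ∀ ω, ‖X ω‖ ≤ ∑ k, ‖z k‖ := by
    intro ω
    refine (norm_sum_le _ _).trans (Finset.sum_le_sum fun k _ => ?_)
    rw [norm_mul]
    exact mul_le_of_le_one_left (norm_nonneg _) (hb k ω)
  have hint : Integrable (fun ω => ‖X ω‖ ^ 4) P := by
    apply Integrable.of_bound (hXm.norm.pow_const 4).aestronglyMeasurable ((∑ k, ‖z k‖) ^ 4)
    refine Eventually.of_forall fun ω => ?_
    rw [norm_pow, norm_norm]
    exact pow_le_pow_left₀ (norm_nonneg _) (hXb ω) 4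
  have hE4 : ∫⁻ ω, ‖X ω‖ₑ ^ (4 : ℝ) ∂P ≤ ENNReal.ofReal (3 * A ^ 2) := by
    calc ∫⁻ ω, ‖X ω‖ₑ ^ (4 : ℝ) ∂P = ∫⁻ ω, ENNReal.ofReal (‖X ω‖ ^ 4) ∂P := by
          apply lintegral_congr
          intro ω
          rw [show (4 : ℝ) = ((4 : ℕ) : ℝ) by norm_num, ENNReal.rpow_natCast,
            ENNReal.ofReal_pow (norm_nonneg _), ofReal_norm]
      _ = ENNReal.ofReal (∫ ω, ‖X ω‖ ^ 4 ∂P) := by
          rw [ofReal_integral_eq_lintegral_ofReal hint (Eventually.of_forall fun ω => by positivity)]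
      _ ≤ _ := ENNReal.ofReal_le_ofReal h4
  have hp : 1 < 4 / q := by
    rw [lt_div_iff₀ hq]
    linarith
  have h1 := holder P (4 / q) hp (fun ω => ‖X ω‖ₑ ^ q) (fun _ => 1) (hXm.enorm.pow_const q)
    measurable_const
  simp only [mul_one, lintegral_one, measure_univ, ENNReal.one_rpow, one_mul] at h1
  have h2 : ∀ ω, (‖X ω‖ₑ ^ q) ^ (4 / q) = ‖X ω‖ₑ ^ (4 : ℝ) := by
    intro ω
    rw [← ENNReal.rpow_mul]
    congr 1
    field_simp
  simp only [h2] at h1
  have h3 : ∫⁻ ω, ‖X ω‖ₑ ^ q ∂P ≤ (∫⁻ ω, ‖X ω‖ₑ ^ (4 : ℝ) ∂P) ^ (q / 4) := by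
    have h5 := ENNReal.rpow_le_rpow h1 (by positivity : 0 ≤ q / 4)
    rw [← ENNReal.rpow_mul] at h5
    have h6 : 4 / q * (q / 4) = 1 := by field_simp
    rwa [h6, ENNReal.rpow_one] at h5
  refine h3.trans ?_
  calc (∫⁻ ω, ‖X ω‖ₑ ^ (4 : ℝ) ∂P) ^ (q / 4) ≤ (ENNReal.ofReal (3 * A ^ 2)) ^ (q / 4) :=
        ENNReal.rpow_le_rpow hE4 (by positivity)
    _ = ENNReal.ofReal (3 ^ (q / 4) * A ^ (q / 2)) := by
        rw [ENNReal.ofReal_rpow_of_nonneg (by positivity) (by positivity),
          Real.mul_rpow (by norm_num) (by positivity), ← Real.rpow_natCast A 2, ← Real.rpow_mul hA0]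
        congr 3
        push_cast
        ring
    _ ≤ ENNReal.ofReal (3 * A ^ (q / 2)) := by
        apply ENNReal.ofReal_le_ofReal
        have h7 : (3 : ℝ) ^ (q / 4) ≤ 3 := by
          calc (3 : ℝ) ^ (q / 4) ≤ 3 ^ (1 : ℝ) := by
                apply Real.rpow_le_rpow_of_exponent_le (by norm_num)
                rw [div_le_one (by norm_num)]
                exact hq4.le
            _ = 3 := Real.rpow_one 3
        gcongr
    _ = _ := by
        rw [ENNReal.ofReal_mul (by norm_num), ← ENNReal.ofReal_rpow_of_nonneg hA0 (by positivity)]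
        congr 2
        rw [hA, ENNReal.ofReal_sum_of_nonneg (fun k _ => sq_nonneg _)]
        apply Finset.sum_congr rfl
        intro k _
        rw [ENNReal.ofReal_pow (norm_nonneg _), ofReal_norm]

lemma fti_cont {d : ℕ} (f : S d → ℂ) (hf : Integrable f (sig d)) : Continuous (fti f) := by
  unfold fti
  apply continuous_of_dominated (bound := fun x => ‖f x‖)
  · intro ξ
    exact (ch_cont ξ).aestronglyMeasurable.mul hf.1
  · intro ξ
    refine Eventually.of_forall fun x => ?_
    rw [norm_mul, ch_norm, one_mul]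
  · exact hf.norm
  · refine Eventually.of_forall fun x => ?_
    unfold ch
    fun_prop

lemma fti_sum {d : ℕ} {ι : Type*} (s : Finset ι) (f : ι → S d → ℂ)
    (hf : ∀ i ∈ s, Integrable (f i) (sig d)) (ξ : E d) :
    fti (fun x => ∑ i ∈ s, f i x) ξ = ∑ i ∈ s, fti (f i) ξ := by
  unfold fti
  rw [← integral_finsetSum]
  · apply integral_congr_ae
    refine Eventually.of_forall fun x => ?_
    simp only
    rw [Finset.mul_sum]
  · intro i hi
    exact (hf i hi).bdd_mul (ch_cont ξ).aestronglyMeasurable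
      (Eventually.of_forall fun x => (ch_norm ξ x).le)

lemma Gi_sum {d : ℕ} (l : ℝ) (hl : 0 < l) {ι : Type*} (s : Finset ι) (c : ι → ℂ) (f : ι → S d → ℂ)
    (hf : ∀ i ∈ s, Integrable (f i) (sig d)) (x : S d) :
    Gi l (fun y => ∑ i ∈ s, c i * f i y) x = ∑ i ∈ s, c i * Gi l (f i) x := by
  unfold Gi
  have h1 : ∫ y, ((kk l x y : ℝ) : ℂ) * ∑ i ∈ s, c i * f i y ∂(sig d) =
      ∑ i ∈ s, c i * ∫ y, ((kk l x y : ℝ) : ℂ) * f i y ∂(sig d) := by
    simp only [← integral_const_mul]
    rw [← integral_finsetSum]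
    · apply integral_congr_ae
      refine Eventually.of_forall fun y => ?_
      simp only
      rw [Finset.mul_sum]
      apply Finset.sum_congr rfl
      intro i _
      ring
    · intro i hi
      exact (Gi_sect l hl (f i) (hf i hi) x).const_mul _
  rw [h1, Finset.sum_div]
  apply Finset.sum_congr rfl
  intro i _
  rw [mul_div_assoc]

/-- the function with random phases -/
noncomputable def sh {d : ℕ} {Ω : Type*} (r : ℕ → ℕ → Ω → ℂ) (Q : ℕ → S d → ℕ)
    (h : ℕ → S d → ℂ) (ω : Ω) (j : ℕ) (y : S d) : ℂ := r j (Q j y) ω * h j y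

lemma sh_eq {d : ℕ} {Ω : Type*} (r : ℕ → ℕ → Ω → ℂ) (Q : ℕ → S d → ℕ)
    (h : ℕ → S d → ℂ) (ω : Ω) (j : ℕ) (N : ℕ) (hN : ∀ y, Q j y < N) (y : S d) :
    sh r Q h ω j y = ∑ i ∈ Finset.range N, r j i ω * (Q j ⁻¹' {i}).indicator (h j) y := by
  unfold sh
  rw [Finset.sum_eq_single_of_mem (Q j y) (Finset.mem_range.2 (hN y))]
  · rw [indicator_of_mem (by simp)]
  · intro i _ hi
    rw [indicator_of_notMem, mul_zero]
    simp only [mem_preimage, mem_singleton_iff]
    exact fun h => hi h.symm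

/-- expansion of the transform of the random density -/
lemma fti_random {d : ℕ} {Ω : Type*} (r : ℕ → ℕ → Ω → ℂ) (Q : ℕ → S d → ℕ)
    (hQm : ∀ j, Measurable (Q j)) (h : ℕ → S d → ℂ) (hh : ∀ j, Integrable (h j) (sig d))
    (J N : ℕ) (hN : ∀ j < J, ∀ y, Q j y < N) (ω : Ω) (ξ : E d) :
    fti (fun x => ∑ j ∈ Finset.range J, Gi (lj j) (sh r Q h ω j) x) ξ =
      ∑ j ∈ Finset.range J, ∑ i ∈ Finset.range N, r j i ω *
        fti (Gi (lj j) ((Q j ⁻¹' {i}).indicator (h j))) ξ := by
  have hind : ∀ j i, Integrable ((Q j ⁻¹' {i}).indicator (h j)) (sig d) := fun j i =>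
    (hh j).indicator (hQm j (measurableSet_singleton i))
  have h1 : ∀ j ∈ Finset.range J, Gi (lj j) (sh r Q h ω j) =
      fun x => ∑ i ∈ Finset.range N, r j i ω *
        Gi (lj j) ((Q j ⁻¹' {i}).indicator (h j)) x := by
    intro j hj
    funext x
    have e : sh r Q h ω j = fun y => ∑ i ∈ Finset.range N,
        r j i ω * (Q j ⁻¹' {i}).indicator (h j) y :=
      funext fun y => sh_eq r Q h ω j N (hN j (Finset.mem_range.1 hj)) y
    rw [e, Gi_sum _ (lj_pos _) _ _ _ (fun i _ => hind j i)]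
  have hGint : ∀ j i, Integrable (Gi (lj j) ((Q j ⁻¹' {i}).indicator (h j))) (sig d) :=
    fun j i => Gi_integrable _ (lj_pos _) _ (hind j i)
  have h2 : fti (fun x => ∑ j ∈ Finset.range J, Gi (lj j) (sh r Q h ω j) x) ξ =
      fti (fun x => ∑ j ∈ Finset.range J, ∑ i ∈ Finset.range N, r j i ω *
        Gi (lj j) ((Q j ⁻¹' {i}).indicator (h j)) x) ξ := by
    congr 1
    funext x
    apply Finset.sum_congr rfl
    intro j hj
    rw [h1 j hj]
  rw [h2, fti_sum]
  · apply Finset.sum_congr rfl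
    intro j _
    rw [fti_sum]
    · apply Finset.sum_congr rfl
      intro i _
      unfold fti
      rw [← integral_const_mul]
      apply integral_congr_ae
      refine Eventually.of_forall fun x => ?_
      simp only
      ring
    · intro i _
      exact (hGint j i).const_mul _
  · intro j _
    apply integrable_finsetSum
    intro i _
    exact (hGint j i).const_mul _

end Pool.Agent.N378.RD
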