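import Mathlib
import Pool.Agent.N378.RD.P

/-! The expected norm of the Fourier transform of a random density. -/

set_option autoImplicit false

open MeasureTheory Set Filter Topology Complex ProbabilityTheory
open scoped Real Interval ENNReal NNReal ComplexConjugate

namespace Pool.Agent.N378.RD

universe u

/-- the random density with `J` scales -/
noncomputable def rd {d : ℕ} {Ω : Type u} (r : ℕ → ℕ → Ω → ℂ) (Q : ℕ → S d → ℕ)
    (h : ℕ → S d → ℂ) (J : ℕ) (ω : Ω) (x : S d) : ℂ :=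
  ∑ j ∈ Finset.range J, Gi (lj j) (sh r Q h ω j) x

/-- joint measurability -/
lemma fti_rd_meas {d : ℕ} {Ω : Type u} [MeasurableSpace Ω] (r : ℕ → ℕ → Ω → ℂ)
    (hr : ∀ j i, Measurable (r j i)) (Q : ℕ → S d → ℕ)
    (hQm : ∀ j, Measurable (Q j)) (h : ℕ → S d → ℂ) (hh : ∀ j, Integrable (h j) (sig d))
    (J N : ℕ) (hN : ∀ j < J, ∀ y, Q j y < N) :
    Measurable (fun p : Ω × E d => fti (rd r Q h J p.1) p.2) := by
  have h1 : (fun p : Ω × E d => fti (rd r Q h J p.1) p.2) = fun p =>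
      ∑ j ∈ Finset.range J, ∑ i ∈ Finset.range N, r j i p.1 *
        fti (Gi (lj j) ((Q j ⁻¹' {i}).indicator (h j))) p.2 := by
    funext p
    exact fti_random r Q hQm h hh J N hN p.1 p.2
  rw [h1]
  apply Finset.measurable_fun_sum
  intro j _
  apply Finset.measurable_fun_sum
  intro i _
  apply Measurable.mul
  · exact (hr j i).comp measurable_fst
  · have : Integrable ((Q j ⁻¹' {i}).indicator (h j)) (sig d) :=
      (hh j).indicator (hQm j (measurableSet_singleton i))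
    exact (fti_cont _ (Gi_integrable _ (lj_pos _) _ this)).measurable.comp measurable_snd

lemma scale_var {d : ℕ} (c : ℝ) (hc : 1 ≤ c) (g : E d → ℝ≥0∞) (hg : Measurable g) :
    ∫⁻ ξ : E d, g (c • ξ) ≤ ∫⁻ κ : E d, g κ := by
  have hc0 : c ≠ 0 := by linarith
  have h1 := Measure.map_addHaar_smul (volume : Measure (E d)) hc0
  have h2 : ∫⁻ ξ : E d, g (c • ξ) = ∫⁻ κ : E d, g κ ∂(Measure.map (fun ξ : E d => c • ξ) volume) := by
    rw [lintegral_map hg (measurable_const_smul c)]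
  rw [h2, h1, lintegral_smul_measure, smul_eq_mul]
  calc ENNReal.ofReal |(c ^ Module.finrank ℝ (E d))⁻¹| * ∫⁻ κ : E d, g κ
      ≤ 1 * ∫⁻ κ : E d, g κ := by
        gcongr
        rw [← ENNReal.ofReal_one]
        apply ENNReal.ofReal_le_ofReal
        rw [abs_of_nonneg (by positivity)]
        exact inv_le_one_of_one_le₀ (one_le_pow₀ hc)
    _ = _ := one_mul _

lemma integrable_of_H {d : ℕ} (q : ℝ) (hq : 1 ≤ q) (H : S d → ℝ≥0∞)
    (hfin : ∫⁻ y, H y ^ q ∂(sig d) ≠ ∞) (f : S d → ℂ) (hf : Measurable f)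
    (hfH : ∀ y, ‖f y‖ₑ ≤ H y) : Integrable f (sig d) := by
  refine ⟨hf.aestronglyMeasurable, ?_⟩
  unfold HasFiniteIntegral
  calc ∫⁻ y, ‖f y‖ₑ ∂(sig d) ≤ ∫⁻ y, (1 + H y ^ q) ∂(sig d) := by
        apply lintegral_mono
        intro y
        simp only
        refine (hfH y).trans ?_
        rcases le_or_gt (H y) 1 with h | h
        · exact h.trans le_self_add
        · calc H y = H y ^ (1 : ℝ) := (ENNReal.rpow_one _).symm
            _ ≤ H y ^ q := ENNReal.rpow_le_rpow_of_exponent_le h.le hq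
            _ ≤ _ := le_add_self
    _ = sig d univ + ∫⁻ y, H y ^ q ∂(sig d) := by
        rw [lintegral_add_left measurable_const, lintegral_one]
    _ < ∞ := ENNReal.add_lt_top.2 ⟨measure_lt_top _ _, lt_top_iff_ne_top.2 hfin⟩

/-- **Reduction to the square function.** -/
theorem expect_sq (d : ℕ) (q : ℝ) (hq0 : 0 < q) (hq4 : q < 4) (Ω : Type u) [MeasurableSpace Ω] (P : Measure Ω)
    [IsProbabilityMeasure P] (r : ℕ → ℕ → Ω → ℂ) (hr : Phs P r) (J N : ℕ)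
    (Q : ℕ → S d → ℕ) (hQm : ∀ j, Measurable (Q j)) (hN : ∀ j < J, ∀ y, Q j y < N)
    (h : ℕ → S d → ℂ) (hhi : ∀ j, Integrable (h j) (sig d)) :
    ∫⁻ ω, ∫⁻ ξ : E d, ‖fti (rd r Q h J ω) ξ‖ₑ ^ q ∂(volume : Measure (E d)) ∂P ≤
      ENNReal.ofReal 3 * ∫⁻ ξ : E d, (∑ j ∈ Finset.range J, ∑ i ∈ Finset.range N,
        ‖fti (Gi (lj j) ((Q j ⁻¹' {i}).indicator (h j))) ξ‖ₑ ^ 2) ^ (q / 2) := by
  set z : Fin J × Fin N → E d → ℂ := fun p ξ =>
    fti (Gi (lj p.1) ((Q p.1 ⁻¹' {(p.2 : ℕ)}).indicator (h p.1))) ξ with hz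
  have hexp : ∀ (ω : Ω) (ξ : E d), fti (rd r Q h J ω) ξ =
      ∑ p : Fin J × Fin N, r p.1 p.2 ω * z p ξ := by
    intro ω ξ
    have h1 := fti_random r Q hQm h hhi J N hN ω ξ
    rw [show rd r Q h J ω = fun x => ∑ j ∈ Finset.range J, Gi (lj j) (sh r Q h ω j) x from rfl,
      h1, Fintype.sum_prod_type, Finset.sum_range]
    apply Finset.sum_congr rfl
    intro j _
    rw [Finset.sum_range]
  have hVz : ∀ ξ : E d, ∑ p : Fin J × Fin N, ‖z p ξ‖ₑ ^ 2 =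
      ∑ j ∈ Finset.range J, ∑ i ∈ Finset.range N,
        ‖fti (Gi (lj j) ((Q j ⁻¹' {i}).indicator (h j))) ξ‖ₑ ^ 2 := by
    intro ξ
    rw [Fintype.sum_prod_type, Finset.sum_range]
    apply Finset.sum_congr rfl
    intro j _
    rw [Finset.sum_range]
  have hkh : ∀ ξ : E d, ∫⁻ ω, ‖fti (rd r Q h J ω) ξ‖ₑ ^ q ∂P ≤
      ENNReal.ofReal 3 * (∑ p : Fin J × Fin N, ‖z p ξ‖ₑ ^ 2) ^ (q / 2) := by
    intro ξ
    simp only [hexp]
    have hinj : Function.Injective (fun p : Fin J × Fin N => ((p.1 : ℕ), (p.2 : ℕ))) := by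
      rintro ⟨a1, b1⟩ ⟨a2, b2⟩ h
      simp only [Prod.mk.injEq] at h
      exact Prod.ext (Fin.ext h.1) (Fin.ext h.2)
    refine khin P (fun p : Fin J × Fin N => r p.1 p.2) (fun p => hr.meas _ _)
      (fun p ω => hr.bdd _ _ ω) ?_ q hq0 hq4 (fun p => z p ξ)
    intro a b c e hne
    apply hr.orth ((a.1 : ℕ), (a.2 : ℕ)) ((b.1 : ℕ), (b.2 : ℕ)) ((c.1 : ℕ), (c.2 : ℕ))
      ((e.1 : ℕ), (e.2 : ℕ))
    intro hp
    apply hne
    rcases hp with ⟨h1, h2⟩ | ⟨h1, h2⟩ | ⟨h1, h2⟩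
    · exact Or.inl ⟨hinj h1, hinj h2⟩
    · exact Or.inr (Or.inl ⟨hinj h1, hinj h2⟩)
    · exact Or.inr (Or.inr ⟨hinj h1, hinj h2⟩)
  have hswap : ∫⁻ ω, ∫⁻ ξ : E d, ‖fti (rd r Q h J ω) ξ‖ₑ ^ q ∂(volume : Measure (E d)) ∂P =
      ∫⁻ ξ : E d, ∫⁻ ω, ‖fti (rd r Q h J ω) ξ‖ₑ ^ q ∂P := by
    apply lintegral_lintegral_swap (f := fun ω ξ => ‖fti (rd r Q h J ω) ξ‖ₑ ^ q)
    exact ((fti_rd_meas r hr.meas Q hQm h hhi J N hN).enorm.pow_const q).aemeasurable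
  rw [hswap, ← lintegral_const_mul' _ _ ENNReal.ofReal_ne_top]
  apply lintegral_mono
  intro ξ
  simp only
  rw [← hVz ξ]
  exact hkh ξ

end Pool.Agent.N378.RD
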