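import Mathlib
import Pool.Agent.N378.RD.A

/-! Infinitely many scales. -/

set_option autoImplicit false

open MeasureTheory Set Filter Topology Complex ProbabilityTheory
open scoped Real Interval ENNReal NNReal

namespace Pool.Agent.N378.RD

universe u

/-- the Gaussian averages do not increase the sup norm -/
lemma Gi_bound {d : ℕ} (l : ℝ) (hm : 0 < mm d l) (h : S d → ℂ) (M : ℝ)
    (hM : ∀ y, ‖h y‖ ≤ M) (x : S d) : ‖Gi l h x‖ ≤ M := by
  have hM0 : 0 ≤ M := (norm_nonneg _).trans (hM x)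
  unfold Gi
  rw [norm_div, Complex.norm_real, Real.norm_eq_abs, abs_of_pos hm, div_le_iff₀ hm]
  have hk : Continuous (fun y : S d => kk l x y) := by
    unfold kk
    fun_prop
  have h1 : ∫ y, kk l x y ∂(sig d) = mm d l := mm_eq d l x
  have hint : Integrable (fun y : S d => kk l x y) (sig d) := by
    have := hk.continuousOn.integrableOn_compact (μ := sig d) (isCompact_univ (X := S d))
    rwa [integrableOn_univ] at this
  calc ‖∫ y, ((kk l x y : ℝ) : ℂ) * h y ∂(sig d)‖ ≤ ∫ y, M * kk l x y ∂(sig d) := by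
        apply norm_integral_le_of_norm_le (hint.const_mul M)
        refine Eventually.of_forall fun y => ?_
        rw [norm_mul, Complex.norm_real, Real.norm_eq_abs, mul_comm]
        have : 0 ≤ kk l x y := (Real.exp_pos _).le
        rw [abs_of_nonneg this]
        exact mul_le_mul_of_nonneg_right (hM y) this
    _ = M * mm d l := by rw [integral_const_mul, h1]

/-- the Gaussian averages are continuous -/
lemma Gi_cont {d : ℕ} (l : ℝ) (hl : 0 < l) (h : S d → ℂ) (hh : Integrable h (sig d)) :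
    Continuous (Gi l h) := by
  unfold Gi
  apply Continuous.div_const
  apply continuous_of_dominated (bound := fun y => ‖h y‖)
  · intro x
    exact (Gi_sect l hl h hh x).1
  · intro x
    refine Eventually.of_forall fun y => ?_
    rw [norm_mul]
    exact mul_le_of_le_one_left (norm_nonneg _) (kk_bound l hl x y)
  · exact hh.norm
  · refine Eventually.of_forall fun y => ?_
    have : Continuous (fun x : S d => kk l x y) := by
      unfold kk
      fun_prop
    exact (Complex.continuous_ofReal.comp this).mul continuous_const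

/-- the random density with infinitely many scales -/
noncomputable def rdi {d : ℕ} {Ω : Type u} (r : ℕ → ℕ → Ω → ℂ) (Q : ℕ → S d → ℕ)
    (h : ℕ → S d → ℂ) (ω : Ω) (x : S d) : ℂ :=
  ∑' j, Gi (lj j) (sh r Q h ω j) x

section

variable {d : ℕ} {Ω : Type u} (r : ℕ → ℕ → Ω → ℂ) (hrb : ∀ j i ω, ‖r j i ω‖ ≤ 1)
  (Q : ℕ → S d → ℕ)
  (hQm : ∀ j, Measurable (Q j)) (h : ℕ → S d → ℂ) (hhm : ∀ j, Measurable (h j))
  (M : ℕ → ℝ) (hM : Summable M) (hhM : ∀ j y, ‖h j y‖ ≤ M j)

include hrb hhM in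
lemma sh_bound (ω : Ω) (j : ℕ) (y : S d) : ‖sh r Q h ω j y‖ ≤ M j := by
  unfold sh
  rw [norm_mul]
  exact (mul_le_of_le_one_left (norm_nonneg _) (hrb j _ ω)).trans (hhM j y)

include hQm hhm in
lemma sh_meas (ω : Ω) (j : ℕ) : Measurable (sh r Q h ω j) := by
  unfold sh
  apply Measurable.mul _ (hhm j)
  exact (Measurable.of_discrete (f := fun i : ℕ => r j i ω)).comp (hQm j)

include hrb hQm hhm hhM in
lemma sh_integrable (ω : Ω) (j : ℕ) : Integrable (sh r Q h ω j) (sig d) :=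
  Integrable.of_bound (sh_meas r Q hQm h hhm ω j).aestronglyMeasurable (M j)
    (Eventually.of_forall (sh_bound r hrb Q h M hhM ω j))

lemma mm_pos (j : ℕ) : 0 < mm d (lj j) := by
  obtain ⟨C, -, h⟩ := scale_bound d
  obtain ⟨y⟩ : Nonempty (S d) := inferInstance
  exact (h j y 0).1

include hrb hhM in
lemma Gi_sh_bound (ω : Ω) (j : ℕ) (x : S d) : ‖Gi (lj j) (sh r Q h ω j) x‖ ≤ M j :=
  Gi_bound _ (mm_pos j) _ _ (sh_bound r hrb Q h M hhM ω j) x

include hrb hQm hhm hM hhM in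
lemma rdi_cont (ω : Ω) : Continuous (rdi r Q h ω) := by
  unfold rdi
  exact continuous_tsum (fun j => Gi_cont _ (lj_pos _) _ (sh_integrable r hrb Q hQm h hhm M hhM ω j)) hM
    (fun j x => Gi_sh_bound r hrb Q h M hhM ω j x)

include hrb hM hhM in
lemma rdi_bound (ω : Ω) (x : S d) : ‖rdi r Q h ω x‖ ≤ ∑' j, M j :=
  tsum_of_norm_bounded hM.hasSum (fun j => Gi_sh_bound r hrb Q h M hhM ω j x)

include hrb hM hhM in
lemma rd_bound (J : ℕ) (ω : Ω) (x : S d) : ‖rd r Q h J ω x‖ ≤ ∑' j, M j := by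
  unfold rd
  have hM0 : ∀ j, 0 ≤ M j := fun j => (norm_nonneg _).trans (hhM j x)
  calc ‖∑ j ∈ Finset.range J, Gi (lj j) (sh r Q h ω j) x‖ ≤ ∑ j ∈ Finset.range J, M j :=
        norm_sum_le_of_le _ (fun j _ => Gi_sh_bound r hrb Q h M hhM ω j x)
    _ ≤ _ := hM.sum_le_tsum _ (fun j _ => hM0 j)

include hrb hM hhM in
lemma rd_tendsto (ω : Ω) (x : S d) :
    Tendsto (fun J => rd r Q h J ω x) atTop (𝓝 (rdi r Q h ω x)) := by
  have hs : Summable (fun j => Gi (lj j) (sh r Q h ω j) x) :=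
    Summable.of_norm_bounded hM (fun j => Gi_sh_bound r hrb Q h M hhM ω j x)
  exact hs.hasSum.tendsto_sum_nat

include hrb hQm hhm hM hhM in
lemma fti_tendsto (ω : Ω) (ξ : E d) :
    Tendsto (fun J => fti (rd r Q h J ω) ξ) atTop (𝓝 (fti (rdi r Q h ω) ξ)) := by
  unfold fti
  apply tendsto_integral_of_dominated_convergence (bound := fun _ => ∑' j, M j)
  · intro J
    apply (ch_cont ξ).aestronglyMeasurable.mul
    apply Continuous.aestronglyMeasurable
    unfold rd
    apply continuous_finsetSum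
    intro j _
    exact Gi_cont _ (lj_pos _) _ (sh_integrable r hrb Q hQm h hhm M hhM ω j)
  · exact integrable_const _
  · intro J
    refine Eventually.of_forall fun x => ?_
    rw [norm_mul, ch_norm, one_mul]
    exact rd_bound r hrb Q h M hM hhM J ω x
  · refine Eventually.of_forall fun x => ?_
    exact (rd_tendsto r hrb Q h M hM hhM ω x).const_mul _

end

/-- **Fatou.** A bound for all truncations gives the bound for infinitely many scales. -/
theorem fatou_bound (d : ℕ) (q : ℝ) {Ω : Type u} [MeasurableSpace Ω] (P : Measure Ω)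
    [IsProbabilityMeasure P]
    (r : ℕ → ℕ → Ω → ℂ) (hr : ∀ j i, Measurable (r j i)) (hrb : ∀ j i ω, ‖r j i ω‖ ≤ 1)
    (Q : ℕ → S d → ℕ) (hQm : ∀ j, Measurable (Q j))
    (N : ℕ → ℕ) (hN : ∀ j y, Q j y < N j)
    (h : ℕ → S d → ℂ) (hhm : ∀ j, Measurable (h j))
    (M : ℕ → ℝ) (hM : Summable M) (hhM : ∀ j y, ‖h j y‖ ≤ M j) (B : ℝ≥0∞)
    (hb : ∀ J, ∫⁻ ω, ∫⁻ ξ : E d, ‖fti (rd r Q h J ω) ξ‖ₑ ^ q ∂(volume : Measure (E d)) ∂P ≤ B) :
    Measurable (fun ω => ∫⁻ ξ : E d, ‖fti (rdi r Q h ω) ξ‖ₑ ^ q) ∧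
      ∫⁻ ω, ∫⁻ ξ : E d, ‖fti (rdi r Q h ω) ξ‖ₑ ^ q ∂(volume : Measure (E d)) ∂P ≤ B := by
  have hhi : ∀ j, Integrable (h j) (sig d) := fun j =>
    Integrable.of_bound (hhm j).aestronglyMeasurable (M j) (Eventually.of_forall (hhM j))
  have hNJ : ∀ J, ∀ j < J, ∀ y, Q j y < (Finset.range J).sup N := fun J j hj y =>
    lt_of_lt_of_le (hN j y) (Finset.le_sup (f := N) (Finset.mem_range.2 hj))
  have hjm : ∀ J, Measurable (fun p : Ω × E d => fti (rd r Q h J p.1) p.2) := fun J =>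
    fti_rd_meas r hr Q hQm h hhi J _ (hNJ J)
  have hlim : ∀ (p : Ω × E d), Tendsto (fun J => fti (rd r Q h J p.1) p.2) atTop
      (𝓝 (fti (rdi r Q h p.1) p.2)) := fun p => fti_tendsto r hrb Q hQm h hhm M hM hhM p.1 p.2
  have hjm2 : Measurable (fun p : Ω × E d => fti (rdi r Q h p.1) p.2) :=
    measurable_of_tendsto_metrizable hjm (tendsto_pi_nhds.2 hlim)
  have hm2 : Measurable (fun p : Ω × E d => ‖fti (rdi r Q h p.1) p.2‖ₑ ^ q) :=
    hjm2.enorm.pow_const q
  have hm1 : ∀ J, Measurable (fun p : Ω × E d => ‖fti (rd r Q h J p.1) p.2‖ₑ ^ q) := fun J =>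
    (hjm J).enorm.pow_const q
  refine ⟨Measurable.lintegral_prod_right' (f := fun p : Ω × E d =>
    ‖fti (rdi r Q h p.1) p.2‖ₑ ^ q) hm2, ?_⟩
  calc ∫⁻ ω, ∫⁻ ξ : E d, ‖fti (rdi r Q h ω) ξ‖ₑ ^ q ∂(volume : Measure (E d)) ∂P
      ≤ ∫⁻ ω, liminf (fun J => ∫⁻ ξ : E d, ‖fti (rd r Q h J ω) ξ‖ₑ ^ q) atTop ∂P := by
        apply lintegral_mono
        intro ω
        have h1 : ∀ ξ : E d, ‖fti (rdi r Q h ω) ξ‖ₑ ^ q =
            liminf (fun J => ‖fti (rd r Q h J ω) ξ‖ₑ ^ q) atTop := by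
          intro ξ
          symm
          apply Tendsto.liminf_eq
          have hl := hlim (ω, ξ)
          have hl2 := (continuous_enorm.tendsto _).comp hl
          have hl3 := (ENNReal.continuous_rpow_const (y := q)).tendsto (‖fti (rdi r Q h ω) ξ‖ₑ)
          exact hl3.comp hl2
        have h2 : ∀ J, Measurable (fun ξ : E d => ‖fti (rd r Q h J ω) ξ‖ₑ ^ q) := by
          intro J
          have h3 : Measurable (fun ξ : E d => ((ω, ξ) : Ω × E d)) := measurable_prodMk_left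
          have h4 := (hm1 J).comp h3
          exact h4
        calc ∫⁻ ξ : E d, ‖fti (rdi r Q h ω) ξ‖ₑ ^ q =
            ∫⁻ ξ : E d, liminf (fun J => ‖fti (rd r Q h J ω) ξ‖ₑ ^ q) atTop :=
              lintegral_congr h1
          _ ≤ _ := lintegral_liminf_le h2
    _ ≤ liminf (fun J => ∫⁻ ω, ∫⁻ ξ : E d, ‖fti (rd r Q h J ω) ξ‖ₑ ^ q ∂(volume : Measure (E d)) ∂P)
          atTop := by
        apply lintegral_liminf_le
        intro J
        exact Measurable.lintegral_prod_right' (f := fun p : Ω × E d =>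
          ‖fti (rd r Q h J p.1) p.2‖ₑ ^ q) (hm1 J)
    _ ≤ _ := by
        apply liminf_le_of_le
        · isBoundedDefault
        · intro b hb'
          obtain ⟨J, hJ⟩ := hb'.exists
          exact hJ.trans (hb J)

end Pool.Agent.N378.RD
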