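import Mathlib
import Pool.Agent.N378.RD.B
import Pool.Agent.H789R2.FR.L2

/-! Weighted `L²` estimates. -/

set_option autoImplicit false

open MeasureTheory Set Filter Topology Complex
open scoped Real Interval ENNReal NNReal

namespace Pool.Agent.N378.RD

/-- extension of a function on the sphere -/
noncomputable def ex {d : ℕ} (f : S d → ℂ) : E d → ℂ := Function.extend Subtype.val f 0

lemma emb (d : ℕ) : MeasurableEmbedding (Subtype.val : S d → E d) :=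
  MeasurableEmbedding.subtype_coe Metric.isClosed_sphere.measurableSet

lemma ex_meas {d : ℕ} (f : S d → ℂ) (hf : Measurable f) : Measurable (ex f) :=
  (emb d).measurable_extend hf measurable_zero

lemma ex_val {d : ℕ} (f : S d → ℂ) (y : S d) : ex f (y : E d) = f y :=
  Subtype.val_injective.extend_apply _ _ _

lemma ex_bound {d : ℕ} (f : S d → ℂ) (M : ℝ) (hM : ∀ y, ‖f y‖ ≤ M) (x : E d) : ‖ex f x‖ ≤ M := by
  obtain ⟨y0⟩ : Nonempty (S d) := inferInstance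
  by_cases h : ∃ y : S d, (y : E d) = x
  · obtain ⟨y, rfl⟩ := h
    rw [ex_val]
    exact hM y
  · unfold ex
    rw [Function.extend_apply' _ _ _ h]
    simpa using (norm_nonneg _).trans (hM y0)

lemma sg_eq (d : ℕ) : Pool.Agent.H789R2.FR.sg (d + 2 + 1) = (sig d).map Subtype.val := rfl

lemma T_eq' {d : ℕ} (f : S d → ℂ) (ξ : E d) :
    Pool.Agent.H789R2.FR.T (ex f) ((2 * π) • ξ) = fti f ξ := by
  unfold Pool.Agent.H789R2.FR.T fti
  rw [sg_eq, (emb d).integral_map]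
  apply integral_congr_ae
  refine Eventually.of_forall fun x => ?_
  simp only
  rw [ex_val]
  unfold ch
  congr 2
  rw [inner_smul_left, real_inner_comm (x : E d) ξ]
  simp only [conj_trivial]

/-- Agmon–Hörmander -/
lemma AH (d : ℕ) : ∃ C : ℝ, 0 < C ∧ ∀ f : S d → ℂ, Measurable f → (∃ M : ℝ, ∀ y, ‖f y‖ ≤ M) →
    ∀ l : ℝ, 0 < l →
    ∫⁻ ξ : E d, ENNReal.ofReal (Real.exp (-(‖(2 * π) • ξ‖ ^ 2 / l ^ 2))) * ‖fti f ξ‖ₑ ^ 2 ≤
      ENNReal.ofReal (C * l) * ∫⁻ y, ‖f y‖ₑ ^ 2 ∂(sig d) := by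
  obtain ⟨C, hC, h⟩ := Pool.Agent.H789R2.FR.L2_bound (d + 2 + 1) (by omega)
  refine ⟨C, hC, fun f hf ⟨M, hM⟩ l hl => ?_⟩
  have hfin : IsFiniteMeasure (Pool.Agent.H789R2.FR.sg (d + 2 + 1)) :=
    Pool.Agent.H789R2.FR.sg_finite _
  obtain ⟨y0⟩ : Nonempty (S d) := inferInstance
  have hM0 : 0 ≤ M := (norm_nonneg _).trans (hM y0)
  have h1 := h (ex f) (ex_meas f hf) ⟨M, ex_bound f M hM⟩ l hl 0
  simp only [sub_zero] at h1
  have hTm : StronglyMeasurable (Pool.Agent.H789R2.FR.T (ex f)) :=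
    Pool.Agent.H789R2.FR.L2.measurable_T (ex f) (ex_meas f hf)
  have hTb : ∀ x, ‖Pool.Agent.H789R2.FR.T (ex f) x‖ ≤
      M * (Pool.Agent.H789R2.FR.sg (d + 2 + 1)).real univ :=
    Pool.Agent.H789R2.FR.L2.norm_T_le (ex f) M (ex_bound f M hM)
  set g : E d → ℝ≥0∞ := fun x => ENNReal.ofReal (Real.exp (-(‖x‖ ^ 2 / l ^ 2))) *
    ‖Pool.Agent.H789R2.FR.T (ex f) x‖ₑ ^ 2 with hg
  have hgm : Measurable g := by
    have h2 : Measurable (fun x : E d => ENNReal.ofReal (Real.exp (-(‖x‖ ^ 2 / l ^ 2)))) := by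
      fun_prop
    exact h2.mul (hTm.measurable.enorm.pow_const 2)
  have e1 : ∫⁻ ξ : E d, ENNReal.ofReal (Real.exp (-(‖(2 * π) • ξ‖ ^ 2 / l ^ 2))) * ‖fti f ξ‖ₑ ^ 2 =
      ∫⁻ ξ : E d, g ((2 * π) • ξ) := by
    apply lintegral_congr
    intro ξ
    simp only [hg]
    rw [T_eq']
  rw [e1]
  refine (scale_var (2 * π) (by linarith [Real.pi_gt_three]) g hgm).trans ?_
  have hW := Pool.Agent.H789R2.FR.L2.integrable_W (n := d + 2 + 1) hl
  have hint : Integrable (fun x : E d => Real.exp (-‖x‖ ^ 2 / l ^ 2) *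
      ‖Pool.Agent.H789R2.FR.T (ex f) x‖ ^ 2) := by
    refine Integrable.mul_bdd (c := (M * (Pool.Agent.H789R2.FR.sg (d + 2 + 1)).real univ) ^ 2) hW ?_ ?_
    · exact (hTm.norm.pow 2).aestronglyMeasurable
    · refine Eventually.of_forall fun x => ?_
      rw [norm_pow, norm_norm]
      exact pow_le_pow_left₀ (norm_nonneg _) (hTb x) 2
  have e2 : ∫⁻ x, g x = ENNReal.ofReal (∫ x : E d, Real.exp (-‖x‖ ^ 2 / l ^ 2) *
      ‖Pool.Agent.H789R2.FR.T (ex f) x‖ ^ 2) := by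
    rw [ofReal_integral_eq_lintegral_ofReal hint (Eventually.of_forall fun x => by positivity)]
    apply lintegral_congr
    intro x
    simp only [hg]
    rw [ENNReal.ofReal_mul (Real.exp_pos _).le, ENNReal.ofReal_pow (norm_nonneg _), ofReal_norm,
      neg_div]
  rw [e2]
  have e3 : ∫ w, ‖ex f w‖ ^ 2 ∂(Pool.Agent.H789R2.FR.sg (d + 2 + 1)) = ∫ y, ‖f y‖ ^ 2 ∂(sig d) := by
    rw [sg_eq, (emb d).integral_map]
    apply integral_congr_ae
    refine Eventually.of_forall fun x => ?_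
    simp only
    rw [ex_val]
  rw [e3] at h1
  have hint2 : Integrable (fun y => ‖f y‖ ^ 2) (sig d) := by
    apply Integrable.of_bound (hf.norm.pow_const 2).aestronglyMeasurable (M ^ 2)
    refine Eventually.of_forall fun x => ?_
    rw [norm_pow, norm_norm]
    exact pow_le_pow_left₀ (norm_nonneg _) (hM x) 2
  have e4 : ∫⁻ y, ‖f y‖ₑ ^ 2 ∂(sig d) = ENNReal.ofReal (∫ y, ‖f y‖ ^ 2 ∂(sig d)) := by
    rw [ofReal_integral_eq_lintegral_ofReal hint2 (Eventually.of_forall fun x => by positivity)]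
    apply lintegral_congr
    intro x
    rw [ENNReal.ofReal_pow (norm_nonneg _), ofReal_norm]
  rw [e4, ← ENNReal.ofReal_mul (by positivity)]
  exact ENNReal.ofReal_le_ofReal h1

/-- a power weight is dominated by Gaussians -/
lemma weight_le (β : ℝ) (hβ : 0 ≤ β) {t : ℝ} (ht : 0 ≤ t) :
    ∃ m : ℕ, (1 + t) ^ (-β) ≤ Real.exp 1 * 2 ^ β * ((2 : ℝ) ^ (-β)) ^ m *
      Real.exp (-(t ^ 2 / (2 ^ m) ^ 2)) := by
  have hex : ∃ m : ℕ, t ≤ 2 ^ m := by
    obtain ⟨m, hm⟩ := pow_unbounded_of_one_lt t (by norm_num : (1 : ℝ) < 2)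
    exact ⟨m, hm.le⟩
  classical
  set m := Nat.find hex with hm
  have hm1 : t ≤ 2 ^ m := Nat.find_spec hex
  refine ⟨m, ?_⟩
  have h2m : (0 : ℝ) < 2 ^ m := by positivity
  have he : 1 ≤ Real.exp 1 * Real.exp (-(t ^ 2 / (2 ^ m) ^ 2)) := by
    rw [← Real.exp_add]
    apply Real.one_le_exp
    have : t ^ 2 / (2 ^ m) ^ 2 ≤ 1 := by
      rw [div_le_one (by positivity)]
      exact pow_le_pow_left₀ ht hm1 2
    linarith
  have hlow : (2 : ℝ) ^ m / 2 ≤ 1 + t := by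
    rcases Nat.eq_zero_or_pos m with h0 | h0
    · rw [h0]
      norm_num
      linarith
    · have h1 : ¬ t ≤ 2 ^ (m - 1) := Nat.find_min hex (by omega)
      have h2 : (2 : ℝ) ^ m = 2 ^ (m - 1) * 2 := by
        rw [← pow_succ]
        congr 1
        omega
      rw [h2]
      push Not at h1
      linarith
  have h3 : (1 + t) ^ (-β) ≤ 2 ^ β * ((2 : ℝ) ^ (-β)) ^ m := by
    calc (1 + t) ^ (-β) ≤ ((2 : ℝ) ^ m / 2) ^ (-β) :=
          Real.rpow_le_rpow_of_nonpos (by positivity) hlow (by linarith)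
      _ = _ := by
          rw [Real.div_rpow (by positivity) (by norm_num), ← Real.rpow_natCast 2 m,
            ← Real.rpow_natCast _ m, ← Real.rpow_mul (by norm_num), ← Real.rpow_mul (by norm_num),
            mul_comm (m : ℝ) (-β), Real.rpow_neg (by norm_num) β]
          field_simp
  have h4 : 0 ≤ 2 ^ β * ((2 : ℝ) ^ (-β)) ^ m := by positivity
  calc (1 + t) ^ (-β) ≤ 2 ^ β * ((2 : ℝ) ^ (-β)) ^ m * 1 := by rw [mul_one]; exact h3
    _ ≤ 2 ^ β * ((2 : ℝ) ^ (-β)) ^ m * (Real.exp 1 * Real.exp (-(t ^ 2 / (2 ^ m) ^ 2))) := by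
        gcongr
    _ = _ := by ring

/-- **Weighted `L²` bound for the Fourier transform.** -/
theorem wL2 (d : ℕ) (β : ℝ) (hβ : 1 < β) : ∃ C : ℝ, 0 < C ∧ ∀ f : S d → ℂ, Measurable f →
    (∃ M : ℝ, ∀ y, ‖f y‖ ≤ M) →
    ∫⁻ ξ : E d, ENNReal.ofReal ((1 + ‖ξ‖) ^ (-β)) * ‖fti f ξ‖ₑ ^ 2 ≤
      ENNReal.ofReal C * ∫⁻ y, ‖f y‖ₑ ^ 2 ∂(sig d) := by
  obtain ⟨C, hC, h⟩ := AH d
  set a : ℝ := Real.exp 1 * 2 ^ β * (2 * π) ^ β with ha
  set s : ℝ := (2 : ℝ) ^ (-β) * 2 with hs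
  have hs0 : 0 < s := by positivity
  have hs1 : s < 1 := by
    have : s = (2 : ℝ) ^ (1 - β) := by
      rw [hs, sub_eq_add_neg, Real.rpow_add (by norm_num), Real.rpow_one]
      ring
    rw [this]
    exact Real.rpow_lt_one_of_one_lt_of_neg (by norm_num) (by linarith)
  refine ⟨a * C * (1 - s)⁻¹, by
    have : 0 < (1 - s)⁻¹ := inv_pos.2 (by linarith)
    positivity, fun f hf hM => ?_⟩
  have hfi : Integrable f (sig d) := by
    obtain ⟨M, hM⟩ := hM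
    exact Integrable.of_bound hf.aestronglyMeasurable M (Eventually.of_forall hM)
  have hmeas : Measurable (fti f) := (fti_cont f hfi).measurable
  calc ∫⁻ ξ : E d, ENNReal.ofReal ((1 + ‖ξ‖) ^ (-β)) * ‖fti f ξ‖ₑ ^ 2
      ≤ ∫⁻ ξ : E d, ∑' m : ℕ, ENNReal.ofReal (a * ((2 : ℝ) ^ (-β)) ^ m) *
          (ENNReal.ofReal (Real.exp (-(‖(2 * π) • ξ‖ ^ 2 / (2 ^ m) ^ 2))) * ‖fti f ξ‖ₑ ^ 2) := by
        apply lintegral_mono
        intro ξ
        obtain ⟨m, hm⟩ := weight_le β (by linarith) (norm_nonneg ((2 * π) • ξ))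
        have hpi := Real.pi_gt_three
        have h1 : (1 + ‖ξ‖) ^ (-β) ≤ (2 * π) ^ β * (1 + ‖(2 * π) • ξ‖) ^ (-β) := by
          have e1 : ‖(2 * π) • ξ‖ = 2 * π * ‖ξ‖ := by
            rw [norm_smul, Real.norm_eq_abs, abs_of_pos (by positivity)]
          have e2 : (1 + ‖(2 * π) • ξ‖) / (2 * π) ≤ 1 + ‖ξ‖ := by
            rw [div_le_iff₀ (by positivity), e1]
            nlinarith [norm_nonneg ξ]
          calc (1 + ‖ξ‖) ^ (-β) ≤ ((1 + ‖(2 * π) • ξ‖) / (2 * π)) ^ (-β) :=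
                Real.rpow_le_rpow_of_nonpos (by positivity) e2 (by linarith)
            _ = _ := by
                rw [Real.div_rpow (by positivity) (by positivity),
                  Real.rpow_neg (by positivity : 0 ≤ 2 * π)]
                field_simp
        have h2 : (1 + ‖ξ‖) ^ (-β) ≤ a * ((2 : ℝ) ^ (-β)) ^ m *
            Real.exp (-(‖(2 * π) • ξ‖ ^ 2 / (2 ^ m) ^ 2)) := by
          calc (1 + ‖ξ‖) ^ (-β) ≤ (2 * π) ^ β * (1 + ‖(2 * π) • ξ‖) ^ (-β) := h1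
            _ ≤ (2 * π) ^ β * (Real.exp 1 * 2 ^ β * ((2 : ℝ) ^ (-β)) ^ m *
                Real.exp (-(‖(2 * π) • ξ‖ ^ 2 / (2 ^ m) ^ 2))) := by gcongr
            _ = _ := by rw [ha]; ring
        calc ENNReal.ofReal ((1 + ‖ξ‖) ^ (-β)) * ‖fti f ξ‖ₑ ^ 2
            ≤ ENNReal.ofReal (a * ((2 : ℝ) ^ (-β)) ^ m *
              Real.exp (-(‖(2 * π) • ξ‖ ^ 2 / (2 ^ m) ^ 2))) * ‖fti f ξ‖ₑ ^ 2 := by gcongr
          _ = ENNReal.ofReal (a * ((2 : ℝ) ^ (-β)) ^ m) *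
              (ENNReal.ofReal (Real.exp (-(‖(2 * π) • ξ‖ ^ 2 / (2 ^ m) ^ 2))) * ‖fti f ξ‖ₑ ^ 2) := by
              rw [ENNReal.ofReal_mul (by positivity), mul_assoc]
          _ ≤ _ := ENNReal.le_tsum (f := fun m : ℕ => ENNReal.ofReal (a * ((2 : ℝ) ^ (-β)) ^ m) *
              (ENNReal.ofReal (Real.exp (-(‖(2 * π) • ξ‖ ^ 2 / (2 ^ m) ^ 2))) * ‖fti f ξ‖ₑ ^ 2)) m
    _ = ∑' m : ℕ, ENNReal.ofReal (a * ((2 : ℝ) ^ (-β)) ^ m) *
          ∫⁻ ξ : E d, ENNReal.ofReal (Real.exp (-(‖(2 * π) • ξ‖ ^ 2 / (2 ^ m) ^ 2))) *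
            ‖fti f ξ‖ₑ ^ 2 := by
        rw [lintegral_tsum]
        · congr 1
          funext m
          rw [lintegral_const_mul' _ _ ENNReal.ofReal_ne_top]
        · intro m
          apply Measurable.aemeasurable
          apply Measurable.const_mul
          have h2 : Measurable (fun x : E d =>
              ENNReal.ofReal (Real.exp (-(‖(2 * π) • x‖ ^ 2 / (2 ^ m) ^ 2)))) := by
            fun_prop
          exact h2.mul (hmeas.enorm.pow_const 2)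
    _ ≤ ∑' m : ℕ, ENNReal.ofReal (a * ((2 : ℝ) ^ (-β)) ^ m) *
          (ENNReal.ofReal (C * 2 ^ m) * ∫⁻ y, ‖f y‖ₑ ^ 2 ∂(sig d)) := by
        apply ENNReal.tsum_le_tsum
        intro m
        exact mul_le_mul' le_rfl (h f hf hM (2 ^ m) (by positivity))
    _ = ∑' m : ℕ, ENNReal.ofReal (a * C * s ^ m) * ∫⁻ y, ‖f y‖ₑ ^ 2 ∂(sig d) := by
        congr 1
        funext m
        rw [← mul_assoc, ← ENNReal.ofReal_mul (by positivity)]
        congr 2
        rw [hs, mul_pow]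
        ring
    _ = _ := by
        rw [ENNReal.tsum_mul_right, ← ENNReal.ofReal_tsum_of_nonneg]
        · rw [tsum_mul_left, tsum_geometric_of_lt_one hs0.le hs1]
        · intro m
          positivity
        · exact (summable_geometric_of_lt_one hs0.le hs1).mul_left _

/-- contraction on `L²` -/
lemma Gi_L2 {d : ℕ} (l : ℝ) (hl : 0 < l) (hm : 0 < mm d l) (h : S d → ℂ) (hh : Measurable h) :
    ∫⁻ x, ‖Gi l h x‖ₑ ^ 2 ∂(sig d) ≤ ∫⁻ y, ‖h y‖ₑ ^ 2 ∂(sig d) := by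
  have hk0 : ∀ x y : S d, 0 ≤ kk l x y := fun x y => (Real.exp_pos _).le
  have hkm : Measurable (fun q : S d × S d => ENNReal.ofReal (kk l q.1 q.2)) :=
    ENNReal.measurable_ofReal.comp (kk_cont l).measurable
  have hkl : ∀ x : S d, Measurable (fun y : S d => ENNReal.ofReal (kk l x y)) := fun x => by
    have h1 : Continuous (fun y : S d => kk l x y) := by
      unfold kk
      fun_prop
    exact ENNReal.measurable_ofReal.comp h1.measurable
  have hmass : ∀ x : S d, ∫⁻ y, ENNReal.ofReal (kk l x y) ∂(sig d) = ENNReal.ofReal (mm d l) := by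
    intro x
    rw [← mm_eq d l x, ofReal_integral_eq_lintegral_ofReal]
    · rfl
    · have hk : Continuous (fun y : S d => kk l x y) := by
        unfold kk
        fun_prop
      have := hk.continuousOn.integrableOn_compact (μ := sig d) (isCompact_univ (X := S d))
      rwa [integrableOn_univ] at this
    · exact Eventually.of_forall fun y => hk0 x y
  have hsymm : ∀ x y : S d, kk l x y = kk l y x := by
    intro x y
    unfold kk
    rw [real_inner_comm]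
  have hM0 : ENNReal.ofReal (mm d l) ≠ 0 := (ENNReal.ofReal_pos.2 hm).ne'
  have hpt : ∀ x : S d, ‖Gi l h x‖ₑ ^ 2 ≤ (ENNReal.ofReal (mm d l))⁻¹ *
      ∫⁻ y, ‖h y‖ₑ ^ 2 * ENNReal.ofReal (kk l x y) ∂(sig d) := by
    intro x
    have h1 : ‖Gi l h x‖ₑ ≤ (ENNReal.ofReal (mm d l))⁻¹ *
        ∫⁻ y, ‖h y‖ₑ * ENNReal.ofReal (kk l x y) ∂(sig d) := by
      unfold Gi
      rw [div_eq_inv_mul, enorm_mul]
      refine mul_le_mul' (le_of_eq ?_) ?_
      · rw [← Complex.ofReal_inv, ← ofReal_norm, Complex.norm_real, Real.norm_eq_abs,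
          abs_of_pos (inv_pos.2 hm), ENNReal.ofReal_inv_of_pos hm]
      · refine (enorm_integral_le_lintegral_enorm _).trans (le_of_eq ?_)
        apply lintegral_congr
        intro y
        rw [enorm_mul, mul_comm]
        congr 1
        rw [← ofReal_norm, Complex.norm_real, Real.norm_eq_abs, abs_of_nonneg (hk0 x y)]
    have h2 := holder (sig d) 2 (by norm_num) (fun y => ‖h y‖ₑ) (fun y => ENNReal.ofReal (kk l x y))
      hh.enorm (hkl x)
    rw [show (2 : ℝ) - 1 = 1 by norm_num, ENNReal.rpow_one, hmass x] at h2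
    calc ‖Gi l h x‖ₑ ^ 2 ≤ ((ENNReal.ofReal (mm d l))⁻¹ *
        ∫⁻ y, ‖h y‖ₑ * ENNReal.ofReal (kk l x y) ∂(sig d)) ^ 2 := pow_le_pow_left' h1 2
      _ = (ENNReal.ofReal (mm d l))⁻¹ ^ 2 *
          (∫⁻ y, ‖h y‖ₑ * ENNReal.ofReal (kk l x y) ∂(sig d)) ^ (2 : ℝ) := by
          rw [mul_pow, show (2 : ℝ) = ((2 : ℕ) : ℝ) by norm_num, ENNReal.rpow_natCast]
      _ ≤ (ENNReal.ofReal (mm d l))⁻¹ ^ 2 * (ENNReal.ofReal (mm d l) *
          ∫⁻ y, ‖h y‖ₑ ^ (2 : ℝ) * ENNReal.ofReal (kk l x y) ∂(sig d)) := by gcongr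
      _ = _ := by
          rw [sq, mul_assoc, ← mul_assoc (ENNReal.ofReal (mm d l))⁻¹ (ENNReal.ofReal (mm d l)),
            ENNReal.inv_mul_cancel hM0 ENNReal.ofReal_ne_top, one_mul]
          congr 1
          apply lintegral_congr
          intro y
          rw [show (2 : ℝ) = ((2 : ℕ) : ℝ) by norm_num, ENNReal.rpow_natCast]
  calc ∫⁻ x, ‖Gi l h x‖ₑ ^ 2 ∂(sig d) ≤ ∫⁻ x, (ENNReal.ofReal (mm d l))⁻¹ *
        ∫⁻ y, ‖h y‖ₑ ^ 2 * ENNReal.ofReal (kk l x y) ∂(sig d) ∂(sig d) := lintegral_mono hpt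
    _ = (ENNReal.ofReal (mm d l))⁻¹ *
        ∫⁻ x, ∫⁻ y, ‖h y‖ₑ ^ 2 * ENNReal.ofReal (kk l x y) ∂(sig d) ∂(sig d) := by
        rw [lintegral_const_mul' _ _ (ENNReal.inv_ne_top.2 hM0)]
    _ = (ENNReal.ofReal (mm d l))⁻¹ *
        ∫⁻ y, ∫⁻ x, ‖h y‖ₑ ^ 2 * ENNReal.ofReal (kk l x y) ∂(sig d) ∂(sig d) := by
        congr 1
        apply lintegral_lintegral_swap (f := fun x y => ‖h y‖ₑ ^ 2 * ENNReal.ofReal (kk l x y))
        exact (((hh.enorm.pow_const 2).comp measurable_snd).mul hkm).aemeasurable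
    _ = (ENNReal.ofReal (mm d l))⁻¹ * ∫⁻ y, ‖h y‖ₑ ^ 2 * ENNReal.ofReal (mm d l) ∂(sig d) := by
        congr 1
        apply lintegral_congr
        intro y
        simp only [hsymm _ y]
        rw [lintegral_const_mul _ (hkl y), hmass y]
    _ = _ := by
        rw [lintegral_mul_const' _ _ ENNReal.ofReal_ne_top, mul_comm, mul_assoc,
          ENNReal.mul_inv_cancel hM0 ENNReal.ofReal_ne_top, mul_one]

end Pool.Agent.N378.RD
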