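import Mathlib
import Pool.Agent.N378.RD.C

/-! The main estimate. -/

set_option autoImplicit false

open MeasureTheory Set Filter Topology Complex
open scoped Real Interval ENNReal NNReal

namespace Pool.Agent.N378.RD

universe u

/-- sup bound for one scale -/
lemma sup_bound (d : ℕ) (γ θ : ℝ) (hθ : 0 ≤ θ) (hθd : θ < ((d : ℝ) + 2) / 2) :
    ∃ C : ℝ, 0 < C ∧ ∀ (K : ℝ), 0 < K → ∀ M : ℝ, 0 ≤ M → ∀ (j : ℕ) (Q : S d → ℕ), Measurable Q →
      (∀ i, sig d (Q ⁻¹' {i}) ≤ ENNReal.ofReal (K * 2 ^ (-(γ * ((d : ℝ) + 2) * j)))) →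
      ∀ h : S d → ℂ, Measurable h → (∀ y, ‖h y‖ ≤ M) → ∀ (N : ℕ) (ξ : E d),
      ∑ i ∈ Finset.range N, ‖fti (Gi (lj j) ((Q ⁻¹' {i}).indicator h)) ξ‖ₑ ^ 2 ≤
        ENNReal.ofReal (C * K * M ^ 2 * (1 + ‖ξ‖) ^ (-(2 * θ))) *
          ENNReal.ofReal (((2 : ℝ) ^ (-(γ * ((d : ℝ) + 2) - 2 * θ))) ^ j) := by
  obtain ⟨C1, hC1, hsc⟩ := scale_bound d
  obtain ⟨C2, hC2, hw⟩ := wj_int d θ hθ hθd
  refine ⟨C1 * C2, by positivity, fun K hK M hM0 j Q hQm hQ h hhm hM N ξ => ?_⟩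
  set κ := (2 * π) • ξ with hκ
  obtain ⟨y0⟩ : Nonempty (S d) := inferInstance
  have hm0 : 0 < mm d (lj j) := (hsc j y0 κ).1
  have hhi : Integrable h (sig d) :=
    Integrable.of_bound hhm.aestronglyMeasurable M (Eventually.of_forall hM)
  have hA : ∀ i, MeasurableSet (Q ⁻¹' {i}) := fun i => hQm (measurableSet_singleton i)
  have h2jp : (0 : ℝ) < 2 ^ (j * (d + 2)) := by positivity
  set c0 : ℝ := K * 2 ^ (-(γ * ((d : ℝ) + 2) * j)) with hc0
  have hc00 : 0 < c0 := by positivity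
  -- pointwise in y
  have hpt : ∀ y : S d, ENNReal.ofReal (1 / mm d (lj j) ^ 2) * (‖h y‖ₑ ^ 2 * ‖Z (lj j) y κ‖ₑ ^ 2) ≤
      ENNReal.ofReal (M ^ 2 * C1 * 2 ^ (j * (d + 2))) * wj j y κ := by
    intro y
    have h1 := (hsc j y κ).2
    have h2 : ENNReal.ofReal (2 ^ (j * (d + 2))) * ENNReal.ofReal (1 / 2 ^ (j * (d + 2))) = 1 := by
      rw [← ENNReal.ofReal_mul h2jp.le, mul_one_div_cancel h2jp.ne', ENNReal.ofReal_one]
    have h3 : ‖h y‖ₑ ^ 2 ≤ ENNReal.ofReal (M ^ 2) := by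
      rw [ENNReal.ofReal_pow hM0, ← ofReal_norm]
      exact pow_le_pow_left' (ENNReal.ofReal_le_ofReal (hM y)) 2
    calc ENNReal.ofReal (1 / mm d (lj j) ^ 2) * (‖h y‖ₑ ^ 2 * ‖Z (lj j) y κ‖ₑ ^ 2)
        = ‖h y‖ₑ ^ 2 * ((ENNReal.ofReal (2 ^ (j * (d + 2))) * ENNReal.ofReal (1 / 2 ^ (j * (d + 2)))) *
          (ENNReal.ofReal (1 / mm d (lj j) ^ 2) * ‖Z (lj j) y κ‖ₑ ^ 2)) := by
          rw [h2, one_mul]
          ring
      _ = ‖h y‖ₑ ^ 2 * (ENNReal.ofReal (2 ^ (j * (d + 2))) *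
          (ENNReal.ofReal (1 / mm d (lj j) ^ 2) * ENNReal.ofReal (1 / 2 ^ (j * (d + 2))) *
            ‖Z (lj j) y κ‖ₑ ^ 2)) := by ring
      _ ≤ ENNReal.ofReal (M ^ 2) * (ENNReal.ofReal (2 ^ (j * (d + 2))) *
          (ENNReal.ofReal C1 * wj j y κ)) := by gcongr
      _ = _ := by
          rw [← mul_assoc, ← mul_assoc, ← ENNReal.ofReal_mul (by positivity),
            ← ENNReal.ofReal_mul (by positivity)]
          congr 2
          ring
  have h2 : ∀ i, ‖fti (Gi (lj j) ((Q ⁻¹' {i}).indicator h)) ξ‖ₑ ^ 2 ≤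
      ENNReal.ofReal c0 * ENNReal.ofReal (M ^ 2 * C1 * 2 ^ (j * (d + 2))) *
        ∫⁻ y in Q ⁻¹' {i}, wj j y κ ∂(sig d) := by
    intro i
    refine (piece_sq (lj j) (lj_pos j) hm0 h hhm hhi _ (hA i) ξ).trans ?_
    rw [← hκ]
    calc ENNReal.ofReal (1 / mm d (lj j) ^ 2) * (sig d (Q ⁻¹' {i}) *
          ∫⁻ y in Q ⁻¹' {i}, ‖h y‖ₑ ^ 2 * ‖Z (lj j) y κ‖ₑ ^ 2 ∂(sig d))
        = sig d (Q ⁻¹' {i}) * ∫⁻ y in Q ⁻¹' {i},
            ENNReal.ofReal (1 / mm d (lj j) ^ 2) * (‖h y‖ₑ ^ 2 * ‖Z (lj j) y κ‖ₑ ^ 2) ∂(sig d) := by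
          rw [lintegral_const_mul' _ _ ENNReal.ofReal_ne_top]
          ring
      _ ≤ ENNReal.ofReal c0 * ∫⁻ y in Q ⁻¹' {i},
            ENNReal.ofReal (M ^ 2 * C1 * 2 ^ (j * (d + 2))) * wj j y κ ∂(sig d) := by
          refine mul_le_mul' (hQ i) ?_
          exact lintegral_mono hpt
      _ = _ := by
          rw [lintegral_const_mul' _ _ ENNReal.ofReal_ne_top, ← mul_assoc]
  have h3 : ∑ i ∈ Finset.range N, ∫⁻ y in Q ⁻¹' {i}, wj j y κ ∂(sig d) ≤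
      ∫⁻ y, wj j y κ ∂(sig d) := by
    calc ∑ i ∈ Finset.range N, ∫⁻ y in Q ⁻¹' {i}, wj j y κ ∂(sig d)
        = ∫⁻ y in ⋃ i ∈ Finset.range N, Q ⁻¹' {i}, wj j y κ ∂(sig d) := by
          rw [lintegral_biUnion_finset]
          · intro a' _ b _ hab
            exact Disjoint.preimage _ (disjoint_singleton.2 hab)
          · intro i _
            exact hA i
      _ ≤ _ := by
          exact lintegral_mono' Measure.restrict_le_self le_rfl
  calc ∑ i ∈ Finset.range N, ‖fti (Gi (lj j) ((Q ⁻¹' {i}).indicator h)) ξ‖ₑ ^ 2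
      ≤ ∑ i ∈ Finset.range N, ENNReal.ofReal c0 * ENNReal.ofReal (M ^ 2 * C1 * 2 ^ (j * (d + 2))) *
        ∫⁻ y in Q ⁻¹' {i}, wj j y κ ∂(sig d) := Finset.sum_le_sum fun i _ => h2 i
    _ = ENNReal.ofReal c0 * ENNReal.ofReal (M ^ 2 * C1 * 2 ^ (j * (d + 2))) *
        ∑ i ∈ Finset.range N, ∫⁻ y in Q ⁻¹' {i}, wj j y κ ∂(sig d) := by rw [Finset.mul_sum]
    _ ≤ ENNReal.ofReal c0 * ENNReal.ofReal (M ^ 2 * C1 * 2 ^ (j * (d + 2))) *
        ENNReal.ofReal (C2 * ((2 : ℝ) ^ (-((d : ℝ) + 2 - 2 * θ))) ^ j * (1 + ‖κ‖) ^ (-(2 * θ))) :=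
        mul_le_mul' le_rfl (h3.trans (hw j κ))
    _ ≤ _ := by
        rw [← ENNReal.ofReal_mul (by positivity), ← ENNReal.ofReal_mul (by positivity),
          ← ENNReal.ofReal_mul (by positivity)]
        apply ENNReal.ofReal_le_ofReal
        have e1 : (1 + ‖κ‖) ^ (-(2 * θ)) ≤ (1 + ‖ξ‖) ^ (-(2 * θ)) := by
          apply Real.rpow_le_rpow_of_nonpos (by positivity) _ (by linarith)
          rw [hκ, norm_smul, Real.norm_eq_abs, abs_of_pos (by positivity)]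
          nlinarith [norm_nonneg ξ, Real.pi_gt_three]
        have e2 : (2 : ℝ) ^ (-(γ * ((d : ℝ) + 2) * j)) * 2 ^ (j * (d + 2)) *
            ((2 : ℝ) ^ (-((d : ℝ) + 2 - 2 * θ))) ^ j = ((2 : ℝ) ^ (-(γ * ((d : ℝ) + 2) - 2 * θ))) ^ j := by
          rw [← Real.rpow_natCast 2 (j * (d + 2)), ← Real.rpow_natCast _ j, ← Real.rpow_natCast _ j,
            ← Real.rpow_mul (by norm_num), ← Real.rpow_mul (by norm_num), ← Real.rpow_add (by norm_num),
            ← Real.rpow_add (by norm_num)]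
          congr 1
          push_cast
          ring
        calc c0 * (M ^ 2 * C1 * 2 ^ (j * (d + 2))) *
              (C2 * ((2 : ℝ) ^ (-((d : ℝ) + 2 - 2 * θ))) ^ j * (1 + ‖κ‖) ^ (-(2 * θ)))
            = C1 * C2 * K * M ^ 2 * (1 + ‖κ‖) ^ (-(2 * θ)) *
              ((2 : ℝ) ^ (-(γ * ((d : ℝ) + 2) * j)) * 2 ^ (j * (d + 2)) *
                ((2 : ℝ) ^ (-((d : ℝ) + 2 - 2 * θ))) ^ j) := by
              rw [hc0]
              ring
          _ = C1 * C2 * K * M ^ 2 * (1 + ‖κ‖) ^ (-(2 * θ)) *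
              ((2 : ℝ) ^ (-(γ * ((d : ℝ) + 2) - 2 * θ))) ^ j := by rw [e2]
          _ ≤ _ := by gcongr

/-- weighted `L²` bound for one scale -/
lemma l2_scale (d : ℕ) (β : ℝ) (hβ : 1 < β) :
    ∃ C : ℝ, 0 < C ∧ ∀ M : ℝ, ∀ (j : ℕ) (Q : S d → ℕ), Measurable Q →
      ∀ h : S d → ℂ, Measurable h → (∀ y, ‖h y‖ ≤ M) → ∀ (N : ℕ),
      ∫⁻ ξ : E d, ENNReal.ofReal ((1 + ‖ξ‖) ^ (-β)) *
        ∑ i ∈ Finset.range N, ‖fti (Gi (lj j) ((Q ⁻¹' {i}).indicator h)) ξ‖ₑ ^ 2 ≤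
        ENNReal.ofReal C * ∫⁻ y, ‖h y‖ₑ ^ 2 ∂(sig d) := by
  obtain ⟨C, hC, hw⟩ := wL2 d β hβ
  refine ⟨C, hC, fun M j Q hQm h hhm hM N => ?_⟩
  obtain ⟨y0⟩ : Nonempty (S d) := inferInstance
  have hM0 : 0 ≤ M := (norm_nonneg _).trans (hM y0)
  have hA : ∀ i, MeasurableSet (Q ⁻¹' {i}) := fun i => hQm (measurableSet_singleton i)
  have hind : ∀ i, Measurable ((Q ⁻¹' {i}).indicator h) := fun i => hhm.indicator (hA i)
  have hindb : ∀ i y, ‖(Q ⁻¹' {i}).indicator h y‖ ≤ M := fun i y =>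
    (norm_indicator_le_norm_self _ _).trans (hM y)
  have hindi : ∀ i, Integrable ((Q ⁻¹' {i}).indicator h) (sig d) := fun i =>
    Integrable.of_bound (hind i).aestronglyMeasurable M (Eventually.of_forall (hindb i))
  have hG : ∀ i, Continuous (Gi (lj j) ((Q ⁻¹' {i}).indicator h)) := fun i =>
    Gi_cont _ (lj_pos j) _ (hindi i)
  have hGb : ∀ i y, ‖Gi (lj j) ((Q ⁻¹' {i}).indicator h) y‖ ≤ M := fun i y =>
    Gi_bound _ (mm_pos j) _ M (hindb i) y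
  have hGi : ∀ i, Integrable (Gi (lj j) ((Q ⁻¹' {i}).indicator h)) (sig d) := fun i =>
    Gi_integrable _ (lj_pos j) _ (hindi i)
  calc ∫⁻ ξ : E d, ENNReal.ofReal ((1 + ‖ξ‖) ^ (-β)) *
        ∑ i ∈ Finset.range N, ‖fti (Gi (lj j) ((Q ⁻¹' {i}).indicator h)) ξ‖ₑ ^ 2
      = ∑ i ∈ Finset.range N, ∫⁻ ξ : E d, ENNReal.ofReal ((1 + ‖ξ‖) ^ (-β)) *
          ‖fti (Gi (lj j) ((Q ⁻¹' {i}).indicator h)) ξ‖ₑ ^ 2 := by
        rw [← lintegral_finsetSum]
        · apply lintegral_congr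
          intro ξ
          rw [Finset.mul_sum]
        · intro i _
          have h1 : Measurable (fun ξ : E d => ENNReal.ofReal ((1 + ‖ξ‖) ^ (-β))) := by fun_prop
          exact h1.mul ((fti_cont _ (hGi i)).measurable.enorm.pow_const 2)
    _ ≤ ∑ i ∈ Finset.range N, ENNReal.ofReal C * ∫⁻ y, ‖(Q ⁻¹' {i}).indicator h y‖ₑ ^ 2 ∂(sig d) := by
        apply Finset.sum_le_sum
        intro i _
        refine (hw _ (hG i).measurable ⟨M, hGb i⟩).trans ?_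
        exact mul_le_mul' le_rfl (Gi_L2 _ (lj_pos j) (mm_pos j) _ (hind i))
    _ = ENNReal.ofReal C * ∑ i ∈ Finset.range N, ∫⁻ y in Q ⁻¹' {i}, ‖h y‖ₑ ^ 2 ∂(sig d) := by
        rw [Finset.mul_sum]
        apply Finset.sum_congr rfl
        intro i _
        congr 1
        rw [← lintegral_indicator (hA i)]
        apply lintegral_congr
        intro y
        by_cases hy : y ∈ Q ⁻¹' {i}
        · rw [indicator_of_mem hy, indicator_of_mem hy]
        · rw [indicator_of_notMem hy, indicator_of_notMem hy]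
          simp
    _ ≤ _ := by
        refine mul_le_mul' le_rfl ?_
        calc ∑ i ∈ Finset.range N, ∫⁻ y in Q ⁻¹' {i}, ‖h y‖ₑ ^ 2 ∂(sig d)
            = ∫⁻ y in ⋃ i ∈ Finset.range N, Q ⁻¹' {i}, ‖h y‖ₑ ^ 2 ∂(sig d) := by
              rw [lintegral_biUnion_finset]
              · intro a' _ b _ hab
                exact Disjoint.preimage _ (disjoint_singleton.2 hab)
              · intro i _
                exact hA i
          _ ≤ _ := lintegral_mono' Measure.restrict_le_self le_rfl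

/-- summation over the scales -/
lemma sum_scales (p : ℝ) (hp : 1 < p) (s : ℝ) (hs0 : 0 < s) (hs1 : s < 1) (J : ℕ) (v : ℕ → ℝ≥0∞)
    (B : ℝ≥0∞) (hB : B ≠ ∞) (hv : ∀ j, v j ≤ B * ENNReal.ofReal ((s ^ 2) ^ j)) :
    (∑ j ∈ Finset.range J, v j) ^ p ≤ ENNReal.ofReal ((1 - s)⁻¹ ^ (p - 1)) *
      ∑ j ∈ Finset.range J, B ^ (p - 1) * ENNReal.ofReal ((s ^ (p - 1)) ^ j) * v j := by
  have hsj : ∀ j : ℕ, ENNReal.ofReal (s ^ j) ≠ 0 := fun j => (ENNReal.ofReal_pos.2 (by positivity)).ne'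
  have h1 := holder (Measure.count : Measure (Fin J)) p hp
    (fun j => v j / ENNReal.ofReal (s ^ (j : ℕ))) (fun j => ENNReal.ofReal (s ^ (j : ℕ)))
    Measurable.of_discrete Measurable.of_discrete
  simp only [lintegral_fintype, Measure.count_singleton, mul_one] at h1
  have e1 : ∀ j : Fin J, v j / ENNReal.ofReal (s ^ (j : ℕ)) * ENNReal.ofReal (s ^ (j : ℕ)) = v j :=
    fun j => ENNReal.div_mul_cancel (hsj j) ENNReal.ofReal_ne_top
  simp only [e1] at h1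
  rw [Finset.sum_range, Finset.sum_range]
  refine h1.trans ?_
  have e2 : ∑ j : Fin J, ENNReal.ofReal (s ^ (j : ℕ)) ≤ ENNReal.ofReal (1 - s)⁻¹ := by
    rw [← Finset.sum_range (fun j => ENNReal.ofReal (s ^ j))]
    calc ∑ j ∈ Finset.range J, ENNReal.ofReal (s ^ j) ≤ ∑' j : ℕ, ENNReal.ofReal (s ^ j) :=
          ENNReal.sum_le_tsum _
      _ = ENNReal.ofReal (∑' j : ℕ, s ^ j) := by
          rw [ENNReal.ofReal_tsum_of_nonneg (fun j => by positivity)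
            (summable_geometric_of_lt_one hs0.le hs1)]
      _ = _ := by rw [tsum_geometric_of_lt_one hs0.le hs1]
  have hinv : 0 < (1 - s)⁻¹ := inv_pos.2 (by linarith)
  refine mul_le_mul' ?_ ?_
  · rw [← ENNReal.ofReal_rpow_of_pos hinv]
    exact ENNReal.rpow_le_rpow e2 (by linarith)
  · apply Finset.sum_le_sum
    intro j _
    have e3 : v j / ENNReal.ofReal (s ^ (j : ℕ)) ≤ B * ENNReal.ofReal (s ^ (j : ℕ)) := by
      rw [ENNReal.div_le_iff (hsj j) ENNReal.ofReal_ne_top, mul_assoc, ← ENNReal.ofReal_mul (by positivity)]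
      refine (hv j).trans (le_of_eq ?_)
      congr 2
      rw [← pow_mul, mul_comm 2 (j : ℕ), pow_mul, sq]
    calc (v j / ENNReal.ofReal (s ^ (j : ℕ))) ^ p * ENNReal.ofReal (s ^ (j : ℕ))
        = (v j / ENNReal.ofReal (s ^ (j : ℕ))) ^ (p - 1) *
          ((v j / ENNReal.ofReal (s ^ (j : ℕ))) * ENNReal.ofReal (s ^ (j : ℕ))) := by
          rw [← mul_assoc]
          congr 1
          nth_rewrite 3 [← ENNReal.rpow_one (v j / ENNReal.ofReal (s ^ (j : ℕ)))]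
          rw [← ENNReal.rpow_add_of_nonneg _ _ (by linarith) zero_le_one]
          congr 1
          ring
      _ ≤ (B * ENNReal.ofReal (s ^ (j : ℕ))) ^ (p - 1) * v j := by
          rw [e1]
          gcongr
      _ = _ := by
          rw [ENNReal.mul_rpow_of_nonneg _ _ (by linarith), ENNReal.ofReal_rpow_of_pos (by positivity)]
          congr 3
          rw [← Real.rpow_natCast, ← Real.rpow_natCast, ← Real.rpow_mul hs0.le, ← Real.rpow_mul hs0.le]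
          congr 1
          ring

/-- **The square function estimate in the range `2 p > 2 + 2/(γ (n-1))`.** -/
theorem main_sq (d : ℕ) (γ : ℝ) (hγ : 0 < γ) (hγ1 : γ ≤ 1) (p : ℝ)
    (hp : 1 + 1 / (γ * ((d : ℝ) + 2)) < p) :
    ∃ C : ℝ, 0 < C ∧ ∀ (K : ℝ), 0 < K → ∀ M : ℝ, 0 ≤ M → ∀ (J N : ℕ) (Q : ℕ → S d → ℕ),
      (∀ j, Measurable (Q j)) →
      (∀ j i, sig d (Q j ⁻¹' {i}) ≤ ENNReal.ofReal (K * 2 ^ (-(γ * ((d : ℝ) + 2) * j)))) →
      ∀ h : ℕ → S d → ℂ, (∀ j, Measurable (h j)) → (∀ j y, ‖h j y‖ ≤ M) →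
      ∀ L : ℝ≥0∞, (∀ j, ∫⁻ y, ‖h j y‖ₑ ^ 2 ∂(sig d) ≤ L) →
      ∫⁻ ξ : E d, (∑ j ∈ Finset.range J, ∑ i ∈ Finset.range N,
        ‖fti (Gi (lj j) ((Q j ⁻¹' {i}).indicator (h j))) ξ‖ₑ ^ 2) ^ p ≤
        ENNReal.ofReal (C * (K * M ^ 2) ^ (p - 1)) * L := by
  have hg0 : 0 < γ * ((d : ℝ) + 2) := by positivity
  have hp1 : 1 < p := by
    have : 0 < 1 / (γ * ((d : ℝ) + 2)) := by positivity
    linarith
  have hp10 : 0 < p - 1 := by linarith
  -- the parameter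
  have h1 : 1 / (p - 1) < γ * ((d : ℝ) + 2) := by
    rw [div_lt_iff₀ hp10]
    have h2 : 1 / (γ * ((d : ℝ) + 2)) < p - 1 := by linarith
    rw [div_lt_iff₀ hg0] at h2
    linarith
  set θ : ℝ := (1 / (p - 1) + γ * ((d : ℝ) + 2)) / 4 with hθ
  have hinv0 : 0 < 1 / (p - 1) := by positivity
  have hθ0 : 0 ≤ θ := by positivity
  have hθ1 : 2 * θ < γ * ((d : ℝ) + 2) := by rw [hθ]; linarith
  have hθ2 : 1 / (p - 1) < 2 * θ := by rw [hθ]; linarith
  have hθd : θ < ((d : ℝ) + 2) / 2 := by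
    have : γ * ((d : ℝ) + 2) ≤ 1 * ((d : ℝ) + 2) := by gcongr
    linarith
  set β : ℝ := 2 * θ * (p - 1) with hβ
  have hβ1 : 1 < β := by
    rw [hβ]
    rwa [div_lt_iff₀ hp10] at hθ2
  obtain ⟨C1, hC1, hsup⟩ := sup_bound d γ θ hθ0 hθd
  obtain ⟨C2, hC2, hl2⟩ := l2_scale d β hβ1
  set τ : ℝ := γ * ((d : ℝ) + 2) - 2 * θ with hτ
  have hτ0 : 0 < τ := by rw [hτ]; linarith
  set s : ℝ := (2 : ℝ) ^ (-(τ / 2)) with hs
  have hs0 : 0 < s := by positivity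
  have hs1 : s < 1 := Real.rpow_lt_one_of_one_lt_of_neg (by norm_num) (by linarith)
  have hs2 : s ^ 2 = (2 : ℝ) ^ (-τ) := by
    rw [hs, ← Real.rpow_natCast, ← Real.rpow_mul (by norm_num)]
    congr 1
    push_cast
    ring
  set t : ℝ := s ^ (p - 1) with ht
  have ht0 : 0 < t := by positivity
  have ht1 : t < 1 := Real.rpow_lt_one hs0.le hs1 hp10
  have hi1 : 0 < (1 - s)⁻¹ := inv_pos.2 (by linarith)
  have hi2 : 0 < (1 - t)⁻¹ := inv_pos.2 (by linarith)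
  refine ⟨(1 - s)⁻¹ ^ (p - 1) * C1 ^ (p - 1) * C2 * (1 - t)⁻¹, by positivity, ?_⟩
  intro K hK M hM0 J N Q hQm hQ h hhm hM L hL
  set v : ℕ → E d → ℝ≥0∞ := fun j ξ => ∑ i ∈ Finset.range N,
        ‖fti (Gi (lj j) ((Q j ⁻¹' {i}).indicator (h j))) ξ‖ₑ ^ 2 with hv
  set B : E d → ℝ≥0∞ := fun ξ => ENNReal.ofReal (C1 * K * M ^ 2 * (1 + ‖ξ‖) ^ (-(2 * θ))) with hB
  have hvB : ∀ j ξ, v j ξ ≤ B ξ * ENNReal.ofReal ((s ^ 2) ^ j) := by
    intro j ξ
    rw [hs2]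
    exact hsup K hK M hM0 j (Q j) (hQm j) (hQ j) (h j) (hhm j) (hM j) N ξ
  have hhi : ∀ j i, Integrable ((Q j ⁻¹' {i}).indicator (h j)) (sig d) := fun j i =>
    (Integrable.of_bound (hhm j).aestronglyMeasurable M (Eventually.of_forall (hM j))).indicator
      (hQm j (measurableSet_singleton i))
  have hvm : ∀ j, Measurable (v j) := by
    intro j
    apply Finset.measurable_fun_sum
    intro i _
    exact (fti_cont _ (Gi_integrable _ (lj_pos j) _ (hhi j i))).measurable.enorm.pow_const 2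
  have hBp : ∀ ξ, B ξ ^ (p - 1) = ENNReal.ofReal (C1 ^ (p - 1) * (K * M ^ 2) ^ (p - 1)) *
      ENNReal.ofReal ((1 + ‖ξ‖) ^ (-β)) := by
    intro ξ
    have e0 : 0 ≤ C1 * K * M ^ 2 * (1 + ‖ξ‖) ^ (-(2 * θ)) := by positivity
    simp only [hB]
    rw [ENNReal.ofReal_rpow_of_nonneg e0 hp10.le, ← ENNReal.ofReal_mul (by positivity)]
    congr 1
    rw [show C1 * K * M ^ 2 * (1 + ‖ξ‖) ^ (-(2 * θ)) = C1 * (K * M ^ 2) * (1 + ‖ξ‖) ^ (-(2 * θ)) by ring,
      Real.mul_rpow (by positivity) (by positivity), Real.mul_rpow (by positivity) (by positivity),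
      ← Real.rpow_mul (by positivity)]
    congr 2
    rw [hβ]
    ring
  calc ∫⁻ ξ : E d, (∑ j ∈ Finset.range J, v j ξ) ^ p
      ≤ ∫⁻ ξ : E d, ENNReal.ofReal ((1 - s)⁻¹ ^ (p - 1)) *
          ∑ j ∈ Finset.range J, B ξ ^ (p - 1) * ENNReal.ofReal (t ^ j) * v j ξ := by
        apply lintegral_mono
        intro ξ
        exact sum_scales p hp1 s hs0 hs1 J (fun j => v j ξ) (B ξ) ENNReal.ofReal_ne_top
          (fun j => hvB j ξ)
    _ = ENNReal.ofReal ((1 - s)⁻¹ ^ (p - 1)) * ∑ j ∈ Finset.range J,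
          ENNReal.ofReal (C1 ^ (p - 1) * (K * M ^ 2) ^ (p - 1)) * (ENNReal.ofReal (t ^ j) *
            ∫⁻ ξ : E d, ENNReal.ofReal ((1 + ‖ξ‖) ^ (-β)) * v j ξ) := by
        rw [lintegral_const_mul' _ _ ENNReal.ofReal_ne_top, lintegral_finsetSum]
        · congr 1
          apply Finset.sum_congr rfl
          intro j _
          rw [← lintegral_const_mul' _ _ ENNReal.ofReal_ne_top,
            ← lintegral_const_mul' _ _ ENNReal.ofReal_ne_top]
          apply lintegral_congr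
          intro ξ
          rw [hBp]
          ring
        · intro j _
          have hBm : Measurable (fun ξ : E d => B ξ ^ (p - 1)) := by
            simp only [hB]
            fun_prop
          exact (hBm.mul_const _).mul (hvm j)
    _ ≤ ENNReal.ofReal ((1 - s)⁻¹ ^ (p - 1)) * ∑ j ∈ Finset.range J,
          ENNReal.ofReal (C1 ^ (p - 1) * (K * M ^ 2) ^ (p - 1)) * (ENNReal.ofReal (t ^ j) *
            (ENNReal.ofReal C2 * L)) := by
        gcongr with j _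
        refine (hl2 M j (Q j) (hQm j) (h j) (hhm j) (hM j) N).trans ?_
        exact mul_le_mul' le_rfl (hL j)
    _ = ENNReal.ofReal ((1 - s)⁻¹ ^ (p - 1)) * (ENNReal.ofReal (C1 ^ (p - 1) * (K * M ^ 2) ^ (p - 1)) *
          (ENNReal.ofReal C2 * L)) * ∑ j ∈ Finset.range J, ENNReal.ofReal (t ^ j) := by
        rw [Finset.mul_sum, Finset.mul_sum]
        apply Finset.sum_congr rfl
        intro j _
        ring
    _ ≤ ENNReal.ofReal ((1 - s)⁻¹ ^ (p - 1)) * (ENNReal.ofReal (C1 ^ (p - 1) * (K * M ^ 2) ^ (p - 1)) *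
          (ENNReal.ofReal C2 * L)) * ENNReal.ofReal (1 - t)⁻¹ := by
        refine mul_le_mul' le_rfl ?_
        calc ∑ j ∈ Finset.range J, ENNReal.ofReal (t ^ j) ≤ ∑' j : ℕ, ENNReal.ofReal (t ^ j) :=
              ENNReal.sum_le_tsum _
          _ = ENNReal.ofReal (∑' j : ℕ, t ^ j) := by
              rw [ENNReal.ofReal_tsum_of_nonneg (fun j => by positivity)
                (summable_geometric_of_lt_one ht0.le ht1)]
          _ = _ := by rw [tsum_geometric_of_lt_one ht0.le ht1]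
    _ = ENNReal.ofReal ((1 - s)⁻¹ ^ (p - 1)) * ENNReal.ofReal (C1 ^ (p - 1) * (K * M ^ 2) ^ (p - 1)) *
          ENNReal.ofReal C2 * ENNReal.ofReal (1 - t)⁻¹ * L := by ring
    _ = _ := by
        rw [← ENNReal.ofReal_mul (by positivity), ← ENNReal.ofReal_mul (by positivity),
          ← ENNReal.ofReal_mul (by positivity)]
        congr 2
        ring

end Pool.Agent.N378.RD
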